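import Pool.Agent.Helper91K1.WS.Stm3

/-!
# (AE) the energy of the first `s` variables
-/

set_option autoImplicit false

namespace Pool.Agent.Helper91K1.WS

open Finset MeasureTheory Filter

private lemma pow_gap {u v : ℝ} (hu : 0 ≤ u) (huv : u + 1 ≤ v) {k : ℕ} (hk : 1 ≤ k) :
    1 ≤ v ^ k - u ^ k := by
  obtain ⟨j, rfl⟩ : ∃ j, k = j + 1 := ⟨k - 1, by omega⟩
  have h1 : (u + 1) ^ (j + 1) ≤ v ^ (j + 1) := pow_le_pow_left₀ (by linarith) huv _
  have h2 : u ^ j ≤ (u + 1) ^ j := pow_le_pow_left₀ hu (by linarith) _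
  have h3 : (1:ℝ) ≤ (u + 1) ^ j := one_le_pow₀ (by linarith)
  have h4 : (u + 1) ^ (j + 1) = (u + 1) ^ j * u + (u + 1) ^ j := by ring
  have h5 : u ^ (j + 1) = u ^ j * u := by ring
  have h6 : u ^ j * u ≤ (u + 1) ^ j * u := mul_le_mul_of_nonneg_right h2 hu
  linarith

private lemma base_En (k r K n : ℕ) (δ : ℝ) (hk : 2 ≤ k) (hK : 1 ≤ K) (hδ1 : δ ≤ 1)
    (θ : Fin 1 → ℝ) (hθ : ∀ i, θ i ∈ Set.Ico (0:ℝ) 1) :
    En (II r K n 1) (Sg k θ) δ ≤ K * (PP r n : ℝ) ^ 1 := by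
  classical
  refine le_trans ?_ (card_II r K n 1 hK)
  unfold En
  have key : ∀ x y : Fin 1 → ℕ, x 0 < y 0 → 1 ≤ |Sg k θ x - Sg k θ y| := by
    intro x y hxy
    have h0 := (hθ 0).1
    have h1 : (x 0 : ℝ) + 1 ≤ y 0 := by exact_mod_cast hxy
    have h2 : 1 ≤ ((y 0 : ℝ) + θ 0) ^ k - ((x 0 : ℝ) + θ 0) ^ k :=
      pow_gap (by positivity) (by linarith) (by omega)
    unfold Sg
    simp only [Fin.sum_univ_one]
    rw [abs_sub_comm]
    exact h2.trans (le_abs_self _)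
  have hsub : ((II r K n 1 ×ˢ II r K n 1).filter
      (fun p : (Fin 1 → ℕ) × (Fin 1 → ℕ) => |Sg k θ p.1 - Sg k θ p.2| < δ)) ⊆
      (II r K n 1).image (fun x => (x, x)) := by
    rintro ⟨x, y⟩ hp
    rw [mem_filter, mem_product] at hp
    have hxy : x 0 = y 0 := by
      rcases lt_trichotomy (x 0) (y 0) with h | h | h
      · have := key x y h
        have h2 := hp.2
        simp only at h2
        linarith
      · exact h
      · have := key y x h
        rw [abs_sub_comm] at this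
        have h2 := hp.2
        simp only at h2
        linarith
    have : x = y := by
      funext i
      rw [Subsingleton.elim i 0]
      exact hxy
    subst this
    exact mem_image.2 ⟨x, hp.1.1, rfl⟩
  have h := (card_le_card hsub).trans card_image_le
  exact_mod_cast h

private lemma XX_eq (r K n s : ℕ) (hs : 1 ≤ s) :
    XX r K n s = Ico (if s = 1 then QQ r n else PP r n)
      ((if s = 1 then QQ r n else PP r n) + (if s = 1 then QQ r n else PP r n)) := by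
  obtain ⟨j, rfl⟩ : ∃ j, s = j + 1 := ⟨s - 1, by omega⟩
  cases j with
  | zero => simp [XX]
  | succ j => simp [XX]

private lemma num3 {P L Mr lm lp δ c κ : ℝ} {s k : ℕ} (hP1 : 1 ≤ P) (hMr1 : 1 ≤ Mr)
    (hδ : 0 < δ) (hδ1 : δ ≤ 1) (hlm0 : 0 ≤ lm) (hlm : lm ≤ lp) (hc0 : 0 ≤ c)
    (hc : c ≤ κ * P ^ s) (t2 : P ^ (2 * s) ≤ P ^ (s + 1) * Mr ^ (k - 2))
    (hg : 2 * κ ^ 2 * (1 + lp) ≤ L) :
    2 * δ * (1 + lm) / Mr ^ (k - 2) * c ^ 2 ≤ P ^ (s + 1) * L := by
  have hD : 0 < Mr ^ (k - 2) := by positivity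
  generalize Mr ^ (k - 2) = D at hD t2 ⊢
  have h1 : c ^ 2 ≤ κ ^ 2 * P ^ (2 * s) := by
    calc c ^ 2 ≤ (κ * P ^ s) ^ 2 := pow_le_pow_left₀ hc0 hc 2
      _ = κ ^ 2 * P ^ (2 * s) := by rw [mul_pow, ← pow_mul, mul_comm s 2]
  have h2 : 2 * δ * (1 + lm) ≤ 2 * (1 + lp) := by nlinarith
  have h3 : 0 ≤ 2 * δ * (1 + lm) := by positivity
  have h4 : 0 ≤ κ ^ 2 := sq_nonneg κ
  calc 2 * δ * (1 + lm) / D * c ^ 2
      ≤ 2 * (1 + lp) / D * (κ ^ 2 * (P ^ (s + 1) * D)) := by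
        refine mul_le_mul ?_ (h1.trans (mul_le_mul_of_nonneg_left t2 h4)) (sq_nonneg c) ?_
        · exact div_le_div_of_nonneg_right h2 hD.le
        · exact div_nonneg (h3.trans h2) hD.le
    _ = P ^ (s + 1) * (2 * κ ^ 2 * (1 + lp)) := by
        field_simp
    _ ≤ P ^ (s + 1) * L := mul_le_mul_of_nonneg_left hg (by positivity)

private lemma num4 {L : ℝ} (hL : 2 ≤ L) {s : ℕ} (hs : 1 ≤ s) :
    L ^ (2 * s) + L ≤ L ^ (2 * s + 1) := by
  have h1 : L ≤ L ^ (2 * s) := by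
    calc L = L ^ 1 := (pow_one _).symm
      _ ≤ L ^ (2 * s) := pow_le_pow_right₀ (by linarith) (by omega)
  have h2 : L ^ (2 * s + 1) = L ^ (2 * s) * L := pow_succ _ _
  rw [h2]
  have h3 : 0 < L ^ (2 * s) := by positivity
  nlinarith

theorem taskAE2 (hE : TaskE) (hB : TaskB) (hF : TaskF) : TaskAE2 := by
  intro k r K δ hk hr hK hδa s hs
  have hδ : ∀ n, 0 < δ n := fun n => (hδa.1 n).1
  have hδ1 : ∀ n, δ n ≤ 1 := fun n => (hδa.1 n).2
  induction s, hs using Nat.le_induction with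
  | base =>
    intro _
    refine Filter.Eventually.of_forall fun θ hθ => ?_
    unfold pE2
    filter_upwards [growth' (K:ℝ)] with n hn
    refine (base_En k r K n (δ n) hk hK (hδ1 n) θ hθ).trans ?_
    have hP : (0:ℝ) ≤ (PP r n : ℝ) ^ 1 := by positivity
    have hL : (1:ℝ) ≤ (2:ℝ) ^ n := one_le_pow₀ (by norm_num)
    rw [mul_comm]
    refine mul_le_mul_of_nonneg_left ?_ hP
    calc (K:ℝ) ≤ (2:ℝ) ^ n := hn
      _ ≤ ((2:ℝ) ^ n) ^ (2 * 1) := by
        rw [mul_one, sq]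
        exact le_mul_of_one_le_right (by positivity) hL
  | succ s hs ih =>
    intro hsk
    have ih' := ih (by omega)
    refine hF s (pE2 k r K δ s) (pE2 k r K δ (s + 1)) ?_ ?_ ih' ?_
    · exact meas_eventually _ fun n => measurableSet_le (meas_En k r K n s (δ n)) measurable_const
    · exact meas_eventually _ fun n =>
        measurableSet_le (meas_En k r K n (s + 1) (δ n)) measurable_const
    intro θ hθ hp
    set M : ℕ → ℕ := fun n => if s = 1 then QQ r n else PP r n with hM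
    have hM1 : ∀ n, 1 ≤ M n := by
      intro n
      simp only [hM]
      split_ifs
      · exact QQ_pos r n
      · exact PP_pos r n
    have hMP : ∀ n, M n ≤ PP r n := by
      intro n
      simp only [hM]
      split_ifs
      · exact QQ_le r n
      · exact le_rfl
    have hYm : ∀ n, Measurable fun t : ℝ =>
        En (II r K n (s + 1)) (Sg k (Fin.snoc (α := fun _ => ℝ) θ t)) (δ n) := fun n =>
      (meas_En k r K n (s + 1) (δ n)).comp (cont_snoc s θ).measurable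
    have h := hB (fun n t => En (II r K n (s + 1)) (Sg k (Fin.snoc (α := fun _ => ℝ) θ t)) (δ n))
      (fun n => (PP r n : ℝ) ^ (s + 1) * ((2:ℝ) ^ n) ^ (2 * s + 1)) hYm
      (fun n t => En_nonneg _ _ _)
      (fun n => integrable_of_bdd _ (hYm n) _ (fun t => En_nonneg _ _ _)
        (fun t => En_le_sq _ _ _)) ?_
    · filter_upwards [h] with t ht
      unfold pE2
      filter_upwards [ht] with n hn
      refine hn.trans (le_of_eq ?_)
      ring
    · unfold pE2 at hp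
      filter_upwards [hp, growth (2 * (K:ℝ) ^ 2) r, eventually_ge_atTop 1] with n hn hg hn1
      have hP1 : (1:ℝ) ≤ (PP r n : ℝ) := by exact_mod_cast PP_pos r n
      have hP0 : (0:ℝ) < (PP r n : ℝ) := by linarith
      have hL2 : (2:ℝ) ≤ (2:ℝ) ^ n := by
        calc (2:ℝ) = 2 ^ 1 := by norm_num
          _ ≤ 2 ^ n := pow_le_pow_right₀ (by norm_num) hn1
      refine ⟨by positivity, ?_⟩
      have e1 : ∀ t : ℝ, En (II r K n (s + 1)) (Sg k (Fin.snoc (α := fun _ => ℝ) θ t)) (δ n) =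
          En (II r K n s ×ˢ Ico (M n) (M n + M n)) (fun p => Sg k θ p.1 + ((p.2:ℝ) + t) ^ k) (δ n) := by
        intro t
        rw [En_succ, XX_eq r K n s hs]
      simp_rw [e1]
      refine (hE (Fin s → ℕ) (II r K n s) (Sg k θ) k (M n) (M n) (δ n) hk (hM1 n) (hM1 n) (hδ n)).trans ?_
      have hMr1 : (1:ℝ) ≤ (M n : ℝ) := by exact_mod_cast hM1 n
      have hMrP : (M n : ℝ) ≤ (PP r n : ℝ) := by exact_mod_cast hMP n
      have hlog : Real.log (M n) ≤ Real.log (PP r n) := Real.log_le_log (by linarith) hMrP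
      have hlog0 : 0 ≤ Real.log (M n) := Real.log_nonneg hMr1
      have hcard : ((II r K n s).card : ℝ) ≤ K * (PP r n : ℝ) ^ s := card_II r K n s hK
      -- the first term
      have t1 : (M n : ℝ) * En (II r K n s) (Sg k θ) (δ n) ≤
          (PP r n : ℝ) ^ (s + 1) * ((2:ℝ) ^ n) ^ (2 * s) := by
        calc (M n : ℝ) * En (II r K n s) (Sg k θ) (δ n)
            ≤ (PP r n : ℝ) * ((PP r n : ℝ) ^ s * ((2:ℝ) ^ n) ^ (2 * s)) :=
              mul_le_mul hMrP hn (En_nonneg _ _ _) hP0.le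
          _ = (PP r n : ℝ) ^ (s + 1) * ((2:ℝ) ^ n) ^ (2 * s) := by ring
      -- the power
      have t2 : (PP r n : ℝ) ^ (2 * s) ≤ (PP r n : ℝ) ^ (s + 1) * (M n : ℝ) ^ (k - 2) := by
        by_cases h1 : s = 1
        · subst h1
          have h2 : (1:ℝ) ≤ (M n : ℝ) ^ (k - 2) := one_le_pow₀ hMr1
          exact le_mul_of_one_le_right (by positivity) h2
        · have h2 : (M n : ℝ) = PP r n := by simp [hM, h1]
          rw [h2, ← pow_add]
          exact pow_le_pow_right₀ hP1 (by omega)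
      have t3 : 2 * δ n * (1 + Real.log (M n)) / (M n : ℝ) ^ (k - 2) *
          ((II r K n s).card : ℝ) ^ 2 ≤ (PP r n : ℝ) ^ (s + 1) * (2:ℝ) ^ n :=
        num3 hP1 hMr1 (hδ n) (hδ1 n) hlog0 hlog (Nat.cast_nonneg _) hcard t2 hg
      have t4 : ((2:ℝ) ^ n) ^ (2 * s) + (2:ℝ) ^ n ≤ ((2:ℝ) ^ n) ^ (2 * s + 1) := num4 hL2 hs
      calc (M n : ℝ) * En (II r K n s) (Sg k θ) (δ n) +
            2 * δ n * (1 + Real.log (M n)) / (M n : ℝ) ^ (k - 2) * ((II r K n s).card : ℝ) ^ 2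
          ≤ (PP r n : ℝ) ^ (s + 1) * ((2:ℝ) ^ n) ^ (2 * s) +
            (PP r n : ℝ) ^ (s + 1) * (2:ℝ) ^ n := add_le_add t1 t3
        _ = (PP r n : ℝ) ^ (s + 1) * (((2:ℝ) ^ n) ^ (2 * s) + (2:ℝ) ^ n) := by ring
        _ ≤ (PP r n : ℝ) ^ (s + 1) * ((2:ℝ) ^ n) ^ (2 * s + 1) :=
            mul_le_mul_of_nonneg_left t4 (by positivity)

end Pool.Agent.Helper91K1.WS
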