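import Pool.Agent.Helper91K1.WS.Stm2

set_option autoImplicit false

namespace Pool.Agent.Helper91K1.WS

open Finset MeasureTheory Filter

lemma II_ge (r K n : ℕ) : ∀ (s : ℕ) (x : Fin s → ℕ), x ∈ II r K n s → ∀ i, QQ r n ≤ x i := by
  intro s
  induction s with
  | zero => intro x _ i; exact i.elim0
  | succ s ih =>
    intro x hx i
    have hx' : x ∈ (II r K n s ×ˢ XX r K n s).map (snocEmb s) := hx
    rw [Finset.mem_map] at hx'
    obtain ⟨p, hp, rfl⟩ := hx'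
    rw [mem_product] at hp
    have h2 : QQ r n ≤ p.2 := by
      have hq := QQ_le r n
      have h := hp.2
      rcases s with _ | s
      · simp only [XX, mem_Ico] at h; omega
      · rcases s with _ | s
        · simp only [XX, mem_Ico, zero_add] at h; omega
        · simp only [XX, mem_Ico] at h; omega
    refine Fin.lastCases ?_ (fun j => ?_) i
    · simpa [snocEmb] using h2
    · simpa [snocEmb] using ih p.1 hp.1 j

lemma PP_succ (r n : ℕ) : (PP r (n + 1) : ℝ) = 2 ^ r * PP r n := by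
  rw [PP_real, PP_real, pow_succ, mul_pow]; ring

lemma floor_step (a b δ : ℝ) (hδ : 0 < δ) (h : a + δ ≤ b) : ⌊a / δ⌋ < ⌊b / δ⌋ := by
  rw [← Int.add_one_le_iff, Int.le_floor]
  push_cast
  have h1 := Int.floor_le (a / δ)
  have h2 : a / δ + 1 ≤ b / δ := by
    rw [div_add_one hδ.ne']
    exact div_le_div_of_nonneg_right h hδ.le
  linarith

lemma pow_gapF (a b : ℝ) (k : ℕ) (hk : 1 ≤ k) (ha : 0 ≤ a) (h : a + 1 ≤ b) :
    a ^ k + 1 ≤ b ^ k := by
  have h1 : (a + 1) ^ k ≤ b ^ k := pow_le_pow_left₀ (by linarith) h k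
  have h2 : a ^ k + 1 ≤ (a + 1) ^ k := by
    obtain ⟨j, rfl⟩ : ∃ j, k = j + 1 := ⟨k - 1, by omega⟩
    have h3 : a ^ j ≤ (a + 1) ^ j := pow_le_pow_left₀ ha (by linarith) j
    have h4 : (1:ℝ) ≤ (a + 1) ^ j := one_le_pow₀ (by linarith)
    have h5 : (0:ℝ) ≤ a ^ j := by positivity
    rw [pow_succ, pow_succ]
    nlinarith
  linarith

lemma final_det (k r B K : ℕ) (δ : ℝ) (hk : 2 ≤ k) (hr : bb k k + 1 ≤ r) (hr2 : 2 ≤ r)
    (hB : ((2 * k + 1) * 2 ^ k + 3 ^ k + 1) * 2 ^ (r * k) + 1 ≤ B)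
    (hδ : 0 < δ) (hδ1 : δ ≤ 1) (θ : Fin (k + k) → ℝ) (h : pB k r B K δ k θ) (ψ : ℝ) (C : ℕ) :
    ∃ T : ℝ, ∀ τ : ℝ, T ≤ τ → ∃ x : Fin (k + k) → ℕ, ∃ y : ℕ, (∀ i, C ≤ x i) ∧ C ≤ y ∧
      |Sg k θ x + ((y:ℝ) + ψ) ^ k - τ| < (k + 3) * δ := by
  obtain ⟨n0, hn0⟩ : ∃ n0 : ℕ, ∀ n, n0 ≤ n → ((Bad k r B K n δ k θ).card : ℝ) ≤
      ((2:ℝ) ^ n) ^ (bb k k) ∧ |ψ| ≤ 2 ^ n ∧ (C:ℝ) ≤ 2 ^ n ∧ (2:ℝ) ≤ 2 ^ n := by
    have h1 := h
    unfold pB at h1
    rw [← eventually_atTop]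
    filter_upwards [h1, growth' |ψ|, growth' C, growth' 2] with n e1 e2 e3 e4
    refine ⟨?_, e2, e3, e4⟩
    rw [Nat.sub_self, pow_zero, one_mul] at e1
    exact e1
  set A : ℝ := (2 * k + 1) * 2 ^ k + 3 ^ k + 1 with hA
  have hA1 : 1 ≤ A := by
    have h1 : (0:ℝ) ≤ (2 * k + 1) * 2 ^ k + 3 ^ k := by positivity
    rw [hA]; linarith
  have hBr : A * 2 ^ (r * k) + 1 ≤ (B:ℝ) := by
    have : ((((2 * k + 1) * 2 ^ k + 3 ^ k + 1) * 2 ^ (r * k) + 1 : ℕ) : ℝ) ≤ (B:ℝ) := by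
      exact_mod_cast hB
    push_cast at this
    rw [hA]
    exact this
  refine ⟨A * (PP r n0 : ℝ) ^ k, fun τ hτ => ?_⟩
  -- the scale
  obtain ⟨n, hn, hτ1, hτ2⟩ : ∃ n, n0 ≤ n ∧ A * (PP r n : ℝ) ^ k ≤ τ ∧
      τ < A * (PP r (n + 1) : ℝ) ^ k := by
    have hex : ∃ j : ℕ, τ < A * (PP r (n0 + j) : ℝ) ^ k := by
      have h1 := growth' (|τ| + 1)
      rw [eventually_atTop] at h1
      obtain ⟨n1, hn1⟩ := h1
      refine ⟨n1, ?_⟩
      have h2 := hn1 (n0 + n1) (by omega)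
      have h3 : (2:ℝ) ^ (n0 + n1) ≤ (PP r (n0 + n1) : ℝ) := by
        rw [PP_real]
        exact le_self_pow₀ (one_le_pow₀ (by norm_num)) (by omega)
      have h4 : (PP r (n0 + n1) : ℝ) ≤ (PP r (n0 + n1) : ℝ) ^ k := by
        apply le_self_pow₀ _ (by omega)
        exact_mod_cast PP_pos r (n0 + n1)
      have h5 : (PP r (n0 + n1) : ℝ) ^ k ≤ A * (PP r (n0 + n1) : ℝ) ^ k :=
        le_mul_of_one_le_left (by positivity) hA1
      have h6 := le_abs_self τ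
      linarith
    classical
    let j := Nat.find hex
    have hj : τ < A * (PP r (n0 + j) : ℝ) ^ k := Nat.find_spec hex
    have hj0 : j ≠ 0 := by
      intro h0
      rw [h0] at hj
      simp only [add_zero] at hj
      linarith
    refine ⟨n0 + (j - 1), by omega, ?_, ?_⟩
    · have := Nat.find_min hex (m := j - 1) (by omega)
      exact not_lt.mp this
    · have e : n0 + (j - 1) + 1 = n0 + j := by omega
      rw [e]; exact hj
  obtain ⟨hb, hψ, hC, h2n⟩ := hn0 n hn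
  set P : ℝ := (PP r n : ℝ) with hP
  have hP1 : 1 ≤ P := by rw [hP]; exact_mod_cast PP_pos r n
  have hLP : (2:ℝ) ^ n ≤ P := by
    rw [hP, PP_real]
    exact le_self_pow₀ (one_le_pow₀ (by norm_num)) (by omega)
  have hPk : 1 ≤ P ^ k := one_le_pow₀ hP1
  have hτ2' : τ < A * 2 ^ (r * k) * P ^ k := by
    rw [PP_succ, mul_pow, ← pow_mul] at hτ2
    linarith
  -- the numbers `r_y`
  set m : ℤ := ⌊τ / δ⌋ with hm
  have hm1 : (m:ℝ) * δ ≤ τ := by
    have := Int.floor_le (τ / δ)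
    rwa [← hm, le_div_iff₀ hδ] at this
  have hm2 : τ < ((m:ℝ) + 1) * δ := by
    have := Int.lt_floor_add_one (τ / δ)
    rwa [← hm, div_lt_iff₀ hδ] at this
  let ρ : ℕ → ℤ := fun y => ⌊((y:ℝ) + ψ) ^ k / δ⌋
  have hyψ : ∀ y ∈ Ico (PP r n) (2 * PP r n), 0 ≤ (y:ℝ) + ψ ∧ (y:ℝ) + ψ ≤ 3 * P := by
    intro y hy
    rw [mem_Ico] at hy
    have h1 : P ≤ (y:ℝ) := by rw [hP]; exact_mod_cast hy.1
    have h2 : (y:ℝ) ≤ 2 * P := by rw [hP]; exact_mod_cast hy.2.le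
    have h3 := neg_abs_le ψ
    have h4 := le_abs_self ψ
    constructor <;> linarith
  have hρ1 : ∀ y : ℕ, (ρ y : ℝ) * δ ≤ ((y:ℝ) + ψ) ^ k := by
    intro y
    have := Int.floor_le (((y:ℝ) + ψ) ^ k / δ)
    rwa [le_div_iff₀ hδ] at this
  have hρ2 : ∀ y : ℕ, ((y:ℝ) + ψ) ^ k < ((ρ y : ℝ) + 1) * δ := by
    intro y
    have := Int.lt_floor_add_one (((y:ℝ) + ψ) ^ k / δ)
    rwa [div_lt_iff₀ hδ] at this
  have hmono : ∀ y ∈ Ico (PP r n) (2 * PP r n), ∀ z : ℕ, y < z → ρ y < ρ z := by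
    intro y hy z hyz
    apply floor_step _ _ _ hδ
    have h1 : (y:ℝ) + 1 ≤ z := by exact_mod_cast hyz
    have := pow_gapF ((y:ℝ) + ψ) ((z:ℝ) + ψ) k (by omega) (hyψ y hy).1 (by linarith)
    linarith
  have hinj : Set.InjOn (fun y => m - ρ y) (Ico (PP r n) (2 * PP r n) : Finset ℕ) := by
    intro y hy z hz hyz
    simp only [sub_right_inj] at hyz
    rcases lt_trichotomy y z with h1 | h1 | h1
    · have := hmono y (by simpa using hy) z h1; omega
    · exact h1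
    · have := hmono z (by simpa using hz) y h1; omega
  have hVV : ∀ y ∈ Ico (PP r n) (2 * PP r n), m - ρ y ∈ VV k r B n δ k := by
    intro y hy
    rw [mem_VV _ _ _ _ _ _ hδ]
    have hy1 := hyψ y hy
    have hp : ((y:ℝ) + ψ) ^ k ≤ 3 ^ k * P ^ k := by
      rw [← mul_pow]
      exact pow_le_pow_left₀ hy1.1 hy1.2 k
    have hp0 : 0 ≤ ((y:ℝ) + ψ) ^ k := pow_nonneg hy1.1 k
    have hρ0 : 0 ≤ (ρ y : ℝ) := by
      have : 0 ≤ ρ y := Int.floor_nonneg.mpr (by positivity)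
      exact_mod_cast this
    push_cast
    have h1 := hρ1 y
    constructor
    · have h2 : ((m:ℝ) - ρ y) * δ = m * δ - ρ y * δ := by ring
      rw [h2]
      have h3 : τ - δ < m * δ := by linarith
      have h4 : ((k:ℝ) + k + 1) * 2 ^ k * (PP r n : ℝ) ^ k = A * P ^ k - 3 ^ k * P ^ k - P ^ k := by
        rw [hA]; ring
      rw [h4]
      linarith
    · have h2 : ((m:ℝ) - ρ y + 1) * δ = m * δ - ρ y * δ + δ := by ring
      rw [h2]
      have h3 : 0 ≤ (ρ y : ℝ) * δ := by positivity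
      have h4 : (A * 2 ^ (r * k) + 1) * P ^ k ≤ B * P ^ k :=
        mul_le_mul_of_nonneg_right hBr (by positivity)
      have h5 : (A * 2 ^ (r * k) + 1) * P ^ k = A * 2 ^ (r * k) * P ^ k + P ^ k := by ring
      linarith
  -- a good `y`
  have hgood : ∃ y ∈ Ico (PP r n) (2 * PP r n), m - ρ y ∉ Bad k r B K n δ k θ := by
    by_contra hcon
    push Not at hcon
    have h1 : (Ico (PP r n) (2 * PP r n)).card ≤ (Bad k r B K n δ k θ).card :=
      card_le_card_of_injOn (fun y => m - ρ y) (fun y hy => hcon y (by simpa using hy)) hinj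
    rw [Nat.card_Ico] at h1
    have h2 : PP r n ≤ (Bad k r B K n δ k θ).card := by omega
    have h3 : P ≤ ((2:ℝ) ^ n) ^ (bb k k) := by
      refine le_trans ?_ hb
      rw [hP]; exact_mod_cast h2
    have h4 : ((2:ℝ) ^ n) ^ (bb k k) < P := by
      rw [hP, PP_real]
      exact pow_lt_pow_right₀ (by linarith) (by omega)
    linarith
  obtain ⟨y, hy, hyB⟩ := hgood
  unfold Bad at hyB
  rw [mem_filter, not_and] at hyB
  have h1 := hyB (hVV y hy)
  push Not at h1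
  obtain ⟨x, hx, hxlt⟩ := h1
  refine ⟨x, y, fun i => ?_, ?_, ?_⟩
  · have h2 := II_ge r K n (k + k) x hx i
    have h3 : C ≤ QQ r n := by
      have h4 : (C:ℝ) ≤ QQ r n := by
        rw [QQ_real]
        exact le_trans hC (le_self_pow₀ (one_le_pow₀ (by norm_num)) (by omega))
      exact_mod_cast h4
    omega
  · rw [mem_Ico] at hy
    have h4 : (C:ℝ) ≤ PP r n := le_trans hC hLP
    have h5 : C ≤ PP r n := by exact_mod_cast h4
    omega
  · have h2 := hρ1 y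
    have h3 := hρ2 y
    rw [abs_lt] at hxlt ⊢
    push_cast at hxlt
    obtain ⟨ha, hb'⟩ := hxlt
    constructor <;> nlinarith

end Pool.Agent.Helper91K1.WS
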