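import Pool.Agent.Helper91K1.WS.Stm3
import Pool.Agent.Helper91K1.WS.AF

set_option autoImplicit false

namespace Pool.Agent.Helper91K1.WS

open Finset MeasureTheory Filter

/-- the constant `A = (2k+1) 2^k + 3^k + 1` -/
def Af (k : ℕ) : ℕ := (2 * k + 1) * 2 ^ k + 3 ^ k + 1

lemma one_le_Af (k : ℕ) : (1:ℝ) ≤ (Af k : ℝ) := by
  have : 1 ≤ Af k := Nat.le_add_left 1 _
  exact_mod_cast this

/-- every large real lies in a scale -/
lemma exists_scale (k r n0 : ℕ) (hk : 1 ≤ k) (hr : 1 ≤ r) (τ : ℝ)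
    (hτ : (Af k : ℝ) * (PP r n0 : ℝ) ^ k ≤ τ) :
    ∃ n, n0 ≤ n ∧ (Af k : ℝ) * (PP r n : ℝ) ^ k ≤ τ ∧ τ < (Af k : ℝ) * (PP r (n + 1) : ℝ) ^ k := by
  have hA1 := one_le_Af k
  have hex : ∃ j : ℕ, τ < (Af k : ℝ) * (PP r (n0 + j) : ℝ) ^ k := by
    have h1 := growth' (|τ| + 1)
    rw [eventually_atTop] at h1
    obtain ⟨n1, hn1⟩ := h1
    refine ⟨n1, ?_⟩
    have h2 := hn1 (n0 + n1) (by omega)
    have h3 : (2:ℝ) ^ (n0 + n1) ≤ (PP r (n0 + n1) : ℝ) := by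
      rw [PP_real]
      exact le_self_pow₀ (one_le_pow₀ (by norm_num)) (by omega)
    have h4 : (PP r (n0 + n1) : ℝ) ≤ (PP r (n0 + n1) : ℝ) ^ k := by
      apply le_self_pow₀ _ (by omega)
      exact_mod_cast PP_pos r (n0 + n1)
    have h5 : (PP r (n0 + n1) : ℝ) ^ k ≤ (Af k : ℝ) * (PP r (n0 + n1) : ℝ) ^ k :=
      le_mul_of_one_le_left (by positivity) hA1
    have h6 := le_abs_self τ
    linarith
  classical
  let j := Nat.find hex
  have hj : τ < (Af k : ℝ) * (PP r (n0 + j) : ℝ) ^ k := Nat.find_spec hex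
  have hj0 : j ≠ 0 := by
    intro h0
    rw [h0] at hj
    simp only [add_zero] at hj
    linarith
  refine ⟨n0 + (j - 1), by omega, ?_, ?_⟩
  · have := Nat.find_min hex (m := j - 1) (by omega)
    exact not_lt.mp this
  · have e : n0 + (j - 1) + 1 = n0 + j := by omega
    rw [e]; exact hj

/-- one scale: an arbitrary last term finds a sum -/
lemma final_scale (k r B K n b : ℕ) (δ : ℝ) (hk : 2 ≤ k) (hr : b + 1 ≤ r) (hr2 : 2 ≤ r)
    (hB : Af k * 2 ^ (r * k) + 1 ≤ B)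
    (hδ : 0 < δ) (hδ1 : δ ≤ 1) (θ : Fin (k + k) → ℝ)
    (hb : ((Bad k r B K n δ k θ).card : ℝ) ≤ ((2:ℝ) ^ n) ^ b) (ψ : ℝ) (C : ℕ)
    (hψ : |ψ| ≤ 2 ^ n) (hC : (C:ℝ) ≤ 2 ^ n) (h2n : (2:ℝ) ≤ 2 ^ n) (τ : ℝ)
    (hτ1 : (Af k : ℝ) * (PP r n : ℝ) ^ k ≤ τ) (hτ2 : τ < (Af k : ℝ) * (PP r (n + 1) : ℝ) ^ k) :
    ∃ x : Fin (k + k) → ℕ, ∃ y : ℕ, (∀ i, C ≤ x i) ∧ C ≤ y ∧
      |Sg k θ x + ((y:ℝ) + ψ) ^ k - τ| < (k + 3) * δ := by
  set A : ℝ := (Af k : ℝ) with hA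
  have hA1 : 1 ≤ A := one_le_Af k
  have hAe : A = (2 * k + 1) * 2 ^ k + 3 ^ k + 1 := by rw [hA]; unfold Af; push_cast; ring
  have hBr : A * 2 ^ (r * k) + 1 ≤ (B:ℝ) := by
    have : ((Af k * 2 ^ (r * k) + 1 : ℕ) : ℝ) ≤ (B:ℝ) := by exact_mod_cast hB
    push_cast at this
    exact this
  set P : ℝ := (PP r n : ℝ) with hP
  have hP1 : 1 ≤ P := by rw [hP]; exact_mod_cast PP_pos r n
  have hLP : (2:ℝ) ^ n ≤ P := by
    rw [hP, PP_real]
    exact le_self_pow₀ (one_le_pow₀ (by norm_num)) (by omega)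
  have hPk : 1 ≤ P ^ k := one_le_pow₀ hP1
  have hτ2' : τ < A * 2 ^ (r * k) * P ^ k := by
    rw [PP_succ, mul_pow, ← pow_mul] at hτ2
    linarith
  -- the numbers `r_y`
  set m : ℤ := ⌊τ / δ⌋ with hm
  have hm1 : (m:ℝ) * δ ≤ τ := by
    have := Int.floor_le (τ / δ)
    rwa [← hm, le_div_iff₀ hδ] at this
  have hm2 : τ < ((m:ℝ) + 1) * δ := by
    have := Int.lt_floor_add_one (τ / δ)
    rwa [← hm, div_lt_iff₀ hδ] at this
  let ρ : ℕ → ℤ := fun y => ⌊((y:ℝ) + ψ) ^ k / δ⌋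
  have hyψ : ∀ y ∈ Ico (PP r n) (2 * PP r n), 0 ≤ (y:ℝ) + ψ ∧ (y:ℝ) + ψ ≤ 3 * P := by
    intro y hy
    rw [mem_Ico] at hy
    have h1 : P ≤ (y:ℝ) := by rw [hP]; exact_mod_cast hy.1
    have h2 : (y:ℝ) ≤ 2 * P := by rw [hP]; exact_mod_cast hy.2.le
    have h3 := neg_abs_le ψ
    have h4 := le_abs_self ψ
    constructor <;> linarith
  have hρ1 : ∀ y : ℕ, (ρ y : ℝ) * δ ≤ ((y:ℝ) + ψ) ^ k := by
    intro y
    have := Int.floor_le (((y:ℝ) + ψ) ^ k / δ)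
    rwa [le_div_iff₀ hδ] at this
  have hρ2 : ∀ y : ℕ, ((y:ℝ) + ψ) ^ k < ((ρ y : ℝ) + 1) * δ := by
    intro y
    have := Int.lt_floor_add_one (((y:ℝ) + ψ) ^ k / δ)
    rwa [div_lt_iff₀ hδ] at this
  have hmono : ∀ y ∈ Ico (PP r n) (2 * PP r n), ∀ z : ℕ, y < z → ρ y < ρ z := by
    intro y hy z hyz
    apply floor_step _ _ _ hδ
    have h1 : (y:ℝ) + 1 ≤ z := by exact_mod_cast hyz
    have := pow_gapF ((y:ℝ) + ψ) ((z:ℝ) + ψ) k (by omega) (hyψ y hy).1 (by linarith)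
    linarith
  have hinj : Set.InjOn (fun y => m - ρ y) (Ico (PP r n) (2 * PP r n) : Finset ℕ) := by
    intro y hy z hz hyz
    simp only [sub_right_inj] at hyz
    rcases lt_trichotomy y z with h1 | h1 | h1
    · have := hmono y (by simpa using hy) z h1; omega
    · exact h1
    · have := hmono z (by simpa using hz) y h1; omega
  have hVV : ∀ y ∈ Ico (PP r n) (2 * PP r n), m - ρ y ∈ VV k r B n δ k := by
    intro y hy
    rw [mem_VV _ _ _ _ _ _ hδ]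
    have hy1 := hyψ y hy
    have hp : ((y:ℝ) + ψ) ^ k ≤ 3 ^ k * P ^ k := by
      rw [← mul_pow]
      exact pow_le_pow_left₀ hy1.1 hy1.2 k
    have hp0 : 0 ≤ ((y:ℝ) + ψ) ^ k := pow_nonneg hy1.1 k
    have hρ0 : 0 ≤ (ρ y : ℝ) := by
      have : 0 ≤ ρ y := Int.floor_nonneg.mpr (by positivity)
      exact_mod_cast this
    push_cast
    have h1 := hρ1 y
    constructor
    · have h2 : ((m:ℝ) - ρ y) * δ = m * δ - ρ y * δ := by ring
      rw [h2]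
      have h3 : τ - δ < m * δ := by linarith
      have h4 : ((k:ℝ) + k + 1) * 2 ^ k * (PP r n : ℝ) ^ k = A * P ^ k - 3 ^ k * P ^ k - P ^ k := by
        rw [hAe]; ring
      rw [h4]
      linarith
    · have h2 : ((m:ℝ) - ρ y + 1) * δ = m * δ - ρ y * δ + δ := by ring
      rw [h2]
      have h3 : 0 ≤ (ρ y : ℝ) * δ := by positivity
      have h4 : (A * 2 ^ (r * k) + 1) * P ^ k ≤ B * P ^ k :=
        mul_le_mul_of_nonneg_right hBr (by positivity)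
      have h5 : (A * 2 ^ (r * k) + 1) * P ^ k = A * 2 ^ (r * k) * P ^ k + P ^ k := by ring
      linarith
  -- a good `y`
  have hgood : ∃ y ∈ Ico (PP r n) (2 * PP r n), m - ρ y ∉ Bad k r B K n δ k θ := by
    by_contra hcon
    push Not at hcon
    have h1 : (Ico (PP r n) (2 * PP r n)).card ≤ (Bad k r B K n δ k θ).card :=
      card_le_card_of_injOn (fun y => m - ρ y) (fun y hy => hcon y (by simpa using hy)) hinj
    rw [Nat.card_Ico] at h1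
    have h2 : PP r n ≤ (Bad k r B K n δ k θ).card := by omega
    have h3 : P ≤ ((2:ℝ) ^ n) ^ b := by
      refine le_trans ?_ hb
      rw [hP]; exact_mod_cast h2
    have h4 : ((2:ℝ) ^ n) ^ b < P := by
      rw [hP, PP_real]
      exact pow_lt_pow_right₀ (by linarith) (by omega)
    linarith
  obtain ⟨y, hy, hyB⟩ := hgood
  unfold Bad at hyB
  rw [mem_filter, not_and] at hyB
  have h1 := hyB (hVV y hy)
  push Not at h1
  obtain ⟨x, hx, hxlt⟩ := h1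
  refine ⟨x, y, fun i => ?_, ?_, ?_⟩
  · have h2 := II_ge r K n (k + k) x hx i
    have h3 : C ≤ QQ r n := by
      have h4 : (C:ℝ) ≤ QQ r n := by
        rw [QQ_real]
        exact le_trans hC (le_self_pow₀ (one_le_pow₀ (by norm_num)) (by omega))
      exact_mod_cast h4
    omega
  · rw [mem_Ico] at hy
    have h4 : (C:ℝ) ≤ PP r n := le_trans hC hLP
    have h5 : C ≤ PP r n := by exact_mod_cast h4
    omega
  · have h2 := hρ1 y
    have h3 := hρ2 y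
    rw [abs_lt] at hxlt ⊢
    push_cast at hxlt
    obtain ⟨ha, hb'⟩ := hxlt
    constructor <;> nlinarith

/-- the tolerance `D / 2^n` is at most `τ^(-c)` in the scale `n` -/
lemma tol (A D : ℝ) (m : ℕ) (hA : 0 ≤ A) (hD : 0 < D) : ∀ᶠ n : ℕ in atTop, ∀ τ : ℝ, 0 < τ →
    τ ≤ A * ((2:ℝ) ^ n) ^ m → D * (1 / 2 ^ n) ≤ τ ^ (-(1 / ((m:ℝ) + 1))) := by
  filter_upwards [growth' (A * D ^ (m + 1))] with n hn τ hτ0 hτ
  have h2n : (0:ℝ) < 2 ^ n := by positivity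
  have h1 : τ ≤ ((2:ℝ) ^ n / D) ^ (m + 1) := by
    rw [div_pow, le_div_iff₀ (by positivity)]
    calc τ * D ^ (m + 1) ≤ (A * ((2:ℝ) ^ n) ^ m) * D ^ (m + 1) :=
          mul_le_mul_of_nonneg_right hτ (by positivity)
      _ = (A * D ^ (m + 1)) * ((2:ℝ) ^ n) ^ m := by ring
      _ ≤ 2 ^ n * ((2:ℝ) ^ n) ^ m := mul_le_mul_of_nonneg_right hn (by positivity)
      _ = ((2:ℝ) ^ n) ^ (m + 1) := by ring
  have h2 : τ ^ (1 / ((m:ℝ) + 1)) ≤ (2:ℝ) ^ n / D := by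
    calc τ ^ (1 / ((m:ℝ) + 1)) ≤ (((2:ℝ) ^ n / D) ^ (m + 1)) ^ (1 / ((m:ℝ) + 1)) :=
          Real.rpow_le_rpow hτ0.le h1 (by positivity)
      _ = (2:ℝ) ^ n / D := by
          rw [← Real.rpow_natCast, ← Real.rpow_mul (by positivity)]
          have : ((m + 1 : ℕ) : ℝ) * (1 / ((m:ℝ) + 1)) = 1 := by
            push_cast
            field_simp
          rw [this, Real.rpow_one]
  rw [Real.rpow_neg hτ0.le]
  have h3 : 0 < τ ^ (1 / ((m:ℝ) + 1)) := Real.rpow_pos_of_pos hτ0 _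
  have h4 : D * (1 / 2 ^ n) = ((2:ℝ) ^ n / D)⁻¹ := by
    rw [inv_div]; ring
  rw [h4]
  exact inv_anti₀ h3 h2

/-- the sequence of tolerances `2^(-n)` -/
lemma adm_two : Adm (fun n => 1 / 2 ^ n) := by
  refine ⟨fun n => ⟨by positivity, ?_⟩, Filter.Eventually.of_forall fun n => ?_⟩
  · rw [div_le_one (by positivity)]
    exact one_le_pow₀ (by norm_num)
  · rw [one_div_mul_cancel (by positivity)]

end Pool.Agent.Helper91K1.WS
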