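import Pool.Agent.Helper91K1.WS.Stm2

/-!
# The greedy lower bound for `m + 2` variables (TaskAG), by helper59
-/

set_option autoImplicit false

namespace Pool.Agent.Helper91K1.WS

open Finset MeasureTheory Filter

namespace AG

lemma II_succ (r K n s : ℕ) :
    II r K n (s + 1) = (II r K n s ×ˢ XX r K n s).map (snocEmb s) := rfl

lemma snoc_app (s : ℕ) (p : (Fin s → ℕ) × ℕ) :
    snocEmb s p = Fin.snoc (α := fun _ => ℕ) p.1 p.2 := rfl

lemma mem_II (r K n : ℕ) : ∀ (s : ℕ) (x : Fin s → ℕ),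
    x ∈ II r K n s ↔ ∀ i : Fin s, x i ∈ XX r K n i := by
  intro s
  induction s with
  | zero =>
    intro x
    have : x = Fin.elim0 := Subsingleton.elim _ _
    simp [II, this]
  | succ s ih =>
    intro x
    have h1 : x ∈ II r K n (s + 1) ↔ Fin.init (α := fun _ => ℕ) x ∈ II r K n s ∧
        x (Fin.last s) ∈ XX r K n s := by
      rw [II_succ, Finset.mem_map]
      constructor
      · rintro ⟨p, hp, rfl⟩
        rw [mem_product] at hp
        rw [snoc_app, Fin.init_snoc, Fin.snoc_last]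
        exact hp
      · rintro ⟨h1, h2⟩
        refine ⟨(Fin.init (α := fun _ => ℕ) x, x (Fin.last s)), mem_product.2 ⟨h1, h2⟩, ?_⟩
        rw [snoc_app]
        exact Fin.snoc_init_self x
    rw [h1, ih]
    constructor
    · rintro ⟨h2, h3⟩ i
      refine Fin.lastCases ?_ (fun j => ?_) i
      · exact h3
      · exact h2 j
    · intro h
      exact ⟨fun i => h i.castSucc, h (Fin.last s)⟩

lemma card_step (r K n s k : ℕ) (θ : Fin s → ℝ) (t u h : ℝ) :
    (((II r K n (s + 1)).filter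
      (fun x => Sg k (Fin.snoc (α := fun _ => ℝ) θ t) x ∈ Set.Ico u (u + h))).card : ℝ) =
    ∑ y ∈ XX r K n s, (((II r K n s).filter
      (fun x => Sg k θ x ∈ Set.Ico (u - ((y : ℝ) + t) ^ k) (u - ((y : ℝ) + t) ^ k + h))).card : ℝ) := by
  simp only [card_filter_eq]
  show ∑ i ∈ (II r K n s ×ˢ XX r K n s).map (snocEmb s), _ = _
  rw [sum_map, sum_product_right]
  refine sum_congr rfl fun y _ => sum_congr rfl fun x _ => ?_
  rw [Sg_snoc]
  have : (Sg k θ x + ((y : ℝ) + t) ^ k ∈ Set.Ico u (u + h)) ↔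
      (Sg k θ x ∈ Set.Ico (u - ((y : ℝ) + t) ^ k) (u - ((y : ℝ) + t) ^ k + h)) := by
    simp only [Set.mem_Ico]
    constructor
    · rintro ⟨h1, h2⟩; constructor <;> linarith
    · rintro ⟨h1, h2⟩; constructor <;> linarith
  simp only [this]

lemma pow_sub_ge (a b : ℝ) (k : ℕ) (hk : 1 ≤ k) (hb : 0 ≤ b) (hab : b ≤ a) :
    a ^ (k - 1) * (a - b) ≤ a ^ k - b ^ k := by
  obtain ⟨j, rfl⟩ : ∃ j, k = j + 1 := ⟨k - 1, by omega⟩
  have h1 : b ^ j ≤ a ^ j := pow_le_pow_left₀ hb hab j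
  have h2 : j + 1 - 1 = j := by omega
  rw [h2, pow_succ, pow_succ]
  nlinarith

lemma expo (L : ℝ) (k r : ℕ) (hk : 2 ≤ k) (hr : k + 1 ≤ r) :
    L * (L ^ (r - k - 1) * (L ^ r) ^ (k - 1)) = (L ^ (r - 1)) ^ k := by
  rw [← pow_mul, ← pow_mul, ← pow_add, mul_comm, ← pow_succ]
  congr 1
  obtain ⟨a, rfl⟩ : ∃ a, r = k + 1 + a := ⟨r - (k + 1), by omega⟩
  obtain ⟨j, rfl⟩ : ∃ j, k = j + 1 := ⟨k - 1, by omega⟩
  have e1 : j + 1 + 1 + a - (j + 1) - 1 = a := by omega
  have e2 : j + 1 - 1 = j := by omega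
  have e3 : j + 1 + 1 + a - 1 = j + 1 + a := by omega
  rw [e1, e2, e3]
  ring

end AG

open AG in
theorem taskAG (hG : TaskG) : TaskAG := by
  intro k r B n hk hr hB hL hQ3 m
  have hP1 : (1 : ℝ) ≤ PP r n := by exact_mod_cast PP_pos r n
  have hQP : (QQ r n : ℝ) ≤ PP r n := by exact_mod_cast QQ_le r n
  have hQ3' : (3 : ℝ) ≤ QQ r n := by exact_mod_cast hQ3
  have hB1 : (1 : ℝ) ≤ B := by exact_mod_cast hB
  have hPk : (0 : ℝ) ≤ 2 ^ k * (PP r n : ℝ) ^ k := by positivity
  induction m with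
  | zero =>
    intro θ hθ u h hu hu' hh
    have key := hG k (PP r n) (QQ r n) (B + 1) ((2 ^ n) ^ (r - k - 1)) (θ 0) (θ 1) u h hk
      (QQ_pos r n) (QQ_le r n) (by omega) ⟨(hθ 0).1, (hθ 0).2.le⟩ ⟨(hθ 1).1, (hθ 1).2.le⟩
      (by
        have h1 : ((PP r n : ℝ) + 1) ^ k ≤ (2 * PP r n) ^ k :=
          pow_le_pow_left₀ (by positivity) (by linarith) k
        have h2 : (2 * (QQ r n : ℝ)) ^ k ≤ (2 * PP r n) ^ k :=
          pow_le_pow_left₀ (by positivity) (by linarith) k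
        rw [mul_pow] at h1
        rw [mul_pow (2 : ℝ) (PP r n : ℝ)] at h2
        push_cast at hu
        linarith)
      (by
        have h1 : (B : ℝ) * PP r n ≤ ((B + 1 : ℕ) : ℝ) * PP r n - 1 := by
          push_cast; linarith
        have h2 : ((B : ℝ) * PP r n) ^ k ≤ (((B + 1 : ℕ) : ℝ) * PP r n - 1) ^ k :=
          pow_le_pow_left₀ (by positivity) h1 k
        have h3 : (B : ℝ) ≤ (B : ℝ) ^ k := le_self_pow₀ hB1 (by omega)
        rw [mul_pow] at h2
        have h4 : (B : ℝ) * (PP r n : ℝ) ^ k ≤ (B : ℝ) ^ k * (PP r n : ℝ) ^ k :=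
          mul_le_mul_of_nonneg_right h3 (by positivity)
        linarith)
      (by
        have h1 := pow_sub_ge (2 * (QQ r n : ℝ) - 1) ((QQ r n : ℝ) + 1) k (by omega)
          (by positivity) (by linarith)
        refine le_trans ?_ h1
        have h2 : (QQ r n : ℝ) ^ (k - 1) ≤ (2 * (QQ r n : ℝ) - 1) ^ (k - 1) :=
          pow_le_pow_left₀ (by positivity) (by linarith) _
        have h3 : (QQ r n : ℝ) / 3 ≤ 2 * (QQ r n : ℝ) - 1 - ((QQ r n : ℝ) + 1) := by linarith
        have h4 : (QQ r n : ℝ) ^ (k - 1) * ((QQ r n : ℝ) / 3) ≤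
            (2 * (QQ r n : ℝ) - 1) ^ (k - 1) * (2 * (QQ r n : ℝ) - 1 - ((QQ r n : ℝ) + 1)) :=
          mul_le_mul h2 h3 (by positivity) (by
            apply pow_nonneg; linarith)
        refine le_trans ?_ h4
        have h5 : (QQ r n : ℝ) ^ (k - 1) * ((QQ r n : ℝ) / 3) = (QQ r n : ℝ) ^ k / 3 := by
          obtain ⟨j, rfl⟩ : ∃ j, k = j + 1 := ⟨k - 1, by omega⟩
          have h2 : j + 1 - 1 = j := by omega
          rw [h2, pow_succ]; ring
        have h6 := expo ((2 : ℝ) ^ n) k r hk hr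
        have hL' : 3 * (k : ℝ) * ((B : ℝ) + 1) ^ (k - 1) ≤ (2 : ℝ) ^ n := by exact_mod_cast hL
        rw [h5, QQ_real, ← h6, PP_real]
        push_cast
        rw [mul_pow]
        have h7 : (0 : ℝ) ≤ ((2 : ℝ) ^ n) ^ (r - k - 1) * (((2 : ℝ) ^ n) ^ r) ^ (k - 1) := by
          positivity
        nlinarith [mul_le_mul_of_nonneg_right hL' h7])
      hh
    push_cast at key
    rw [pow_zero, one_mul]
    refine key.trans ?_
    rw [Nat.cast_le]
    apply card_le_card_of_injOn (fun x : ℕ × ℕ => (![x.1, x.2] : Fin 2 → ℕ))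
    · intro x hx
      rw [mem_coe, mem_filter, mem_product] at hx
      obtain ⟨⟨h1, h2⟩, h3⟩ := hx
      rw [mem_coe, mem_filter]
      constructor
      · rw [mem_II]
        intro i
        fin_cases i
        · exact h1
        · show x.2 ∈ Ico (QQ r n) (QQ r n + QQ r n)
          rw [← two_mul]; exact h2
      · unfold Sg
        rw [Fin.sum_univ_two]
        exact h3
    · intro x _ y _ hxy
      have e1 := congrFun hxy 0
      have e2 := congrFun hxy 1
      exact Prod.ext e1 e2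
  | succ m ih =>
    intro θ hθ u h hu hu' hh
    have hsnoc : θ = Fin.snoc (α := fun _ => ℝ) (Fin.init (α := fun _ => ℝ) θ)
        (θ (Fin.last (m + 2))) := (Fin.snoc_init_self θ).symm
    rw [hsnoc]
    set t : ℝ := θ (Fin.last (m + 2)) with ht
    set θ' : Fin (m + 2) → ℝ := Fin.init (α := fun _ => ℝ) θ with hθ'
    have ht0 := hθ (Fin.last (m + 2))
    rw [← ht] at ht0
    have hstep := card_step r (B + 1) n (m + 2) k θ' t u h
    show _ ≤ (((II r (B + 1) n (m + 2 + 1)).filter _).card : ℝ)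
    rw [hstep]
    have hy : ∀ y ∈ XX r (B + 1) n (m + 2), (PP r n : ℝ) ^ m * ((2:ℝ) ^ n) ^ (r - k - 1) ≤
        (((II r (B + 1) n (m + 2)).filter
      (fun x => Sg k θ' x ∈ Set.Ico (u - ((y : ℝ) + t) ^ k) (u - ((y : ℝ) + t) ^ k + h))).card : ℝ) := by
      intro y hy
      have hy' : y ∈ Ico (PP r n) (PP r n + PP r n) := hy
      rw [mem_Ico] at hy'
      have hy2 : (y : ℝ) + 1 ≤ PP r n + PP r n := by exact_mod_cast hy'.2
      have hyt : ((y : ℝ) + t) ^ k ≤ 2 ^ k * (PP r n : ℝ) ^ k := by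
        rw [← mul_pow]
        exact pow_le_pow_left₀ (by have := ht0.1; positivity) (by linarith [ht0.2]) k
      have hyt0 : 0 ≤ ((y : ℝ) + t) ^ k := by have := ht0.1; positivity
      refine ih θ' (fun i => hθ i.castSucc) _ h ?_ ?_ hh
      · push_cast at hu
        nlinarith
      · linarith
    calc (PP r n : ℝ) ^ (m + 1) * ((2:ℝ) ^ n) ^ (r - k - 1)
        = ∑ y ∈ XX r (B + 1) n (m + 2), (PP r n : ℝ) ^ m * ((2:ℝ) ^ n) ^ (r - k - 1) := by
          rw [sum_const, nsmul_eq_mul]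
          have : (XX r (B + 1) n (m + 2)).card = PP r n := by
            show (Ico (PP r n) (PP r n + PP r n)).card = _
            rw [Nat.card_Ico]; omega
          rw [this]
          ring
      _ ≤ _ := sum_le_sum hy

end Pool.Agent.Helper91K1.WS
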