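import Pool.Agent.Helper91K1.WS.Stm2

/-!
# Stage (AR): from `k + c` to `k + c + 1` variables
-/

set_option autoImplicit false

namespace Pool.Agent.Helper91K1.WS.AR

open Finset MeasureTheory Filter

lemma meas_Bad (k r B K n : ℕ) (δ : ℝ) (c : ℕ) :
    Measurable (fun θ : Fin (k + c) → ℝ => ((Bad k r B K n δ c θ).card : ℝ)) := by
  classical
  unfold Bad
  apply meas_card (q := fun (m : ℤ) (θ : Fin (k + c) → ℝ) =>
    ∀ x ∈ II r K n (k + c), ((c:ℝ) + 1) * δ ≤ |Sg k θ x - m * δ|)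
  intro m _
  have : {θ : Fin (k + c) → ℝ | ∀ x ∈ II r K n (k + c), ((c:ℝ) + 1) * δ ≤ |Sg k θ x - m * δ|} =
      ⋂ x ∈ II r K n (k + c), {θ : Fin (k + c) → ℝ | ((c:ℝ) + 1) * δ ≤ |Sg k θ x - m * δ|} := by
    ext θ; simp
  rw [this]
  exact Finset.measurableSet_biInter _ fun x _ =>
    (isClosed_le continuous_const ((cont_Sg k _ x).sub continuous_const).abs).measurableSet

lemma meas_pB (k r B K : ℕ) (δ : ℝ) (c : ℕ) :
    MeasurableSet {θ : Fin (k + c) → ℝ | pB k r B K δ c θ} := by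
  unfold pB
  exact meas_eventually _ fun n => measurableSet_le (meas_Bad k r B K n δ c) measurable_const

/-- the exceptional integers for which all the shifted integers were exceptional before -/
noncomputable def YY (Bn Vn : Finset ℤ) (k P : ℕ) (δ t : ℝ) : ℝ :=
  ((Vn.filter (fun m : ℤ => ∀ x ∈ Ico P (P + P), m - ⌊((x:ℝ) + t) ^ k / δ⌋ ∈ Bn)).card : ℝ)

lemma meas_YY (Bn Vn : Finset ℤ) (k P : ℕ) (δ : ℝ) :
    Measurable (fun t : ℝ => YY Bn Vn k P δ t) := by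
  classical
  unfold YY
  apply meas_card (q := fun (m : ℤ) (t : ℝ) =>
    ∀ x ∈ Ico P (P + P), m - ⌊((x:ℝ) + t) ^ k / δ⌋ ∈ Bn)
  intro m _
  have : {t : ℝ | ∀ x ∈ Ico P (P + P), m - ⌊((x:ℝ) + t) ^ k / δ⌋ ∈ Bn} =
      ⋂ x ∈ Ico P (P + P), {t : ℝ | m - ⌊((x:ℝ) + t) ^ k / δ⌋ ∈ Bn} := by
    ext θ
    simp only [Set.mem_setOf_eq, Set.mem_iInter]
  rw [this]
  refine Finset.measurableSet_biInter _ fun x _ => ?_
  have h1 : Measurable (fun t : ℝ => ((x:ℝ) + t) ^ k / δ) := by fun_prop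
  have h2 : Measurable (fun t : ℝ => m - ⌊((x:ℝ) + t) ^ k / δ⌋) :=
    (Measurable.of_discrete (f := fun j : ℤ => m - j)).comp (Int.measurable_floor.comp h1)
  exact h2 (Finset.measurableSet Bn)

lemma YY_nonneg (Bn Vn : Finset ℤ) (k P : ℕ) (δ t : ℝ) : 0 ≤ YY Bn Vn k P δ t := by
  unfold YY; positivity

lemma YY_le (Bn Vn : Finset ℤ) (k P : ℕ) (δ t : ℝ) : YY Bn Vn k P δ t ≤ Vn.card := by
  unfold YY
  exact_mod_cast card_filter_le _ _

lemma XX_ge (r K n s : ℕ) (hs : 2 ≤ s) : XX r K n s = Ico (PP r n) (PP r n + PP r n) := by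
  obtain ⟨s', rfl⟩ : ∃ s', s = s' + 2 := ⟨s - 2, by omega⟩
  rfl

/-- one more variable -/
lemma Bad_le (k r B K n : ℕ) (δ : ℝ) (c : ℕ) (θ : Fin (k + c) → ℝ) (t : ℝ) (hk : 2 ≤ k)
    (hδ : 0 < δ) (ht : t ∈ Set.Ico (0:ℝ) 1) :
    ((Bad k r B K n δ (c + 1) (Fin.snoc (α := fun _ => ℝ) θ t)).card : ℝ) ≤
      YY (Bad k r B K n δ c θ) (VV k r B n δ (c + 1)) k (PP r n) δ t := by
  unfold YY
  norm_cast
  apply card_le_card
  intro m hm
  unfold Bad at hm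
  rw [mem_filter] at hm ⊢
  obtain ⟨hV, hm⟩ := hm
  refine ⟨hV, ?_⟩
  intro x hx
  obtain ⟨ht0, ht1⟩ := ht
  rw [mem_Ico] at hx
  have hx1 : ((x:ℝ) + 1) ≤ 2 * (PP r n : ℝ) := by
    have : x + 1 ≤ 2 * PP r n := by omega
    exact_mod_cast this
  have hxt0 : (0:ℝ) ≤ (x:ℝ) + t := by positivity
  have hpow0 : (0:ℝ) ≤ ((x:ℝ) + t) ^ k := by positivity
  have hpow : ((x:ℝ) + t) ^ k ≤ 2 ^ k * (PP r n : ℝ) ^ k := by
    rw [← mul_pow]
    exact pow_le_pow_left₀ hxt0 (by linarith) k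
  set f : ℤ := ⌊((x:ℝ) + t) ^ k / δ⌋ with hf
  have hf0 : (0:ℝ) ≤ f := by
    have : (0:ℤ) ≤ f := Int.floor_nonneg.2 (by positivity)
    exact_mod_cast this
  have hf1 : (f:ℝ) * δ ≤ ((x:ℝ) + t) ^ k := by
    have := Int.floor_le (((x:ℝ) + t) ^ k / δ)
    rwa [le_div_iff₀ hδ] at this
  have hf2 : ((x:ℝ) + t) ^ k < ((f:ℝ) + 1) * δ := by
    have := Int.lt_floor_add_one (((x:ℝ) + t) ^ k / δ)
    rwa [div_lt_iff₀ hδ] at this
  unfold Bad
  rw [mem_filter]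
  constructor
  · rw [mem_VV _ _ _ _ _ _ hδ] at hV ⊢
    obtain ⟨h1, h2⟩ := hV
    push_cast at h1 h2 ⊢
    constructor
    · nlinarith
    · nlinarith
  · intro z hz
    have hz1 : snocEmb (k + c) (z, x) ∈ II r K n (k + (c + 1)) := by
      show snocEmb (k + c) (z, x) ∈ (II r K n (k + c) ×ˢ XX r K n (k + c)).map (snocEmb (k + c))
      apply mem_map_of_mem
      rw [mem_product]
      refine ⟨hz, ?_⟩
      rw [XX_ge r K n (k + c) (by omega), mem_Ico]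
      exact hx
    have h3 := hm _ hz1
    have h4 : Sg k (Fin.snoc (α := fun _ => ℝ) θ t) (snocEmb (k + c) (z, x)) =
      Sg k θ z + ((x:ℝ) + t) ^ k := Sg_snoc k θ t (z, x)
    have h5 : (((c + 1 : ℕ):ℝ) + 1) * δ ≤ |Sg k θ z + ((x:ℝ) + t) ^ k - m * δ| := by
      rw [← h4]; exact h3
    push_cast at h5 ⊢
    have h6 : Sg k θ z + ((x:ℝ) + t) ^ k - m * δ =
      (Sg k θ z - (m - f) * δ) + (((x:ℝ) + t) ^ k - f * δ) := by ring
    rw [h6] at h5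
    have h7 := abs_add_le (Sg k θ z - (m - f) * δ) (((x:ℝ) + t) ^ k - f * δ)
    have h8 : |((x:ℝ) + t) ^ k - f * δ| ≤ δ := by
      rw [abs_le]; constructor <;> nlinarith
    linarith

lemma bound (k c b : ℕ) (P L δ I N : ℝ) (lg : ℝ) (hk : c + 1 ≤ k) (hk2 : 2 ≤ k) (hc : 1 ≤ c)
    (hP : 1 ≤ P) (hL : 2 ≤ L) (hδ0 : 0 < δ) (hδ : δ ≤ 1) (hlg : 2 * (1 + lg) ≤ L) (hlg0 : 0 ≤ lg)
    (hN0 : 0 ≤ N) (hN : N ≤ P ^ (k - c) * L ^ b)
    (h : P ^ 2 * I ≤ P * N + 2 * δ * (1 + lg) / P ^ (k - 2) * N ^ 2) :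
    I ≤ P ^ (k - (c + 1)) * L ^ (2 * b + 2) := by
  have hP0 : 0 < P := by linarith
  have hL0 : 0 < L := by linarith
  obtain ⟨D, hD⟩ : ∃ D, k - (c + 1) = D := ⟨_, rfl⟩
  have hkc : k - c = D + 1 := by omega
  rw [hD]
  rw [hkc] at hN
  have h1 : P * N ≤ P ^ 2 * (P ^ D * L ^ b) := by
    calc P * N ≤ P * (P ^ (D + 1) * L ^ b) := mul_le_mul_of_nonneg_left hN hP0.le
      _ = P ^ 2 * (P ^ D * L ^ b) := by ring
  have h2 : 2 * δ * (1 + lg) ≤ L := by nlinarith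
  have h3 : N ^ 2 ≤ P ^ (2 * D + 2) * L ^ (2 * b) := by
    calc N ^ 2 ≤ (P ^ (D + 1) * L ^ b) ^ 2 := pow_le_pow_left₀ hN0 hN 2
      _ = P ^ (2 * D + 2) * L ^ (2 * b) := by ring
  have h4 : P ^ (2 * D + 2) ≤ P ^ (k - 2) * (P ^ 2 * P ^ D) := by
    rw [← pow_add, ← pow_add]
    exact pow_le_pow_right₀ hP (by omega)
  have h5 : 2 * δ * (1 + lg) / P ^ (k - 2) * N ^ 2 ≤ P ^ 2 * (P ^ D * L ^ (2 * b + 1)) := by
    rw [div_mul_eq_mul_div, div_le_iff₀ (by positivity)]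
    calc 2 * δ * (1 + lg) * N ^ 2 ≤ L * (P ^ (2 * D + 2) * L ^ (2 * b)) := by
          apply mul_le_mul h2 h3 (by positivity) hL0.le
      _ ≤ L * ((P ^ (k - 2) * (P ^ 2 * P ^ D)) * L ^ (2 * b)) := by
          apply mul_le_mul_of_nonneg_left _ hL0.le
          exact mul_le_mul_of_nonneg_right h4 (by positivity)
      _ = P ^ 2 * (P ^ D * L ^ (2 * b + 1)) * P ^ (k - 2) := by ring
  have h6 : L ^ b ≤ L ^ (2 * b + 1) := pow_le_pow_right₀ (by linarith) (by omega)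
  have h7 : L ^ b + L ^ (2 * b + 1) ≤ L ^ (2 * b + 2) := by
    have : L ^ (2 * b + 2) = L * L ^ (2 * b + 1) := by ring
    rw [this]
    nlinarith [pow_pos hL0 (2 * b + 1)]
  have h8 : P ^ 2 * I ≤ P ^ 2 * (P ^ D * L ^ (2 * b + 2)) := by
    calc P ^ 2 * I ≤ P ^ 2 * (P ^ D * L ^ b) + P ^ 2 * (P ^ D * L ^ (2 * b + 1)) := by linarith
      _ = P ^ 2 * (P ^ D * (L ^ b + L ^ (2 * b + 1))) := by ring
      _ ≤ P ^ 2 * (P ^ D * L ^ (2 * b + 2)) := by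
        apply mul_le_mul_of_nonneg_left _ (by positivity)
        exact mul_le_mul_of_nonneg_left h7 (by positivity)
  exact le_of_mul_le_mul_left h8 (by positivity)

lemma bb_succ (k c : ℕ) (hc : 1 ≤ c) : bb k (c + 1) = 2 * bb k c + 3 := by
  obtain ⟨d, rfl⟩ : ∃ d, c = d + 1 := ⟨c - 1, by omega⟩
  rfl

end Pool.Agent.Helper91K1.WS.AR

namespace Pool.Agent.Helper91K1.WS

open Finset MeasureTheory Filter AR

/-- (AR) -/
theorem taskAR (hR : TaskR) (hB : TaskB) (hF : TaskF) : TaskAR := by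
  intro k r B K δ c hk hr hδ0 hδ1 hc hck hp
  refine hF (k + c) (pB k r B K δ c) (pB k r B K δ (c + 1)) (meas_pB k r B K δ c)
    (meas_pB k r B K δ (c + 1)) hp ?_
  intro θ _ hθ
  have hY := hB (fun n t => YY (Bad k r B K n δ c θ) (VV k r B n δ (c + 1)) k (PP r n) δ t)
    (fun n => (PP r n : ℝ) ^ (k - (c + 1)) * ((2:ℝ) ^ n) ^ (2 * bb k c + 2))
    (fun n => meas_YY _ _ _ _ _) (fun n t => YY_nonneg _ _ _ _ _ _)
    (fun n => integrable_of_bdd _ (meas_YY _ _ _ _ _) _ (fun t => YY_nonneg _ _ _ _ _ _)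
      (fun t => YY_le _ _ _ _ _ _)) ?_
  · filter_upwards [hY, ae_restrict_mem measurableSet_Ico] with t h1 h2
    unfold pB
    filter_upwards [h1] with n hn
    refine (Bad_le k r B K n δ c θ t hk hδ0 h2).trans (hn.trans ?_)
    rw [bb_succ k c hc]
    apply le_of_eq
    ring
  · filter_upwards [hθ, growth 2 r, growth' 2] with n h1 h2 h3
    have hP : (1:ℝ) ≤ (PP r n : ℝ) := by exact_mod_cast PP_pos r n
    refine ⟨by positivity, ?_⟩
    have h4 := hR (Bad k r B K n δ c θ) (VV k r B n δ (c + 1)) k (PP r n) (PP r n) δ hk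
      (PP_pos r n) (PP_pos r n) hδ0
    exact bound k c (bb k c) (PP r n) ((2:ℝ) ^ n) δ _ _ (Real.log (PP r n)) hck hk hc hP h3 hδ0 hδ1
      h2 (Real.log_nonneg hP) (by positivity) h1 h4

end Pool.Agent.Helper91K1.WS
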