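import Pool.Agent.Helper91K1.WS.Stm2

/-!
# Waring's problem with shifts for almost all shifts: the stages with tolerances `δ n → 0`

The same stages as in `Stm2`, with a tolerance `δ n ≥ 2^(-n)` which may depend on the scale.
-/

set_option autoImplicit false

namespace Pool.Agent.Helper91K1.WS

open Finset MeasureTheory Filter

/-- admissible tolerances -/
def Adm (δ : ℕ → ℝ) : Prop := (∀ n, 0 < δ n ∧ δ n ≤ 1) ∧ ∀ᶠ n : ℕ in atTop, 1 ≤ δ n * 2 ^ n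

/-- the exponents: `b2 k 1 = 2k + 14`, `b2 k (c + 1) = 2 b2 k c + 3` -/
def b2 (k : ℕ) : ℕ → ℕ
  | 0 => 0
  | 1 => 2 * k + 14
  | c + 2 => 2 * b2 k (c + 1) + 3

/-- small energy at all large scales -/
def pE2 (k r K : ℕ) (δ : ℕ → ℝ) (s : ℕ) (θ : Fin s → ℝ) : Prop :=
  ∀ᶠ n in atTop, En (II r K n s) (Sg k θ) (δ n) ≤ (PP r n : ℝ) ^ s * ((2:ℝ) ^ n) ^ (2 * s)

/-- few exceptional integers at all large scales -/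
def pB2 (k r B K : ℕ) (δ : ℕ → ℝ) (c : ℕ) (θ : Fin (k + c) → ℝ) : Prop :=
  ∀ᶠ n in atTop, ((Bad k r B K n (δ n) c θ).card : ℝ) ≤
    (PP r n : ℝ) ^ (k - c) * ((2:ℝ) ^ n) ^ (b2 k c)

/-- (AE) the energy, `1 ≤ s ≤ k` -/
def TaskAE2 : Prop := ∀ (k r K : ℕ) (δ : ℕ → ℝ), 2 ≤ k → 1 ≤ r → 1 ≤ K → Adm δ →
  ∀ s : ℕ, 1 ≤ s → s ≤ k →
    ∀ᵐ θ : Fin s → ℝ, (∀ i, θ i ∈ Set.Ico (0:ℝ) 1) → pE2 k r K δ s θ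

/-- (AV) the decisive stage, from `k` to `k + 1` variables -/
def TaskAV2 : Prop := ∀ (k r B : ℕ) (δ : ℕ → ℝ), 2 ≤ k → k + 1 ≤ r → (k + 2) * 2 ^ k ≤ B → Adm δ →
  (∀ᵐ θ : Fin k → ℝ, (∀ i, θ i ∈ Set.Ico (0:ℝ) 1) → pE2 k r (B + 1) δ k θ) →
  ∀ᵐ θ : Fin (k + 1) → ℝ, (∀ i, θ i ∈ Set.Ico (0:ℝ) 1) → pB2 k r B (B + 1) δ 1 θ

/-- (AR) from `k + c` to `k + c + 1` variables -/
def TaskAR2 : Prop := ∀ (k r B K : ℕ) (δ : ℕ → ℝ) (c : ℕ), 2 ≤ k → 1 ≤ r → Adm δ →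
  1 ≤ c → c + 1 ≤ k →
  (∀ᵐ θ : Fin (k + c) → ℝ, (∀ i, θ i ∈ Set.Ico (0:ℝ) 1) → pB2 k r B K δ c θ) →
  ∀ᵐ θ : Fin (k + (c + 1)) → ℝ, (∀ i, θ i ∈ Set.Ico (0:ℝ) 1) → pB2 k r B K δ (c + 1) θ

end Pool.Agent.Helper91K1.WS
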