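import Pool.Agent.Helper91K1.WS.AR
import Pool.Agent.Helper91K1.WS.Stm3

/-!
# Stage (AR2): from `k + c` to `k + c + 1` variables, tolerances `δ n`
-/

set_option autoImplicit false

namespace Pool.Agent.Helper91K1.WS.AR2

open Finset MeasureTheory Filter

lemma meas_pB2 (k r B K : ℕ) (δ : ℕ → ℝ) (c : ℕ) :
    MeasurableSet {θ : Fin (k + c) → ℝ | pB2 k r B K δ c θ} := by
  unfold pB2
  exact meas_eventually _ fun n => measurableSet_le (AR.meas_Bad k r B K n (δ n) c) measurable_const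

lemma b2_succ (k c : ℕ) (hc : 1 ≤ c) : b2 k (c + 1) = 2 * b2 k c + 3 := by
  obtain ⟨d, rfl⟩ : ∃ d, c = d + 1 := ⟨c - 1, by omega⟩
  rfl

end Pool.Agent.Helper91K1.WS.AR2

namespace Pool.Agent.Helper91K1.WS

open Finset MeasureTheory Filter AR AR2

/-- (AR2) -/
theorem taskAR2 (hR : TaskR) (hB : TaskB) (hF : TaskF) : TaskAR2 := by
  intro k r B K δ c hk hr hδ hc hck hp
  obtain ⟨hδ, -⟩ := hδ
  refine hF (k + c) (pB2 k r B K δ c) (pB2 k r B K δ (c + 1)) (meas_pB2 k r B K δ c)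
    (meas_pB2 k r B K δ (c + 1)) hp ?_
  intro θ _ hθ
  have hY := hB (fun n t => YY (Bad k r B K n (δ n) c θ) (VV k r B n (δ n) (c + 1)) k (PP r n)
      (δ n) t)
    (fun n => (PP r n : ℝ) ^ (k - (c + 1)) * ((2:ℝ) ^ n) ^ (2 * b2 k c + 2))
    (fun n => meas_YY _ _ _ _ _) (fun n t => YY_nonneg _ _ _ _ _ _)
    (fun n => integrable_of_bdd _ (meas_YY _ _ _ _ _) _ (fun t => YY_nonneg _ _ _ _ _ _)
      (fun t => YY_le _ _ _ _ _ _)) ?_
  · filter_upwards [hY, ae_restrict_mem measurableSet_Ico] with t h1 h2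
    unfold pB2
    filter_upwards [h1] with n hn
    refine (Bad_le k r B K n (δ n) c θ t hk (hδ n).1 h2).trans (hn.trans ?_)
    rw [b2_succ k c hc]
    apply le_of_eq
    ring
  · filter_upwards [hθ, growth 2 r, growth' 2] with n h1 h2 h3
    have hP : (1:ℝ) ≤ (PP r n : ℝ) := by exact_mod_cast PP_pos r n
    refine ⟨by positivity, ?_⟩
    have h4 := hR (Bad k r B K n (δ n) c θ) (VV k r B n (δ n) (c + 1)) k (PP r n) (PP r n) (δ n) hk
      (PP_pos r n) (PP_pos r n) (hδ n).1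
    exact bound k c (b2 k c) (PP r n) ((2:ℝ) ^ n) (δ n) _ _ (Real.log (PP r n)) hck hk hc hP h3
      (hδ n).1 (hδ n).2 h2 (Real.log_nonneg hP) (by positivity) h1 h4

end Pool.Agent.Helper91K1.WS
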