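import Pool.Agent.Helper91K1.WS.Stm2

/-!
# Waring's problem with shifts for almost all shifts: the decisive stage

`taskAV`: from `k` to `k + 1` variables (Borel-Cantelli, Fubini, the greedy lower bound and the mean
value of the number of exceptional integers).
-/

set_option autoImplicit false

namespace Pool.Agent.Helper91K1.WS

open Finset MeasureTheory Filter

lemma meas_Bad (k r B K n : ℕ) (δ : ℝ) (c : ℕ) :
    Measurable (fun θ : Fin (k + c) → ℝ => ((Bad k r B K n δ c θ).card : ℝ)) := by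
  classical
  unfold Bad
  apply meas_card (q := fun (m : ℤ) (θ : Fin (k + c) → ℝ) =>
    ∀ x ∈ II r K n (k + c), ((c:ℝ) + 1) * δ ≤ |Sg k θ x - m * δ|)
  intro m _
  have : {θ : Fin (k + c) → ℝ | ∀ x ∈ II r K n (k + c), ((c:ℝ) + 1) * δ ≤ |Sg k θ x - m * δ|} =
      ⋂ x ∈ II r K n (k + c), {θ : Fin (k + c) → ℝ | ((c:ℝ) + 1) * δ ≤ |Sg k θ x - m * δ|} := by
    ext θ
    simp
  rw [this]
  exact Finset.measurableSet_biInter _ (fun x _ =>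
    (isClosed_le continuous_const ((cont_Sg k _ x).sub continuous_const).abs).measurableSet)

lemma XX_two (r K n k : ℕ) (hk : 2 ≤ k) : XX r K n k = Ico (PP r n) (PP r n + PP r n) := by
  obtain ⟨k', rfl⟩ : ∃ k', k = k' + 2 := ⟨k - 2, by omega⟩
  rfl

lemma Bad_snoc (k r B K n : ℕ) (δ : ℝ) (hk : 2 ≤ k) (θ : Fin k → ℝ) (t : ℝ) :
    Bad k r B K n δ 1 (Fin.snoc (α := fun _ => ℝ) θ t) =
      (VV k r B n δ 1).filter (fun m : ℤ => ∀ p ∈ II r K n k ×ˢ Ico (PP r n) (PP r n + PP r n),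
        2 * δ ≤ |Sg k θ p.1 + ((p.2:ℝ) + t) ^ k - m * δ|) := by
  unfold Bad
  apply Finset.filter_congr
  intro m _
  have h2 : (((1:ℕ):ℝ) + 1) * δ = 2 * δ := by push_cast; ring
  rw [h2]
  constructor
  · intro h p hp
    have h1 := h (snocEmb k p) (by
      show snocEmb k p ∈ (II r K n k ×ˢ XX r K n k).map (snocEmb k)
      rw [XX_two r K n k hk]
      exact mem_map_of_mem _ hp)
    rwa [Sg_snoc] at h1
  · intro h x hx
    have hx' : x ∈ (II r K n k ×ˢ XX r K n k).map (snocEmb k) := hx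
    rw [XX_two r K n k hk, Finset.mem_map] at hx'
    obtain ⟨p, hp, rfl⟩ := hx'
    rw [Sg_snoc]
    exact h p hp

lemma count_snoc (k r K n : ℕ) (hk : 2 ≤ k) (θ : Fin k → ℝ) (t : ℝ) (I : Set ℝ) [DecidablePred (· ∈ I)] :
    ((II r K n (k + 1)).filter (fun x => Sg k (Fin.snoc (α := fun _ => ℝ) θ t) x ∈ I)).card =
      ((II r K n k ×ˢ Ico (PP r n) (PP r n + PP r n)).filter
        (fun p => Sg k θ p.1 + ((p.2:ℝ) + t) ^ k ∈ I)).card := by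
  have h0 : II r K n (k + 1) = (II r K n k ×ˢ Ico (PP r n) (PP r n + PP r n)).map (snocEmb k) := by
    rw [← XX_two r K n k hk]; rfl
  rw [h0, Finset.filter_map, card_map]
  congr 1
  apply Finset.filter_congr
  intro p _
  simp only [Function.comp]
  rw [Sg_snoc]

lemma stepG (hG : TaskAG) (k r B n : ℕ) (δ : ℝ) (hk : 2 ≤ k) (hr : k + 1 ≤ r) (hB : 1 ≤ B)
    (h1 : 3 * k * (B + 1) ^ (k - 1) ≤ 2 ^ n) (h2 : 3 ≤ QQ r n) (N : ℕ)
    (hN1 : k * (2 * (QQ r n : ℝ)) ^ (k - 1) ≤ N * δ)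
    (hN2 : (N:ℝ) * δ ≤ 2 ^ k * (PP r n : ℝ) ^ k) (θ : Fin k → ℝ)
    (hθ : ∀ i, θ i ∈ Set.Ico (0:ℝ) 1) (t : ℝ) (ht : t ∈ Set.Ico (0:ℝ) 1) (u : ℝ)
    (hu : u ∈ Set.Icc (((k:ℝ) + 2) * 2 ^ k * (PP r n : ℝ) ^ k - N * δ)
      ((B:ℝ) * (PP r n : ℝ) ^ k)) :
    (PP r n : ℝ) ^ (k - 1) * ((2:ℝ) ^ n) ^ (r - k - 1) ≤
      (((II r (B + 1) n k ×ˢ Ico (PP r n) (PP r n + PP r n)).filter
        (fun p : (Fin k → ℕ) × ℕ =>
          Sg k θ p.1 + ((p.2:ℝ) + t) ^ k ∈ Set.Ico u (u + N * δ))).card : ℝ) := by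
  rw [← count_snoc k r (B + 1) n hk θ t (Set.Ico u (u + N * δ))]
  obtain ⟨m, rfl⟩ : ∃ m, k = m + 1 := ⟨k - 1, by omega⟩
  have hθ' : ∀ i : Fin (m + 2), (Fin.snoc (α := fun _ => ℝ) θ t : Fin (m + 2) → ℝ) i ∈
      Set.Ico (0:ℝ) 1 := by
    intro i
    refine Fin.lastCases ?_ (fun j => ?_) i
    · rw [Fin.snoc_last]; exact ht
    · rw [Fin.snoc_castSucc]; exact hθ j
  have hu1 : ((m:ℝ) + 2) * 2 ^ (m + 1) * (PP r n : ℝ) ^ (m + 1) ≤ u := by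
    have h3 := hu.1
    push_cast at h3
    nlinarith
  exact hG (m + 1) r B n hk hr hB h1 h2 m _ hθ' u (N * δ) hu1 hu.2 hN1

lemma numeric (m e : ℕ) (P Q L δ C N lg E G I : ℝ) (hL : 2 ≤ L) (hQ : 1 ≤ Q) (hPQ : P = Q * L)
    (hPL : P = L ^ (m + 3 + e)) (_hC : 1 ≤ C) (hCL : C ≤ L) (hN : N ≤ C * Q ^ (m + 1))
    (hN1 : 1 ≤ N) (hlg : 0 ≤ lg) (h8 : 8 * C * (1 + lg) ≤ L) (_hδ : 0 < δ) (hδ1 : δ ≤ 1)
    (hI : 0 ≤ I) (_hG : 0 < G) (hGN : G * N = P ^ (m + 1) * L ^ e) (hE0 : 0 ≤ E)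
    (hE : E ≤ P ^ (m + 2) * L ^ (2 * (m + 2)))
    (hmain : G ^ 2 * I ≤ E * (P + 4 * δ * (N + 1) * (1 + lg) / P ^ m)) :
    I ≤ P ^ (m + 1) * L ^ (2 * (m + 2) + 8) := by
  have hL0 : 0 < L := by linarith
  have hP0 : 0 < P := by rw [hPL]; positivity
  have hQm : 1 ≤ Q ^ (m + 1) := one_le_pow₀ hQ
  -- `P ≤ G L^3`
  have hGL : P ≤ G * L ^ 3 := by
    have h1 : P * N ≤ (G * L ^ 3) * N := by
      have e1 : (G * L ^ 3) * N = (G * N) * L ^ 3 := by ring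
      rw [e1, hGN]
      have e2 : P ^ (m + 1) * L ^ e * L ^ 3 = Q ^ (m + 1) * L * P := by
        have : P ^ (m + 1) = Q ^ (m + 1) * L ^ (m + 1) := by rw [hPQ, mul_pow]
        rw [this]
        rw [show Q ^ (m + 1) * L * P = Q ^ (m + 1) * L * L ^ (m + 3 + e) by rw [hPL]]
        ring
      rw [e2]
      have h3 : N ≤ Q ^ (m + 1) * L := by
        calc N ≤ C * Q ^ (m + 1) := hN
          _ ≤ L * Q ^ (m + 1) := by gcongr
          _ = _ := by ring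
      nlinarith
    exact le_of_mul_le_mul_right h1 (by linarith)
  -- the second factor is at most `2 P`
  have h2P : P + 4 * δ * (N + 1) * (1 + lg) / P ^ m ≤ 2 * P := by
    have h1 : 4 * δ * (N + 1) * (1 + lg) / P ^ m ≤ P := by
      rw [div_le_iff₀ (by positivity)]
      have e1 : P * P ^ m = Q ^ (m + 1) * L ^ (m + 1) := by
        rw [← mul_pow, ← hPQ]; ring
      rw [e1]
      have h3 : 4 * δ * (N + 1) * (1 + lg) ≤ 4 * 1 * (2 * (C * Q ^ (m + 1))) * (1 + lg) := by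
        have h4 : N + 1 ≤ 2 * (C * Q ^ (m + 1)) := by nlinarith
        have h5 : (0:ℝ) ≤ 1 + lg := by linarith
        gcongr
      have h6 : 4 * 1 * (2 * (C * Q ^ (m + 1))) * (1 + lg) = (8 * C * (1 + lg)) * Q ^ (m + 1) := by
        ring
      have h7 : (8 * C * (1 + lg)) * Q ^ (m + 1) ≤ L * Q ^ (m + 1) := by gcongr
      have h8' : L ≤ L ^ (m + 1) := by
        calc L = L ^ 1 := (pow_one L).symm
          _ ≤ L ^ (m + 1) := pow_le_pow_right₀ (by linarith) (by omega)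
      have h9 : L * Q ^ (m + 1) ≤ Q ^ (m + 1) * L ^ (m + 1) := by
        rw [mul_comm]; gcongr
      linarith
    linarith
  have hfin : P ^ 2 * I ≤ P ^ 2 * (P ^ (m + 1) * L ^ (2 * (m + 2) + 8)) := by
    calc P ^ 2 * I ≤ (G * L ^ 3) ^ 2 * I := by gcongr
      _ = L ^ 6 * (G ^ 2 * I) := by ring
      _ ≤ L ^ 6 * (E * (2 * P)) := by
          have := mul_le_mul_of_nonneg_left h2P hE0
          have h10 : G ^ 2 * I ≤ E * (2 * P) := hmain.trans this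
          gcongr
      _ ≤ L ^ 6 * ((P ^ (m + 2) * L ^ (2 * (m + 2))) * (2 * P)) := by gcongr
      _ = P ^ 2 * (P ^ (m + 1) * (L ^ (2 * (m + 2) + 6) * 2)) := by ring
      _ ≤ P ^ 2 * (P ^ (m + 1) * (L ^ (2 * (m + 2) + 6) * L ^ 2)) := by
          have : (2:ℝ) ≤ L ^ 2 := by nlinarith
          gcongr
      _ = P ^ 2 * (P ^ (m + 1) * L ^ (2 * (m + 2) + 8)) := by ring
  exact le_of_mul_le_mul_left hfin (by positivity)

lemma stepV (hV : TaskV) (hG : TaskAG) (k r B n : ℕ) (δ : ℝ) (hk : 2 ≤ k) (hr : k + 1 ≤ r)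
    (hB : (k + 2) * 2 ^ k ≤ B) (hδ : 0 < δ) (hδ1 : δ ≤ 1)
    (h1 : 3 * k * (B + 1) ^ (k - 1) ≤ 2 ^ n) (h2 : 3 ≤ QQ r n)
    (hC : (k:ℝ) * 2 ^ (k - 1) / δ + 1 ≤ 2 ^ n)
    (hlog : 8 * ((k:ℝ) * 2 ^ (k - 1) / δ + 1) * (1 + Real.log (PP r n)) ≤ 2 ^ n)
    (θ : Fin k → ℝ) (hθ : ∀ i, θ i ∈ Set.Ico (0:ℝ) 1)
    (hE : En (II r (B + 1) n k) (Sg k θ) δ ≤ (PP r n : ℝ) ^ k * ((2:ℝ) ^ n) ^ (2 * k)) :
    ∫ t in Set.Ico (0:ℝ) 1,
      ((Bad k r B (B + 1) n δ 1 (Fin.snoc (α := fun _ => ℝ) θ t)).card : ℝ) ≤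
      (PP r n : ℝ) ^ (k - 1) * ((2:ℝ) ^ n) ^ (2 * k + 8) := by
  obtain ⟨m, rfl⟩ : ∃ m, k = m + 2 := ⟨k - 2, by omega⟩
  obtain ⟨e, rfl⟩ : ∃ e, r = m + 3 + e := ⟨r - (m + 3), by omega⟩
  set r := m + 3 + e with hrdef
  set P : ℝ := (PP r n : ℝ) with hP
  set Q : ℝ := (QQ r n : ℝ) with hQ
  set L : ℝ := (2:ℝ) ^ n with hL
  have hk1 : m + 2 - 1 = m + 1 := by omega
  have hk2 : m + 2 - 2 = m := by omega
  rw [hk1] at h1 hC hlog ⊢
  set C : ℝ := ((m + 2 : ℕ):ℝ) * 2 ^ (m + 1) / δ + 1 with hCdef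
  have hC1 : 1 ≤ C := by
    have : (0:ℝ) ≤ ((m + 2 : ℕ):ℝ) * 2 ^ (m + 1) / δ := by positivity
    linarith
  have hPQ : P = Q * L := by
    have := PP_eq r n (by omega)
    rw [hP, hQ, hL, this]; push_cast; ring
  have hPL : P = L ^ (m + 3 + e) := by rw [hP, PP_real]
  have hQ1 : 1 ≤ Q := by rw [hQ]; exact_mod_cast QQ_pos r n
  have hP1 : 1 ≤ P := by rw [hP]; exact_mod_cast PP_pos r n
  have hL2 : 2 ≤ L := by
    have h3 : (2:ℝ) ≤ ((3 * (m + 2) * (B + 1) ^ (m + 1) : ℕ):ℝ) := by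
      have : 2 ≤ 3 * (m + 2) * (B + 1) ^ (m + 1) := by
        have h4 : 1 ≤ (B + 1) ^ (m + 1) := Nat.one_le_pow _ _ (by omega)
        nlinarith
      exact_mod_cast this
    have h5 : ((3 * (m + 2) * (B + 1) ^ (m + 1) : ℕ):ℝ) ≤ L := by
      rw [hL]; exact_mod_cast h1
    linarith
  have hL0 : 0 < L := by linarith
  have hlg : 0 ≤ Real.log P := Real.log_nonneg hP1
  set N : ℕ := ⌈((m + 2 : ℕ):ℝ) * (2 * Q) ^ (m + 1) / δ⌉₊ with hNdef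
  have hpos : (0:ℝ) < ((m + 2 : ℕ):ℝ) * (2 * Q) ^ (m + 1) / δ := by positivity
  have hNge : ((m + 2 : ℕ):ℝ) * (2 * Q) ^ (m + 1) / δ ≤ N := Nat.le_ceil _
  have hNlt : (N:ℝ) < ((m + 2 : ℕ):ℝ) * (2 * Q) ^ (m + 1) / δ + 1 := Nat.ceil_lt_add_one hpos.le
  have hN1' : 1 ≤ N := Nat.ceil_pos.2 hpos
  have hN1 : (1:ℝ) ≤ N := by exact_mod_cast hN1'
  have hNδ : ((m + 2 : ℕ):ℝ) * (2 * Q) ^ (m + 1) ≤ N * δ := (div_le_iff₀ hδ).1 hNge
  have hQm : 1 ≤ Q ^ (m + 1) := one_le_pow₀ hQ1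
  have hNC : (N:ℝ) ≤ C * Q ^ (m + 1) := by
    have e1 : ((m + 2 : ℕ):ℝ) * (2 * Q) ^ (m + 1) / δ =
        ((m + 2 : ℕ):ℝ) * 2 ^ (m + 1) / δ * Q ^ (m + 1) := by rw [mul_pow]; ring
    rw [e1] at hNlt
    rw [hCdef]
    nlinarith
  have hLP : L ≤ P := by
    rw [hPQ]; nlinarith
  have hQP : Q ≤ P := by rw [hPQ]; nlinarith
  have hN2 : (N:ℝ) * δ ≤ 2 ^ (m + 2) * P ^ (m + 2) := by
    calc (N:ℝ) * δ ≤ N * 1 := by gcongr
      _ = N := mul_one _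
      _ ≤ C * Q ^ (m + 1) := hNC
      _ ≤ P * P ^ (m + 1) := by
          have : C ≤ P := hC.trans hLP
          gcongr
      _ = 1 * P ^ (m + 2) := by ring
      _ ≤ 2 ^ (m + 2) * P ^ (m + 2) := by
          have : (1:ℝ) ≤ 2 ^ (m + 2) := one_le_pow₀ (by norm_num)
          gcongr
  set G : ℝ := P ^ (m + 1) * L ^ e / N with hGdef
  have hG0 : 0 < G := by positivity
  have hGN : G * N = P ^ (m + 1) * L ^ e := by
    rw [hGdef]; field_simp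
  have hAB : (((m + 2 : ℕ):ℝ) + 2) * 2 ^ (m + 2) * P ^ (m + 2) ≤ (B:ℝ) * P ^ (m + 2) := by
    have : (((m + 2 : ℕ):ℝ) + 2) * 2 ^ (m + 2) ≤ (B:ℝ) := by exact_mod_cast hB
    gcongr
  have hmain := hV (Fin (m + 2) → ℕ) (II r (B + 1) n (m + 2)) (Sg (m + 2) θ) (m + 2) (PP r n)
    (PP r n) N δ ((((m + 2 : ℕ):ℝ) + 2) * 2 ^ (m + 2) * P ^ (m + 2)) ((B:ℝ) * P ^ (m + 2)) G
    (VV (m + 2) r B n δ 1) hk (PP_pos r n) (PP_pos r n) hN1' hδ hG0 hAB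
    (by
      intro z hz
      rw [mem_VV _ _ _ _ _ _ hδ] at hz
      refine ⟨?_, hz.2⟩
      have h3 := hz.1
      have e1 : ((m + 2 : ℕ):ℝ) + ((1:ℕ):ℝ) + 1 = ((m + 2 : ℕ):ℝ) + 2 := by push_cast; ring
      rw [e1] at h3
      exact h3)
    (by
      intro t ht u hu
      rw [hGN]
      have h3 := stepG hG (m + 2) r B n δ hk hr (by
        have : 1 ≤ 2 ^ (m + 2) := Nat.one_le_pow _ _ (by norm_num)
        nlinarith) (by rw [hk1]; exact h1) h2 N (by rw [hk1]; exact hNδ) hN2 θ hθ t ht u hu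
      have e2 : r - (m + 2) - 1 = e := by omega
      rw [hk1, e2] at h3
      exact h3)
  have hint : ∫ t in Set.Ico (0:ℝ) 1,
      ((Bad (m + 2) r B (B + 1) n δ 1 (Fin.snoc (α := fun _ => ℝ) θ t)).card : ℝ) =
      ∫ t in Set.Ico (0:ℝ) 1, (((VV (m + 2) r B n δ 1).filter (fun z : ℤ =>
        ∀ p ∈ II r (B + 1) n (m + 2) ×ˢ Ico (PP r n) (PP r n + PP r n),
          2 * δ ≤ |Sg (m + 2) θ p.1 + ((p.2:ℝ) + t) ^ (m + 2) - z * δ|)).card : ℝ) := by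
    congr 1
    funext t
    rw [Bad_snoc (m + 2) r B (B + 1) n δ hk θ t]
  rw [hint]
  rw [hk2] at hmain
  exact numeric m e P Q L δ C N (Real.log P) (En (II r (B + 1) n (m + 2)) (Sg (m + 2) θ) δ) G _
    hL2 hQ1 hPQ hPL hC1 hC hNC hN1 hlg hlog hδ hδ1 (integral_nonneg fun _ => Nat.cast_nonneg _) hG0
    hGN (En_nonneg _ _ _) hE hmain

/-- The decisive stage. -/
theorem taskAV (hV : TaskV) (hB : TaskB) (hF : TaskF) (hG : TaskAG) : TaskAV := by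
  intro k r B δ hk hr hBk hδ hδ1 hE
  refine hF k (pE k r (B + 1) δ k) (pB k r B (B + 1) δ 1) ?_ ?_ hE ?_
  · exact meas_eventually _ fun n => measurableSet_le (meas_En k r (B + 1) n k δ) measurable_const
  · exact meas_eventually _ fun n =>
      measurableSet_le (meas_Bad k r B (B + 1) n δ 1) measurable_const
  intro θ hθ hp
  have hmeas : ∀ n, Measurable (fun t : ℝ =>
      ((Bad k r B (B + 1) n δ 1 (Fin.snoc (α := fun _ => ℝ) θ t)).card : ℝ)) := fun n =>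
    (meas_Bad k r B (B + 1) n δ 1).comp (cont_snoc k θ).measurable
  have hev : ∀ᶠ n : ℕ in atTop, 0 < (PP r n : ℝ) ^ (k - 1) * ((2:ℝ) ^ n) ^ (2 * k + 8) ∧
      ∫ t in Set.Ico (0:ℝ) 1,
        ((Bad k r B (B + 1) n δ 1 (Fin.snoc (α := fun _ => ℝ) θ t)).card : ℝ) ≤
      (PP r n : ℝ) ^ (k - 1) * ((2:ℝ) ^ n) ^ (2 * k + 8) := by
    have g1 := growth' ((3 * k * (B + 1) ^ (k - 1) : ℕ):ℝ)
    have g2 := growth' (3:ℝ)
    have g3 := growth' ((k:ℝ) * 2 ^ (k - 1) / δ + 1)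
    have g4 := growth (8 * ((k:ℝ) * 2 ^ (k - 1) / δ + 1)) r
    filter_upwards [g1, g2, g3, g4, hp] with n a1 a2 a3 a4 a5
    refine ⟨?_, ?_⟩
    · have : (0:ℝ) < PP r n := by exact_mod_cast PP_pos r n
      positivity
    · refine stepV hV hG k r B n δ hk hr hBk hδ hδ1 (by exact_mod_cast a1) ?_ a3 a4 θ hθ a5
      have h3 : 3 ≤ 2 ^ n := by exact_mod_cast a2
      have h4 : (2 ^ n) ^ 1 ≤ (2 ^ n) ^ (r - 1) := Nat.pow_le_pow_right (by positivity) (by omega)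
      unfold QQ
      rw [pow_one] at h4
      omega
  have h := hB (fun n t => ((Bad k r B (B + 1) n δ 1 (Fin.snoc (α := fun _ => ℝ) θ t)).card : ℝ))
    (fun n => (PP r n : ℝ) ^ (k - 1) * ((2:ℝ) ^ n) ^ (2 * k + 8)) hmeas
    (fun n t => Nat.cast_nonneg _)
    (fun n => integrable_of_bdd _ (hmeas n) ((VV k r B n δ 1).card : ℝ)
      (fun t => Nat.cast_nonneg _) (fun t => by
        exact_mod_cast Finset.card_filter_le _ _)) hev
  filter_upwards [h] with t ht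
  show ∀ᶠ n : ℕ in atTop, _
  filter_upwards [ht] with n hn
  refine hn.trans (le_of_eq ?_)
  show (2:ℝ) ^ n * ((PP r n : ℝ) ^ (k - 1) * ((2:ℝ) ^ n) ^ (2 * k + 8)) =
    (PP r n : ℝ) ^ (k - 1) * ((2:ℝ) ^ n) ^ (2 * k + 9)
  rw [show 2 * k + 9 = (2 * k + 8) + 1 by ring, pow_succ]
  ring

end Pool.Agent.Helper91K1.WS
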