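import Pool.Agent.Helper91K1.WS.AV
import Pool.Agent.Helper91K1.WS.Stm3

/-!
# Waring's problem with shifts for almost all shifts: the decisive stage with tolerances `δ n → 0`

`taskAV2`: from `k` to `k + 1` variables, the version of `taskAV` for a sequence of tolerances.
-/

set_option autoImplicit false

namespace Pool.Agent.Helper91K1.WS

open Finset MeasureTheory Filter

lemma numeric2 (m e : ℕ) (P Q L δ C N lg E G I : ℝ) (hL : 2 ≤ L) (hQ : 1 ≤ Q) (hPQ : P = Q * L)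
    (hPL : P = L ^ (m + 3 + e)) (hCL : C ≤ L ^ 2) (hN : N ≤ C * Q ^ (m + 1))
    (hN1 : 1 ≤ N) (hlg : 0 ≤ lg) (h8 : 8 * C * (1 + lg) ≤ L ^ 2) (hδ1 : δ ≤ 1)
    (hI : 0 ≤ I) (hGN : G * N = P ^ (m + 1) * L ^ e) (hE0 : 0 ≤ E)
    (hE : E ≤ P ^ (m + 2) * L ^ (2 * (m + 2)))
    (hmain : G ^ 2 * I ≤ E * (P + 4 * δ * (N + 1) * (1 + lg) / P ^ m)) :
    I ≤ P ^ (m + 1) * L ^ (2 * (m + 2) + 13) := by
  have hL0 : 0 < L := by linarith
  have hL1 : 1 ≤ L := by linarith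
  have hP0 : 0 < P := by rw [hPL]; positivity
  have hQm : 1 ≤ Q ^ (m + 1) := one_le_pow₀ hQ
  -- `P ≤ G L^4`
  have hGL : P ≤ G * L ^ 4 := by
    have h1 : P * N ≤ (G * L ^ 4) * N := by
      have e1 : (G * L ^ 4) * N = (G * N) * L ^ 4 := by ring
      rw [e1, hGN]
      have e2 : P ^ (m + 1) * L ^ e * L ^ 4 = Q ^ (m + 1) * L ^ 2 * P := by
        have : P ^ (m + 1) = Q ^ (m + 1) * L ^ (m + 1) := by rw [hPQ, mul_pow]
        rw [this]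
        rw [show Q ^ (m + 1) * L ^ 2 * P = Q ^ (m + 1) * L ^ 2 * L ^ (m + 3 + e) by rw [hPL]]
        ring
      rw [e2]
      have h3 : N ≤ Q ^ (m + 1) * L ^ 2 := by
        calc N ≤ C * Q ^ (m + 1) := hN
          _ ≤ L ^ 2 * Q ^ (m + 1) := by gcongr
          _ = _ := by ring
      nlinarith
    exact le_of_mul_le_mul_right h1 (by linarith)
  -- the second factor is at most `L^2 P`
  have h2P : P + 4 * δ * (N + 1) * (1 + lg) / P ^ m ≤ L ^ 2 * P := by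
    have h1 : 4 * δ * (N + 1) * (1 + lg) / P ^ m ≤ L * P := by
      rw [div_le_iff₀ (by positivity)]
      have e1 : L * P * P ^ m = L * (Q ^ (m + 1) * L ^ (m + 1)) := by
        rw [← mul_pow, ← hPQ]; ring
      rw [e1]
      have h3 : 4 * δ * (N + 1) * (1 + lg) ≤ 4 * 1 * (2 * (C * Q ^ (m + 1))) * (1 + lg) := by
        have h4 : N + 1 ≤ 2 * (C * Q ^ (m + 1)) := by nlinarith
        have h5 : (0:ℝ) ≤ 1 + lg := by linarith
        gcongr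
      have h6 : 4 * 1 * (2 * (C * Q ^ (m + 1))) * (1 + lg) = (8 * C * (1 + lg)) * Q ^ (m + 1) := by
        ring
      have h7 : (8 * C * (1 + lg)) * Q ^ (m + 1) ≤ L ^ 2 * Q ^ (m + 1) := by gcongr
      have h8' : L ≤ L ^ (m + 1) := by
        calc L = L ^ 1 := (pow_one L).symm
          _ ≤ L ^ (m + 1) := pow_le_pow_right₀ (by linarith) (by omega)
      have h9 : L ^ 2 * Q ^ (m + 1) ≤ L * (Q ^ (m + 1) * L ^ (m + 1)) := by
        have e3 : L ^ 2 * Q ^ (m + 1) = L * (Q ^ (m + 1) * L) := by ring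
        rw [e3]; gcongr
      linarith
    have h11 : 1 + L ≤ L ^ 2 := by nlinarith
    have h12 : (1 + L) * P ≤ L ^ 2 * P := mul_le_mul_of_nonneg_right h11 hP0.le
    linarith
  have hfin : P ^ 2 * I ≤ P ^ 2 * (P ^ (m + 1) * L ^ (2 * (m + 2) + 13)) := by
    calc P ^ 2 * I ≤ (G * L ^ 4) ^ 2 * I := by gcongr
      _ = L ^ 8 * (G ^ 2 * I) := by ring
      _ ≤ L ^ 8 * (E * (L ^ 2 * P)) := by
          have := mul_le_mul_of_nonneg_left h2P hE0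
          have h10 : G ^ 2 * I ≤ E * (L ^ 2 * P) := hmain.trans this
          gcongr
      _ ≤ L ^ 8 * ((P ^ (m + 2) * L ^ (2 * (m + 2))) * (L ^ 2 * P)) := by gcongr
      _ = P ^ 2 * (P ^ (m + 1) * (L ^ (2 * (m + 2) + 10))) := by ring
      _ ≤ P ^ 2 * (P ^ (m + 1) * L ^ (2 * (m + 2) + 13)) := by
          have : L ^ (2 * (m + 2) + 10) ≤ L ^ (2 * (m + 2) + 13) :=
            pow_le_pow_right₀ hL1 (by omega)
          gcongr
  exact le_of_mul_le_mul_left hfin (by positivity)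

lemma stepV2 (hV : TaskV) (hG : TaskAG) (k r B n : ℕ) (δ : ℝ) (hk : 2 ≤ k) (hr : k + 1 ≤ r)
    (hB : (k + 2) * 2 ^ k ≤ B) (hδ : 0 < δ) (hδ1 : δ ≤ 1) (hδL : 1 ≤ δ * 2 ^ n)
    (h1 : 3 * k * (B + 1) ^ (k - 1) ≤ 2 ^ n) (h2 : 3 ≤ QQ r n)
    (hlog : 8 * ((k:ℝ) * 2 ^ (k - 1) + 1) * (1 + Real.log (PP r n)) ≤ 2 ^ n)
    (θ : Fin k → ℝ) (hθ : ∀ i, θ i ∈ Set.Ico (0:ℝ) 1)
    (hE : En (II r (B + 1) n k) (Sg k θ) δ ≤ (PP r n : ℝ) ^ k * ((2:ℝ) ^ n) ^ (2 * k)) :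
    ∫ t in Set.Ico (0:ℝ) 1,
      ((Bad k r B (B + 1) n δ 1 (Fin.snoc (α := fun _ => ℝ) θ t)).card : ℝ) ≤
      (PP r n : ℝ) ^ (k - 1) * ((2:ℝ) ^ n) ^ (2 * k + 13) := by
  obtain ⟨m, rfl⟩ : ∃ m, k = m + 2 := ⟨k - 2, by omega⟩
  obtain ⟨e, rfl⟩ : ∃ e, r = m + 3 + e := ⟨r - (m + 3), by omega⟩
  set r := m + 3 + e with hrdef
  set P : ℝ := (PP r n : ℝ) with hP
  set Q : ℝ := (QQ r n : ℝ) with hQ
  set L : ℝ := (2:ℝ) ^ n with hL
  have hk1 : m + 2 - 1 = m + 1 := by omega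
  have hk2 : m + 2 - 2 = m := by omega
  rw [hk1] at h1 hlog ⊢
  set C : ℝ := ((m + 2 : ℕ):ℝ) * 2 ^ (m + 1) / δ + 1 with hCdef
  set D : ℝ := ((m + 2 : ℕ):ℝ) * 2 ^ (m + 1) + 1 with hDdef
  have hC1 : 1 ≤ C := by
    have : (0:ℝ) ≤ ((m + 2 : ℕ):ℝ) * 2 ^ (m + 1) / δ := by positivity
    linarith
  have hD1 : 1 ≤ D := by
    have : (0:ℝ) ≤ ((m + 2 : ℕ):ℝ) * 2 ^ (m + 1) := by positivity
    linarith
  have hPQ : P = Q * L := by
    have := PP_eq r n (by omega)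
    rw [hP, hQ, hL, this]; push_cast; ring
  have hPL : P = L ^ (m + 3 + e) := by rw [hP, PP_real]
  have hQ1 : 1 ≤ Q := by rw [hQ]; exact_mod_cast QQ_pos r n
  have hP1 : 1 ≤ P := by rw [hP]; exact_mod_cast PP_pos r n
  have hL2 : 2 ≤ L := by
    have h3 : (2:ℝ) ≤ ((3 * (m + 2) * (B + 1) ^ (m + 1) : ℕ):ℝ) := by
      have : 2 ≤ 3 * (m + 2) * (B + 1) ^ (m + 1) := by
        have h4 : 1 ≤ (B + 1) ^ (m + 1) := Nat.one_le_pow _ _ (by omega)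
        nlinarith
      exact_mod_cast this
    have h5 : ((3 * (m + 2) * (B + 1) ^ (m + 1) : ℕ):ℝ) ≤ L := by
      rw [hL]; exact_mod_cast h1
    linarith
  have hL0 : 0 < L := by linarith
  have hlg : 0 ≤ Real.log P := Real.log_nonneg hP1
  -- the constant `C` is at most `D L`
  have hCD : C ≤ D * L := by
    have h3 : ((m + 2 : ℕ):ℝ) * 2 ^ (m + 1) / δ ≤ ((m + 2 : ℕ):ℝ) * 2 ^ (m + 1) * L := by
      rw [div_le_iff₀ hδ]
      have h4 : (0:ℝ) ≤ ((m + 2 : ℕ):ℝ) * 2 ^ (m + 1) := by positivity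
      calc ((m + 2 : ℕ):ℝ) * 2 ^ (m + 1) = ((m + 2 : ℕ):ℝ) * 2 ^ (m + 1) * 1 := by ring
        _ ≤ ((m + 2 : ℕ):ℝ) * 2 ^ (m + 1) * (δ * L) := by gcongr
        _ = _ := by ring
    rw [hCdef, hDdef]
    nlinarith
  have h8 : 8 * C * (1 + Real.log P) ≤ L ^ 2 := by
    calc 8 * C * (1 + Real.log P) ≤ 8 * (D * L) * (1 + Real.log P) := by gcongr
      _ = (8 * D * (1 + Real.log P)) * L := by ring
      _ ≤ L * L := by gcongr
      _ = L ^ 2 := by ring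
  have hDL : D ≤ L := by
    have h3 : 8 * D * 1 ≤ 8 * D * (1 + Real.log P) := by gcongr; linarith
    linarith
  have hCL : C ≤ L ^ 2 := by
    calc C ≤ D * L := hCD
      _ ≤ L * L := by gcongr
      _ = L ^ 2 := by ring
  set N : ℕ := ⌈((m + 2 : ℕ):ℝ) * (2 * Q) ^ (m + 1) / δ⌉₊ with hNdef
  have hpos : (0:ℝ) < ((m + 2 : ℕ):ℝ) * (2 * Q) ^ (m + 1) / δ := by positivity
  have hNge : ((m + 2 : ℕ):ℝ) * (2 * Q) ^ (m + 1) / δ ≤ N := Nat.le_ceil _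
  have hNlt : (N:ℝ) < ((m + 2 : ℕ):ℝ) * (2 * Q) ^ (m + 1) / δ + 1 := Nat.ceil_lt_add_one hpos.le
  have hN1' : 1 ≤ N := Nat.ceil_pos.2 hpos
  have hN1 : (1:ℝ) ≤ N := by exact_mod_cast hN1'
  have hNδ : ((m + 2 : ℕ):ℝ) * (2 * Q) ^ (m + 1) ≤ N * δ := (div_le_iff₀ hδ).1 hNge
  have hQm : 1 ≤ Q ^ (m + 1) := one_le_pow₀ hQ1
  have hNC : (N:ℝ) ≤ C * Q ^ (m + 1) := by
    have e1 : ((m + 2 : ℕ):ℝ) * (2 * Q) ^ (m + 1) / δ =
        ((m + 2 : ℕ):ℝ) * 2 ^ (m + 1) / δ * Q ^ (m + 1) := by rw [mul_pow]; ring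
    rw [e1] at hNlt
    rw [hCdef]
    nlinarith
  have hLP : L ≤ P := by
    rw [hPQ]; exact le_mul_of_one_le_left hL0.le hQ1
  have hQP : Q ≤ P := by rw [hPQ]; exact le_mul_of_one_le_right (by linarith) (by linarith)
  have hN2 : (N:ℝ) * δ ≤ 2 ^ (m + 2) * P ^ (m + 2) := by
    have h3 : (N:ℝ) * δ ≤ D * Q ^ (m + 1) := by
      have h4 : (N:ℝ) * δ ≤ (((m + 2 : ℕ):ℝ) * (2 * Q) ^ (m + 1) / δ + 1) * δ := by gcongr
      have h5 : (((m + 2 : ℕ):ℝ) * (2 * Q) ^ (m + 1) / δ + 1) * δ =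
          ((m + 2 : ℕ):ℝ) * 2 ^ (m + 1) * Q ^ (m + 1) + δ := by
        rw [mul_pow]; field_simp
      rw [h5] at h4
      have h6 : D * Q ^ (m + 1) = ((m + 2 : ℕ):ℝ) * 2 ^ (m + 1) * Q ^ (m + 1) + Q ^ (m + 1) := by
        rw [hDdef]; ring
      rw [h6]
      linarith
    calc (N:ℝ) * δ ≤ D * Q ^ (m + 1) := h3
      _ ≤ P * P ^ (m + 1) := by
          have : D ≤ P := hDL.trans hLP
          gcongr
      _ = 1 * P ^ (m + 2) := by ring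
      _ ≤ 2 ^ (m + 2) * P ^ (m + 2) := by
          have : (1:ℝ) ≤ 2 ^ (m + 2) := one_le_pow₀ (by norm_num)
          gcongr
  set G : ℝ := P ^ (m + 1) * L ^ e / N with hGdef
  have hG0 : 0 < G := by positivity
  have hGN : G * N = P ^ (m + 1) * L ^ e := by
    rw [hGdef]; field_simp
  have hAB : (((m + 2 : ℕ):ℝ) + 2) * 2 ^ (m + 2) * P ^ (m + 2) ≤ (B:ℝ) * P ^ (m + 2) := by
    have : (((m + 2 : ℕ):ℝ) + 2) * 2 ^ (m + 2) ≤ (B:ℝ) := by exact_mod_cast hB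
    gcongr
  have hmain := hV (Fin (m + 2) → ℕ) (II r (B + 1) n (m + 2)) (Sg (m + 2) θ) (m + 2) (PP r n)
    (PP r n) N δ ((((m + 2 : ℕ):ℝ) + 2) * 2 ^ (m + 2) * P ^ (m + 2)) ((B:ℝ) * P ^ (m + 2)) G
    (VV (m + 2) r B n δ 1) hk (PP_pos r n) (PP_pos r n) hN1' hδ hG0 hAB
    (by
      intro z hz
      rw [mem_VV _ _ _ _ _ _ hδ] at hz
      refine ⟨?_, hz.2⟩
      have h3 := hz.1
      have e1 : ((m + 2 : ℕ):ℝ) + ((1:ℕ):ℝ) + 1 = ((m + 2 : ℕ):ℝ) + 2 := by push_cast; ring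
      rw [e1] at h3
      exact h3)
    (by
      intro t ht u hu
      rw [hGN]
      have h3 := stepG hG (m + 2) r B n δ hk hr (by
        have : 1 ≤ 2 ^ (m + 2) := Nat.one_le_pow _ _ (by norm_num)
        nlinarith) (by rw [hk1]; exact h1) h2 N (by rw [hk1]; exact hNδ) hN2 θ hθ t ht u hu
      have e2 : r - (m + 2) - 1 = e := by omega
      rw [hk1, e2] at h3
      exact h3)
  have hint : ∫ t in Set.Ico (0:ℝ) 1,
      ((Bad (m + 2) r B (B + 1) n δ 1 (Fin.snoc (α := fun _ => ℝ) θ t)).card : ℝ) =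
      ∫ t in Set.Ico (0:ℝ) 1, (((VV (m + 2) r B n δ 1).filter (fun z : ℤ =>
        ∀ p ∈ II r (B + 1) n (m + 2) ×ˢ Ico (PP r n) (PP r n + PP r n),
          2 * δ ≤ |Sg (m + 2) θ p.1 + ((p.2:ℝ) + t) ^ (m + 2) - z * δ|)).card : ℝ) := by
    congr 1
    funext t
    rw [Bad_snoc (m + 2) r B (B + 1) n δ hk θ t]
  rw [hint]
  rw [hk2] at hmain
  exact numeric2 m e P Q L δ C N (Real.log P) (En (II r (B + 1) n (m + 2)) (Sg (m + 2) θ) δ) G _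
    hL2 hQ1 hPQ hPL hCL hNC hN1 hlg h8 hδ1 (integral_nonneg fun _ => Nat.cast_nonneg _)
    hGN (En_nonneg _ _ _) hE hmain

/-- The decisive stage with tolerances which depend on the scale. -/
theorem taskAV2 (hV : TaskV) (hB : TaskB) (hF : TaskF) (hG : TaskAG) : TaskAV2 := by
  intro k r B δ hk hr hBk hδ hE
  obtain ⟨hδ01, hδL⟩ := hδ
  refine hF k (pE2 k r (B + 1) δ k) (pB2 k r B (B + 1) δ 1) ?_ ?_ hE ?_
  · exact meas_eventually _ fun n =>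
      measurableSet_le (meas_En k r (B + 1) n k (δ n)) measurable_const
  · exact meas_eventually _ fun n =>
      measurableSet_le (meas_Bad k r B (B + 1) n (δ n) 1) measurable_const
  intro θ hθ hp
  have hmeas : ∀ n, Measurable (fun t : ℝ =>
      ((Bad k r B (B + 1) n (δ n) 1 (Fin.snoc (α := fun _ => ℝ) θ t)).card : ℝ)) := fun n =>
    (meas_Bad k r B (B + 1) n (δ n) 1).comp (cont_snoc k θ).measurable
  have hev : ∀ᶠ n : ℕ in atTop, 0 < (PP r n : ℝ) ^ (k - 1) * ((2:ℝ) ^ n) ^ (2 * k + 13) ∧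
      ∫ t in Set.Ico (0:ℝ) 1,
        ((Bad k r B (B + 1) n (δ n) 1 (Fin.snoc (α := fun _ => ℝ) θ t)).card : ℝ) ≤
      (PP r n : ℝ) ^ (k - 1) * ((2:ℝ) ^ n) ^ (2 * k + 13) := by
    have g1 := growth' ((3 * k * (B + 1) ^ (k - 1) : ℕ):ℝ)
    have g2 := growth' (3:ℝ)
    have g4 := growth (8 * ((k:ℝ) * 2 ^ (k - 1) + 1)) r
    filter_upwards [g1, g2, hδL, g4, hp] with n a1 a2 a3 a4 a5
    refine ⟨?_, ?_⟩
    · have : (0:ℝ) < PP r n := by exact_mod_cast PP_pos r n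
      positivity
    · refine stepV2 hV hG k r B n (δ n) hk hr hBk (hδ01 n).1 (hδ01 n).2 a3 (by exact_mod_cast a1)
        ?_ a4 θ hθ a5
      have h3 : 3 ≤ 2 ^ n := by exact_mod_cast a2
      have h4 : (2 ^ n) ^ 1 ≤ (2 ^ n) ^ (r - 1) := Nat.pow_le_pow_right (by positivity) (by omega)
      unfold QQ
      rw [pow_one] at h4
      omega
  have h := hB (fun n t => ((Bad k r B (B + 1) n (δ n) 1
      (Fin.snoc (α := fun _ => ℝ) θ t)).card : ℝ))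
    (fun n => (PP r n : ℝ) ^ (k - 1) * ((2:ℝ) ^ n) ^ (2 * k + 13)) hmeas
    (fun n t => Nat.cast_nonneg _)
    (fun n => integrable_of_bdd _ (hmeas n) ((VV k r B n (δ n) 1).card : ℝ)
      (fun t => Nat.cast_nonneg _) (fun t => by
        exact_mod_cast Finset.card_filter_le _ _)) hev
  filter_upwards [h] with t ht
  show ∀ᶠ n : ℕ in atTop, _
  filter_upwards [ht] with n hn
  refine hn.trans (le_of_eq ?_)
  show (2:ℝ) ^ n * ((PP r n : ℝ) ^ (k - 1) * ((2:ℝ) ^ n) ^ (2 * k + 13)) =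
    (PP r n : ℝ) ^ (k - 1) * ((2:ℝ) ^ n) ^ (2 * k + 14)
  rw [show 2 * k + 14 = (2 * k + 13) + 1 by ring, pow_succ]
  ring

end Pool.Agent.Helper91K1.WS
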