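import Pool.Agent.Helper91K1.WS.Stm

set_option autoImplicit false

namespace Pool.Agent.Helper91K1.WS

open Finset MeasureTheory Filter

/-! ### scales -/

/-- `P = (2^n)^r` -/
def PP (r n : ℕ) : ℕ := (2 ^ n) ^ r

/-- `Q = (2^n)^(r-1)` -/
def QQ (r n : ℕ) : ℕ := (2 ^ n) ^ (r - 1)

/-- the ranges of the variables at scale `n` -/
def XX (r K n : ℕ) : ℕ → Finset ℕ
  | 0 => Ico (PP r n) (K * PP r n)
  | 1 => Ico (QQ r n) (QQ r n + QQ r n)
  | _ + 2 => Ico (PP r n) (PP r n + PP r n)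

/-- append one more variable -/
def snocEmb (s : ℕ) : (Fin s → ℕ) × ℕ ↪ (Fin (s + 1) → ℕ) where
  toFun p := Fin.snoc (α := fun _ => ℕ) p.1 p.2
  inj' := by
    rintro ⟨a, b⟩ ⟨c, d⟩ h
    have h1 := congrArg (Fin.init (α := fun _ => ℕ)) h
    have h2 := congrFun h (Fin.last s)
    simp only [Fin.init_snoc, Fin.snoc_last] at h1 h2
    rw [h1, h2]

/-- the tuples of the first `s` variables -/
def II (r K n : ℕ) : (s : ℕ) → Finset (Fin s → ℕ)
  | 0 => {Fin.elim0}
  | s + 1 => (II r K n s ×ˢ XX r K n s).map (snocEmb s)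

/-- the sum of the shifted powers -/
noncomputable def Sg (k : ℕ) {s : ℕ} (θ : Fin s → ℝ) (x : Fin s → ℕ) : ℝ :=
  ∑ i, ((x i : ℝ) + θ i) ^ k

lemma Sg_snoc (k : ℕ) {s : ℕ} (θ : Fin s → ℝ) (t : ℝ) (p : (Fin s → ℕ) × ℕ) :
    Sg k (Fin.snoc (α := fun _ => ℝ) θ t) (snocEmb s p) = Sg k θ p.1 + ((p.2 : ℝ) + t) ^ k := by
  unfold Sg snocEmb
  simp [Fin.sum_univ_castSucc]

lemma En_eq_sum {α : Type} (s : Finset α) (a : α → ℝ) (δ : ℝ) :
    En s a δ = ∑ i ∈ s, ∑ j ∈ s, if |a i - a j| < δ then (1 : ℝ) else 0 := by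
  classical
  unfold En
  rw [card_filter, Nat.cast_sum, sum_product]
  simp

lemma En_nonneg {α : Type} (s : Finset α) (a : α → ℝ) (δ : ℝ) : 0 ≤ En s a δ := by
  unfold En; positivity

lemma En_map {α β : Type} (s : Finset α) (e : α ↪ β) (a : β → ℝ) (δ : ℝ) :
    En (s.map e) a δ = En s (fun i => a (e i)) δ := by
  rw [En_eq_sum, En_eq_sum]
  simp only [sum_map]

lemma En_succ (k r K n s : ℕ) (θ : Fin s → ℝ) (t δ : ℝ) :
    En (II r K n (s + 1)) (Sg k (Fin.snoc (α := fun _ => ℝ) θ t)) δ =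
      En (II r K n s ×ˢ XX r K n s) (fun p => Sg k θ p.1 + ((p.2:ℝ) + t) ^ k) δ := by
  show En ((II r K n s ×ˢ XX r K n s).map (snocEmb s)) _ _ = _
  rw [En_map]
  congr 1
  funext p
  exact Sg_snoc k θ t p

/-! ### sizes -/

lemma PP_real (r n : ℕ) : ((PP r n : ℕ) : ℝ) = ((2:ℝ) ^ n) ^ r := by
  unfold PP; push_cast; ring

lemma QQ_real (r n : ℕ) : ((QQ r n : ℕ) : ℝ) = ((2:ℝ) ^ n) ^ (r - 1) := by
  unfold QQ; push_cast; ring

lemma PP_pos (r n : ℕ) : 1 ≤ PP r n := Nat.one_le_pow _ _ (by positivity)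

lemma QQ_pos (r n : ℕ) : 1 ≤ QQ r n := Nat.one_le_pow _ _ (by positivity)

lemma PP_eq (r n : ℕ) (hr : 1 ≤ r) : PP r n = QQ r n * 2 ^ n := by
  unfold PP QQ
  rw [← pow_succ]
  congr 1
  omega

lemma QQ_le (r n : ℕ) : QQ r n ≤ PP r n := by
  unfold PP QQ
  exact Nat.pow_le_pow_right (by positivity) (by omega)

lemma card_II (r K n s : ℕ) (hK : 1 ≤ K) : ((II r K n s).card : ℝ) ≤ K * (PP r n : ℝ) ^ s := by
  induction s with
  | zero => simp [II]; exact_mod_cast hK
  | succ s ih =>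
    show (((II r K n s ×ˢ XX r K n s).map (snocEmb s)).card : ℝ) ≤ _
    rw [card_map, card_product]
    push_cast
    rcases Nat.eq_zero_or_pos s with rfl | hs
    · simp only [II, card_singleton, XX, Nat.card_Ico, Nat.cast_one, one_mul, zero_add, pow_one]
      have : K * PP r n - PP r n ≤ K * PP r n := Nat.sub_le _ _
      exact_mod_cast this
    · have hX : ((XX r K n s).card : ℝ) ≤ PP r n := by
        obtain ⟨s', rfl⟩ : ∃ s', s = s' + 1 := ⟨s - 1, by omega⟩
        cases s' with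
        | zero =>
          simp only [XX, Nat.card_Ico, zero_add]
          have := QQ_le r n
          have h2 : QQ r n + QQ r n - QQ r n ≤ PP r n := by omega
          exact_mod_cast h2
        | succ s' =>
          simp only [XX, Nat.card_Ico]
          have h2 : PP r n + PP r n - PP r n ≤ PP r n := by omega
          exact_mod_cast h2
      calc ((II r K n s).card : ℝ) * ((XX r K n s).card : ℝ)
          ≤ (K * (PP r n : ℝ) ^ s) * PP r n := by
            apply mul_le_mul ih hX (by positivity) (by positivity)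
        _ = K * (PP r n : ℝ) ^ (s + 1) := by ring

/-! ### growth -/

/-- logarithms and constants are at most `2^n` -/
lemma growth (C : ℝ) (r : ℕ) : ∀ᶠ n : ℕ in atTop, C * (1 + Real.log (PP r n)) ≤ (2:ℝ) ^ n := by
  have h1 : Tendsto (fun n : ℕ => ((n:ℝ) ^ 1) / (2:ℝ) ^ n) atTop (nhds 0) :=
    tendsto_pow_const_div_const_pow_of_one_lt 1 (by norm_num)
  have h2 : Tendsto (fun n : ℕ => ((n:ℝ) ^ 0) / (2:ℝ) ^ n) atTop (nhds 0) :=
    tendsto_pow_const_div_const_pow_of_one_lt 0 (by norm_num)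
  have h3 : Tendsto (fun n : ℕ => C * (((n:ℝ) ^ 0) / (2:ℝ) ^ n +
      (r * Real.log 2) * (((n:ℝ) ^ 1) / (2:ℝ) ^ n))) atTop (nhds (C * (0 + (r * Real.log 2) * 0))) :=
    (h2.add (h1.const_mul _)).const_mul _
  have h4 : (0:ℝ) < 1 := one_pos
  have h5 := h3.eventually_lt_const (u := 1) (by simp)
  filter_upwards [h5] with n hn
  have h2n : (0:ℝ) < 2 ^ n := by positivity
  have e1 : Real.log (PP r n) = r * (n * Real.log 2) := by
    rw [PP_real, Real.log_pow, Real.log_pow]
  rw [e1]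
  have e2 : C * (1 + r * (n * Real.log 2)) =
      (C * (((n:ℝ) ^ 0) / (2:ℝ) ^ n + (r * Real.log 2) * (((n:ℝ) ^ 1) / (2:ℝ) ^ n))) * 2 ^ n := by
    field_simp
  rw [e2]
  nlinarith

lemma growth' (C : ℝ) : ∀ᶠ n : ℕ in atTop, C ≤ (2:ℝ) ^ n := by
  have := growth C 0
  filter_upwards [this] with n hn
  simpa [PP] using hn

/-! ### measurability -/

lemma meas_count {β : Type} [MeasurableSpace β] {ι : Type} (S : Finset ι) (q : ι → β → Prop)
    [∀ i b, Decidable (q i b)] (hq : ∀ i ∈ S, MeasurableSet {b | q i b}) :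
    Measurable (fun b => ∑ i ∈ S, if q i b then (1:ℝ) else 0) := by
  apply Finset.measurable_sum
  intro i hi
  exact Measurable.ite (hq i hi) measurable_const measurable_const

lemma card_filter_eq {ι : Type} (S : Finset ι) (q : ι → Prop) [DecidablePred q] :
    (((S.filter q).card : ℕ) : ℝ) = ∑ i ∈ S, if q i then (1:ℝ) else 0 := by
  rw [card_filter]; push_cast; rfl

lemma meas_card {β : Type} [MeasurableSpace β] {ι : Type} (S : Finset ι) (q : ι → β → Prop)
    [∀ b, DecidablePred fun i => q i b] (hq : ∀ i ∈ S, MeasurableSet {b | q i b}) :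
    Measurable (fun b => ((S.filter (fun i => q i b)).card : ℝ)) := by
  classical
  have : (fun b => ((S.filter (fun i => q i b)).card : ℝ)) =
      fun b => ∑ i ∈ S, if q i b then (1:ℝ) else 0 := by
    funext b
    rw [card_filter_eq]
  rw [this]
  apply Finset.measurable_sum
  intro i hi
  exact Measurable.ite (hq i hi) measurable_const measurable_const

lemma integrable_of_bdd (f : ℝ → ℝ) (hf : Measurable f) (C : ℝ) (h0 : ∀ x, 0 ≤ f x)
    (hC : ∀ x, f x ≤ C) : IntegrableOn f (Set.Ico (0:ℝ) 1) := by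
  apply Measure.integrableOn_of_bounded (M := C) (by simp) hf.aestronglyMeasurable
  refine Filter.Eventually.of_forall fun x => ?_
  rw [Real.norm_of_nonneg (h0 x)]
  exact hC x

lemma meas_eventually {β : Type} [MeasurableSpace β] (q : ℕ → β → Prop)
    (hq : ∀ n, MeasurableSet {b | q n b}) : MeasurableSet {b | ∀ᶠ n in atTop, q n b} := by
  have : {b | ∀ᶠ n in atTop, q n b} = ⋃ N : ℕ, ⋂ n : ℕ, ⋂ _ : N ≤ n, {b | q n b} := by
    ext b
    simp [Filter.eventually_atTop]
  rw [this]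
  exact MeasurableSet.iUnion fun N => MeasurableSet.iInter fun n =>
    MeasurableSet.iInter fun _ => hq n

lemma cont_Sg (k s : ℕ) (x : Fin s → ℕ) : Continuous (fun θ : Fin s → ℝ => Sg k θ x) := by
  unfold Sg
  fun_prop

lemma cont_snoc (s : ℕ) (θ : Fin s → ℝ) :
    Continuous (fun t : ℝ => (Fin.snoc (α := fun _ => ℝ) θ t : Fin (s + 1) → ℝ)) := by
  apply continuous_pi
  intro i
  refine Fin.lastCases ?_ (fun j => ?_) i
  · simp only [Fin.snoc_last]; exact continuous_id
  · simp only [Fin.snoc_castSucc]; exact continuous_const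

lemma meas_En (k r K n s : ℕ) (δ : ℝ) :
    Measurable (fun θ : Fin s → ℝ => En (II r K n s) (Sg k θ) δ) := by
  unfold En
  classical
  apply meas_card (q := fun (p : (Fin s → ℕ) × (Fin s → ℕ)) (θ : Fin s → ℝ) =>
    |Sg k θ p.1 - Sg k θ p.2| < δ)
  intro p _
  exact (isOpen_lt (((cont_Sg k s p.1).sub (cont_Sg k s p.2)).abs) continuous_const).measurableSet

lemma En_le_sq {α : Type} (s : Finset α) (a : α → ℝ) (δ : ℝ) : En s a δ ≤ (s.card : ℝ) ^ 2 := by
  unfold En
  have : ((s ×ˢ s).filter (fun p : α × α => |a p.1 - a p.2| < δ)).card ≤ s.card * s.card := by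
    rw [← card_product]; exact card_filter_le _ _
  rw [sq]
  exact_mod_cast this

end Pool.Agent.Helper91K1.WS
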