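import Pool.Agent.Helper91K1.WS.Stm

set_option autoImplicit false

namespace Pool.Agent.Helper91K1.WS

open Finset MeasureTheory Filter

theorem taskB : TaskB := by
  intro Y R hm h0 hi hR
  obtain ⟨N, hN⟩ := eventually_atTop.1 hR
  set μ : Measure ℝ := volume.restrict (Set.Ico (0:ℝ) 1) with hμ
  set s : ℕ → Set ℝ := fun n => if N ≤ n then {θ | 2 ^ n * R n ≤ Y n θ} else ∅ with hs
  have hb : ∀ n, μ (s n) ≤ ENNReal.ofReal ((1 / 2 : ℝ) ^ n) := by
    intro n
    by_cases hn : N ≤ n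
    · obtain ⟨hRn, hYn⟩ := hN n hn
      have h1 := mul_meas_ge_le_integral_of_nonneg (μ := μ) (f := Y n)
        (Eventually.of_forall (h0 n)) (hi n) (2 ^ n * R n)
      have h2 : 2 ^ n * R n * μ.real {θ | 2 ^ n * R n ≤ Y n θ} ≤ R n := h1.trans hYn
      have h3 : μ.real {θ | 2 ^ n * R n ≤ Y n θ} ≤ (1 / 2 : ℝ) ^ n := by
        have h4 : 2 ^ n * μ.real {θ | 2 ^ n * R n ≤ Y n θ} ≤ 1 := by
          have : R n * (2 ^ n * μ.real {θ | 2 ^ n * R n ≤ Y n θ}) ≤ R n * 1 := by linarith
          exact le_of_mul_le_mul_left this hRn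
        rw [one_div, inv_pow]
        rw [← one_div, le_div_iff₀ (by positivity)]
        linarith
      have h5 : μ (s n) = ENNReal.ofReal (μ.real {θ | 2 ^ n * R n ≤ Y n θ}) := by
        rw [hs]
        simp only [hn, if_true]
        rw [ofReal_measureReal]
      rw [h5]
      exact ENNReal.ofReal_le_ofReal h3
    · have : s n = ∅ := by simp only [hs, hn, if_false]
      rw [this, measure_empty]
      exact bot_le
  have hsum : ∑' n, μ (s n) ≠ ⊤ := by
    have h1 : Summable fun n : ℕ => (1 / 2 : ℝ) ^ n := summable_geometric_two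
    refine ne_top_of_le_ne_top ?_ (ENNReal.tsum_le_tsum hb)
    rw [← ENNReal.ofReal_tsum_of_nonneg (fun n => by positivity) h1]
    exact ENNReal.ofReal_ne_top
  filter_upwards [ae_eventually_notMem hsum] with θ hθ
  filter_upwards [hθ, eventually_ge_atTop N] with n h1 h2
  simp only [hs, h2, if_true, Set.mem_ofPred_eq, not_le] at h1
  exact h1.le

theorem taskZ : TaskZ := by
  intro s p hp
  have h1 : ∀ m : Fin s → ℤ, ∀ᵐ θ : Fin s → ℝ,
      (∀ i, (θ - fun i => (m i : ℝ)) i ∈ Set.Ico (0:ℝ) 1) → p (θ - fun i => (m i : ℝ)) := by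
    intro m
    exact (measurePreserving_sub_right (volume : Measure (Fin s → ℝ))
      (fun i => (m i : ℝ))).quasiMeasurePreserving.ae hp
  have h2 := ae_all_iff.2 h1
  filter_upwards [h2] with θ hθ
  have h3 := hθ (fun i => ⌊θ i⌋)
  have h4 : (θ - fun i => ((⌊θ i⌋ : ℤ) : ℝ)) = fun i => Int.fract (θ i) := by
    funext i
    exact Int.self_sub_floor (θ i)
  rw [h4] at h3
  exact h3 fun i => ⟨Int.fract_nonneg _, Int.fract_lt_one _⟩

end Pool.Agent.Helper91K1.WS
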