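import Pool.Agent.Helper91K1.WS.Main2

set_option autoImplicit false

namespace Pool.Agent.Helper91K1.WS

open Finset MeasureTheory Filter

/-- one scale: an exceptional real gives an exceptional integer -/
lemma scale_exc (k r B K n j : ℕ) (δ : ℝ) (hjk : j ≤ k)
    (hB : Af k * 2 ^ (r * k) + 1 ≤ B) (hδ : 0 < δ) (hδ1 : δ ≤ 1) (θ : Fin (k + j) → ℝ) (τ : ℝ)
    (hτ1 : (Af k : ℝ) * (PP r n : ℝ) ^ k ≤ τ) (hτ2 : τ < (Af k : ℝ) * (PP r (n + 1) : ℝ) ^ k)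
    (hno : ∀ x ∈ II r K n (k + j), ((j:ℝ) + 2) * δ ≤ |Sg k θ x - τ|) :
    ⌊τ / δ⌋ ∈ Bad k r B K n δ j θ := by
  set A : ℝ := (Af k : ℝ) with hA
  have hAe : A = (2 * k + 1) * 2 ^ k + 3 ^ k + 1 := by rw [hA]; unfold Af; push_cast; ring
  have hBr : A * 2 ^ (r * k) + 1 ≤ (B:ℝ) := by
    have : ((Af k * 2 ^ (r * k) + 1 : ℕ) : ℝ) ≤ (B:ℝ) := by exact_mod_cast hB
    push_cast at this
    exact this
  set P : ℝ := (PP r n : ℝ) with hP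
  have hP1 : 1 ≤ P := by rw [hP]; exact_mod_cast PP_pos r n
  have hPk : 1 ≤ P ^ k := one_le_pow₀ hP1
  have hτ2' : τ < A * 2 ^ (r * k) * P ^ k := by
    rw [PP_succ, mul_pow, ← pow_mul] at hτ2
    linarith
  set m : ℤ := ⌊τ / δ⌋ with hm
  have hm1 : (m:ℝ) * δ ≤ τ := by
    have := Int.floor_le (τ / δ)
    rwa [← hm, le_div_iff₀ hδ] at this
  have hm2 : τ < ((m:ℝ) + 1) * δ := by
    have := Int.lt_floor_add_one (τ / δ)
    rwa [← hm, div_lt_iff₀ hδ] at this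
  unfold Bad
  rw [mem_filter, mem_VV _ _ _ _ _ _ hδ]
  refine ⟨⟨?_, ?_⟩, fun x hx => ?_⟩
  · have hjr : (j:ℝ) ≤ k := by exact_mod_cast hjk
    have h1 : ((k:ℝ) + j + 1) * 2 ^ k * P ^ k ≤ (2 * k + 1) * 2 ^ k * P ^ k := by
      have : (k:ℝ) + j + 1 ≤ 2 * k + 1 := by linarith
      gcongr
    have h2 : (2 * (k:ℝ) + 1) * 2 ^ k * P ^ k = A * P ^ k - 3 ^ k * P ^ k - P ^ k := by
      rw [hAe]; ring
    have h3 : 0 ≤ (3:ℝ) ^ k * P ^ k := by positivity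
    have h4 : τ - δ < m * δ := by linarith
    linarith
  · have h4 : (A * 2 ^ (r * k) + 1) * P ^ k ≤ B * P ^ k :=
      mul_le_mul_of_nonneg_right hBr (by positivity)
    have h5 : (A * 2 ^ (r * k) + 1) * P ^ k = A * 2 ^ (r * k) * P ^ k + P ^ k := by ring
    linarith
  · have h1 := hno x hx
    have h2 : |Sg k θ x - τ| ≤ |Sg k θ x - m * δ| + |(m:ℝ) * δ - τ| := abs_sub_le _ _ _
    have h3 : |(m:ℝ) * δ - τ| ≤ δ := by
      rw [abs_le]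
      constructor <;> linarith
    have h4 : ((j:ℝ) + 2) * δ = (j + 1) * δ + δ := by ring
    linarith

lemma vol_scale (k r B K n j : ℕ) (δ : ℝ) (hjk : j ≤ k)
    (hB : Af k * 2 ^ (r * k) + 1 ≤ B) (hδ : 0 < δ) (hδ1 : δ ≤ 1) (θ : Fin (k + j) → ℝ) :
    volume {τ : ℝ | (Af k : ℝ) * (PP r n : ℝ) ^ k ≤ τ ∧ τ < (Af k : ℝ) * (PP r (n + 1) : ℝ) ^ k ∧
      ∀ x ∈ II r K n (k + j), ((j:ℝ) + 2) * δ ≤ |Sg k θ x - τ|} ≤
    ENNReal.ofReal ((Bad k r B K n δ j θ).card : ℝ) := by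
  have hsub : {τ : ℝ | (Af k : ℝ) * (PP r n : ℝ) ^ k ≤ τ ∧
      τ < (Af k : ℝ) * (PP r (n + 1) : ℝ) ^ k ∧
      ∀ x ∈ II r K n (k + j), ((j:ℝ) + 2) * δ ≤ |Sg k θ x - τ|} ⊆
      ⋃ m ∈ Bad k r B K n δ j θ, Set.Ico ((m:ℝ) * δ) (((m:ℝ) + 1) * δ) := by
    intro τ hτ
    have h1 := scale_exc k r B K n j δ hjk hB hδ hδ1 θ τ hτ.1 hτ.2.1 hτ.2.2
    simp only [Set.mem_iUnion]
    refine ⟨⌊τ / δ⌋, h1, ?_, ?_⟩
    · have := Int.floor_le (τ / δ)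
      rwa [le_div_iff₀ hδ] at this
    · have := Int.lt_floor_add_one (τ / δ)
      rwa [div_lt_iff₀ hδ] at this
  refine (measure_mono hsub).trans ((measure_biUnion_finset_le _ _).trans ?_)
  have h2 : ∀ m ∈ Bad k r B K n δ j θ, volume (Set.Ico ((m:ℝ) * δ) (((m:ℝ) + 1) * δ)) ≤
      ENNReal.ofReal 1 := by
    intro m _
    rw [Real.volume_Ico]
    apply ENNReal.ofReal_le_ofReal
    linarith
  refine (sum_le_sum h2).trans ?_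
  rw [sum_const, nsmul_eq_mul, ENNReal.ofReal_one, mul_one, ENNReal.ofReal_natCast]

lemma PP_mono (r : ℕ) {m n : ℕ} (h : m ≤ n) : (PP r m : ℝ) ≤ PP r n := by
  rw [PP_real, PP_real]
  gcongr
  norm_num

theorem exc_of (hAE : TaskAE2) (hAV : TaskAV2) (hAR : TaskAR2) (hZ : TaskZ) (k j : ℕ)
    (hk : 2 ≤ k) (hj : 1 ≤ j) (hjk : j ≤ k) (ε : ℝ) (hε : 0 < ε) :
    ∃ c : ℝ, 0 < c ∧ ∀ᵐ θ : Fin (k + j) → ℝ, ∀ᶠ T : ℝ in atTop,
      volume {τ : ℝ | 0 < τ ∧ τ ≤ T ∧ ∀ x : Fin (k + j) → ℕ,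
        τ ^ (-c) ≤ |∑ i, ((x i : ℝ) + θ i) ^ k - τ|} ≤
      ENNReal.ofReal (T ^ (1 - (j:ℝ) / k + ε)) := by
  set b : ℕ := b2 k j with hb
  set r : ℕ := k + 1 + ⌈((b:ℝ) + 2) / ε⌉₊ with hr
  have hrε : (b:ℝ) + 2 ≤ r * ε := by
    have h1 : ((b:ℝ) + 2) / ε ≤ ⌈((b:ℝ) + 2) / ε⌉₊ := Nat.le_ceil _
    have h2 : (⌈((b:ℝ) + 2) / ε⌉₊ : ℝ) ≤ r := by
      have : ⌈((b:ℝ) + 2) / ε⌉₊ ≤ r := by omega
      exact_mod_cast this
    exact (div_le_iff₀ hε).mp (h1.trans h2)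
  refine ⟨1 / (((r * k : ℕ) : ℝ) + 1), by positivity, ?_⟩
  have hall := bads hAE hAV hAR k r (fun n => 1 / 2 ^ n) adm_two hk (by omega) j hj hjk
  have hz := hZ (k + j) (fun θ => pB2 k r (Bf k r) (Bf k r + 1) (fun n => 1 / 2 ^ n) j θ) hall
  filter_upwards [hz] with θ h
  set C' : ℕ := ∑ i, (⌊θ i⌋).natAbs with hC'
  obtain ⟨n0, hn0⟩ : ∃ n0 : ℕ, ∀ n, n0 ≤ n →
      ((Bad k r (Bf k r) (Bf k r + 1) n (1 / 2 ^ n) j (fun i => Int.fract (θ i))).card : ℝ) ≤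
      (PP r n : ℝ) ^ (k - j) * ((2:ℝ) ^ n) ^ b ∧ (C':ℝ) ≤ 2 ^ n ∧
      (∀ τ : ℝ, 0 < τ → τ ≤ ((Af k : ℝ) * 2 ^ (r * k)) * ((2:ℝ) ^ n) ^ (r * k) →
        ((k:ℝ) + 3) * (1 / 2 ^ n) ≤ τ ^ (-(1 / (((r * k : ℕ) : ℝ) + 1)))) := by
    have h1 := h
    unfold pB2 at h1
    rw [← eventually_atTop]
    filter_upwards [h1, growth' C',
      tol ((Af k : ℝ) * 2 ^ (r * k)) ((k:ℝ) + 3) (r * k) (by positivity) (by positivity)]
      with n e1 e3 e5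
    exact ⟨e1, e3, e5⟩
  set A0 : ℝ := (Af k : ℝ) * (PP r n0 : ℝ) ^ k with hA0
  have hA00 : 0 ≤ A0 := by positivity
  obtain ⟨n1, hn1⟩ : ∃ n1 : ℕ, ∀ n, n1 ≤ n → n0 ≤ n ∧ A0 ≤ (2:ℝ) ^ n ∧ (2:ℝ) ≤ 2 ^ n := by
    rw [← eventually_atTop]
    filter_upwards [growth' A0, growth' 2, eventually_ge_atTop n0] with n e1 e2 e3
    exact ⟨e3, e1, e2⟩
  filter_upwards [eventually_ge_atTop ((Af k : ℝ) * (PP r n1 : ℝ) ^ k)] with T hT
  obtain ⟨N, hN, hT1, hT2⟩ := exists_scale k r n1 (by omega) (by omega) T hT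
  obtain ⟨hN0, hNA, hN2⟩ := hn1 N hN
  have hA1 := one_le_Af k
  -- the covering
  let E : ℕ → Set ℝ := fun n => {τ : ℝ | (Af k : ℝ) * (PP r n : ℝ) ^ k ≤ τ ∧
    τ < (Af k : ℝ) * (PP r (n + 1) : ℝ) ^ k ∧
      ∀ x ∈ II r (Bf k r + 1) n (k + j), ((j:ℝ) + 2) * (1 / 2 ^ n) ≤
        |Sg k (fun i => Int.fract (θ i)) x - τ|}
  have hsub : {τ : ℝ | 0 < τ ∧ τ ≤ T ∧ ∀ x : Fin (k + j) → ℕ,
        τ ^ (-(1 / (((r * k : ℕ) : ℝ) + 1))) ≤ |∑ i, ((x i : ℝ) + θ i) ^ k - τ|} ⊆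
      Set.Ico 0 A0 ∪ ⋃ n ∈ Ico n0 (N + 1), E n := by
    rintro τ ⟨hτ0, hτT, hτ⟩
    by_cases hlt : τ < A0
    · exact Or.inl ⟨hτ0.le, hlt⟩
    right
    push Not at hlt
    obtain ⟨n, hn, hτ1, hτ2⟩ := exists_scale k r n0 (by omega) (by omega) τ hlt
    have hnN : n < N + 1 := by
      by_contra hcon
      push Not at hcon
      have h1 : (Af k : ℝ) * (PP r (N + 1) : ℝ) ^ k ≤ (Af k : ℝ) * (PP r n : ℝ) ^ k := by
        have := PP_mono r hcon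
        gcongr
      linarith
    simp only [Set.mem_iUnion]
    refine ⟨n, mem_Ico.mpr ⟨hn, hnN⟩, hτ1, hτ2, fun x hx => ?_⟩
    obtain ⟨-, hC, htol⟩ := hn0 n hn
    have hx2 : ∀ i, (0:ℤ) ≤ (x i : ℤ) - ⌊θ i⌋ := by
      intro i
      have h1 : (⌊θ i⌋).natAbs ≤ ∑ i, (⌊θ i⌋).natAbs :=
        single_le_sum (f := fun i => (⌊θ i⌋).natAbs) (fun _ _ => Nat.zero_le _) (mem_univ i)
      have h2 := II_ge r (Bf k r + 1) n (k + j) x hx i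
      have h3 : C' ≤ QQ r n := by
        have h4 : (C':ℝ) ≤ QQ r n := by
          rw [QQ_real]
          exact le_trans hC (le_self_pow₀ (one_le_pow₀ (by norm_num)) (by omega))
        exact_mod_cast h4
      omega
    have e : ∑ i, (((((x i : ℤ) - ⌊θ i⌋).toNat : ℕ) : ℝ) + θ i) ^ k =
        Sg k (fun i => Int.fract (θ i)) x := by
      unfold Sg
      refine sum_congr rfl fun i _ => ?_
      have h1 : ((((x i : ℤ) - ⌊θ i⌋).toNat : ℕ) : ℤ) = (x i : ℤ) - ⌊θ i⌋ :=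
        Int.toNat_of_nonneg (hx2 i)
      have h2 : ((((x i : ℤ) - ⌊θ i⌋).toNat : ℕ) : ℝ) = (x i : ℝ) - ⌊θ i⌋ := by
        exact_mod_cast congrArg (fun z : ℤ => (z : ℝ)) h1
      rw [h2]
      congr 1
      unfold Int.fract
      ring
    have h5 := hτ (fun i => ((x i : ℤ) - ⌊θ i⌋).toNat)
    rw [e] at h5
    refine le_trans (le_trans ?_ (htol τ hτ0 ?_)) h5
    · have : (j:ℝ) ≤ k := by exact_mod_cast hjk
      have h6 : (0:ℝ) < 1 / 2 ^ n := by positivity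
      nlinarith
    · rw [PP_succ, mul_pow, ← pow_mul, PP_real, ← pow_mul ((2:ℝ) ^ n)] at hτ2
      linarith
  -- the measure
  have hPN : (1:ℝ) ≤ (PP r N : ℝ) := by exact_mod_cast PP_pos r N
  set R : ℝ := (PP r N : ℝ) ^ (k - j) * ((2:ℝ) ^ N) ^ b with hR
  have hR1 : 1 ≤ R := by
    have h1 : (1:ℝ) ≤ (PP r N : ℝ) ^ (k - j) := one_le_pow₀ hPN
    have h2 : (1:ℝ) ≤ ((2:ℝ) ^ N) ^ b := one_le_pow₀ (by linarith)
    exact one_le_mul_of_one_le_of_one_le h1 h2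
  have hE : ∀ n ∈ Ico n0 (N + 1), volume (E n) ≤ ENNReal.ofReal R := by
    intro n hn
    rw [mem_Ico] at hn
    refine (vol_scale k r (Bf k r) (Bf k r + 1) n j (1 / 2 ^ n) hjk le_rfl (by positivity)
      (adm_two.1 n).2 _).trans ?_
    apply ENNReal.ofReal_le_ofReal
    refine (hn0 n hn.1).1.trans ?_
    have h1 := PP_mono r (show n ≤ N by omega)
    have h2 : (2:ℝ) ^ n ≤ 2 ^ N := pow_le_pow_right₀ (by norm_num) (by omega)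
    rw [hR]
    gcongr
  have hvol : volume {τ : ℝ | 0 < τ ∧ τ ≤ T ∧ ∀ x : Fin (k + j) → ℕ,
        τ ^ (-(1 / (((r * k : ℕ) : ℝ) + 1))) ≤ |∑ i, ((x i : ℝ) + θ i) ^ k - τ|} ≤
      ENNReal.ofReal (A0 + (N + 1) * R) := by
    refine (measure_mono hsub).trans ((measure_union_le _ _).trans ?_)
    rw [ENNReal.ofReal_add hA00 (by positivity)]
    apply add_le_add
    · rw [Real.volume_Ico, sub_zero]
    · refine (measure_biUnion_finset_le _ _).trans ((sum_le_sum hE).trans ?_)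
      rw [sum_const, nsmul_eq_mul, Nat.card_Ico,
        ENNReal.ofReal_mul (p := (N:ℝ) + 1) (q := R) (by positivity)]
      refine mul_le_mul' ?_ le_rfl
      rw [← ENNReal.ofReal_natCast]
      apply ENNReal.ofReal_le_ofReal
      have : N + 1 - n0 ≤ N + 1 := Nat.sub_le _ _
      exact_mod_cast this
  refine hvol.trans (ENNReal.ofReal_le_ofReal ?_)
  have hN3 : (N:ℝ) + 1 ≤ 2 ^ N := by
    have : N + 1 ≤ 2 ^ N := Nat.lt_two_pow_self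
    exact_mod_cast this
  have h1 : A0 + (N + 1) * R ≤ R * ((2:ℝ) ^ N) ^ 2 := by
    have h2 : A0 ≤ 2 ^ N * R := by nlinarith
    have h3 : ((N:ℝ) + 1) * R ≤ 2 ^ N * R := mul_le_mul_of_nonneg_right hN3 (by linarith)
    nlinarith
  refine h1.trans ?_
  have hL0 : (0:ℝ) < 2 ^ N := by positivity
  have hL1 : (1:ℝ) ≤ 2 ^ N := by linarith
  have hkpos : (0:ℝ) < k := by positivity
  have hjr : (j:ℝ) ≤ k := by exact_mod_cast hjk
  have he0 : 0 ≤ 1 - (j:ℝ) / k + ε := by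
    have : (j:ℝ) / k ≤ 1 := (div_le_one hkpos).mpr hjr
    linarith
  have h4 : R * ((2:ℝ) ^ N) ^ 2 = ((2:ℝ) ^ N) ^ ((r * (k - j) + b + 2 : ℕ) : ℝ) := by
    rw [hR, PP_real, Real.rpow_natCast]
    rw [← pow_mul ((2:ℝ) ^ N), ← pow_add, ← pow_add]
  rw [h4]
  calc ((2:ℝ) ^ N) ^ ((r * (k - j) + b + 2 : ℕ) : ℝ)
      ≤ ((2:ℝ) ^ N) ^ (((r * k : ℕ) : ℝ) * (1 - (j:ℝ) / k + ε)) := by
        apply Real.rpow_le_rpow_of_exponent_le hL1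
        push_cast [Nat.cast_sub hjk]
        have e1 : (r:ℝ) * k * (1 - (j:ℝ) / k + ε) = r * (k - j) + (r * ε) * k := by
          field_simp
        rw [e1]
        have hk1 : (1:ℝ) ≤ k := by exact_mod_cast (show 1 ≤ k by omega)
        have h5 : (r * ε) * 1 ≤ (r * ε) * k := mul_le_mul_of_nonneg_left hk1 (by positivity)
        linarith
    _ = (((2:ℝ) ^ N) ^ (r * k)) ^ (1 - (j:ℝ) / k + ε) := by
        rw [Real.rpow_mul hL0.le, Real.rpow_natCast]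
    _ ≤ T ^ (1 - (j:ℝ) / k + ε) := by
        apply Real.rpow_le_rpow (by positivity) _ he0
        refine le_trans ?_ hT1
        rw [PP_real, ← pow_mul ((2:ℝ) ^ N)]
        exact le_mul_of_one_le_left (by positivity) hA1

end Pool.Agent.Helper91K1.WS
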