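import Pool.Agent.Helper91K1.WS.Stm

/-!
# (F) Fubini: one more coordinate
-/

set_option autoImplicit false

namespace Pool.Agent.Helper91K1.WS

open Finset MeasureTheory Filter

/-- the first coordinates and the last one -/
lemma split_mp (s : ℕ) :
    MeasurePreserving (fun θ : Fin (s + 1) → ℝ =>
      ((fun i : Fin s => θ i.castSucc), θ (Fin.last s)))
      (volume : Measure (Fin (s + 1) → ℝ)) (volume.prod volume) := by
  have h1 := volume_preserving_piFinSuccAbove (fun _ : Fin (s + 1) => ℝ) (Fin.last s)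
  have h2 : MeasurePreserving (Prod.swap : ℝ × (Fin s → ℝ) → (Fin s → ℝ) × ℝ)
      (volume.prod volume) (volume.prod volume) := Measure.measurePreserving_swap
  have e : (fun θ : Fin (s + 1) → ℝ => ((fun i : Fin s => θ i.castSucc), θ (Fin.last s))) =
      Prod.swap ∘ MeasurableEquiv.piFinSuccAbove (fun _ : Fin (s + 1) => ℝ) (Fin.last s) := by
    funext θ
    refine Prod.ext ?_ ?_
    · funext i
      simp [MeasurableEquiv.piFinSuccAbove, Fin.insertNthEquiv, Fin.init]
    · simp [MeasurableEquiv.piFinSuccAbove, Fin.insertNthEquiv]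
  rw [e]
  exact h2.comp h1

theorem taskF : TaskF := by
  intro s p q _ hq hp h
  have hsnoc : ∀ θ : Fin (s + 1) → ℝ,
      Fin.snoc (α := fun _ => ℝ) (fun i : Fin s => θ i.castSucc) (θ (Fin.last s)) = θ :=
    fun θ => Fin.snoc_init_self (α := fun _ => ℝ) θ
  have hsm : Measurable fun z : (Fin s → ℝ) × ℝ => Fin.snoc (α := fun _ => ℝ) z.1 z.2 := by
    rw [measurable_pi_iff]
    intro i
    refine Fin.lastCases ?_ (fun j => ?_) i
    · simp only [Fin.snoc_last]
      exact measurable_snd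
    · simp only [Fin.snoc_castSucc]
      exact (measurable_pi_apply j).comp measurable_fst
  set R : (Fin s → ℝ) × ℝ → Prop := fun z =>
    (∀ i, z.1 i ∈ Set.Ico (0:ℝ) 1) → z.2 ∈ Set.Ico (0:ℝ) 1 →
      q (Fin.snoc (α := fun _ => ℝ) z.1 z.2) with hR
  have hRm : MeasurableSet {z | R z} := by
    have e : {z | R z} = ({z : (Fin s → ℝ) × ℝ | ∀ i, z.1 i ∈ Set.Ico (0:ℝ) 1} ∩
        {z | z.2 ∈ Set.Ico (0:ℝ) 1} ∩
        ((fun z : (Fin s → ℝ) × ℝ => Fin.snoc (α := fun _ => ℝ) z.1 z.2) ⁻¹' {θ | q θ})ᶜ)ᶜ := by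
      ext z
      simp only [hR, Set.mem_ofPred_eq, Set.mem_compl_iff, Set.mem_inter_iff, Set.mem_preimage]
      tauto
    rw [e]
    refine MeasurableSet.compl (((MeasurableSet.inter ?_ ?_)).inter (hsm hq).compl)
    · have e2 : {z : (Fin s → ℝ) × ℝ | ∀ i, z.1 i ∈ Set.Ico (0:ℝ) 1} =
          ⋂ i, (fun z : (Fin s → ℝ) × ℝ => z.1 i) ⁻¹' Set.Ico (0:ℝ) 1 := by
        ext z; simp
      rw [e2]
      exact MeasurableSet.iInter fun i =>
        ((measurable_pi_apply i).comp measurable_fst) measurableSet_Ico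
    · exact measurable_snd measurableSet_Ico
  have key : ∀ᵐ z ∂((volume : Measure (Fin s → ℝ)).prod (volume : Measure ℝ)), R z := by
    rw [Measure.ae_prod_iff_ae_ae hRm]
    filter_upwards [hp] with θ hθ
    by_cases hc : ∀ i, θ i ∈ Set.Ico (0:ℝ) 1
    · have h1 := (ae_restrict_iff' measurableSet_Ico).1 (h θ hc (hθ hc))
      filter_upwards [h1] with t ht _ ht'
      exact ht ht'
    · exact Eventually.of_forall fun t hc' => absurd hc' hc
  have h2 := (split_mp s).quasiMeasurePreserving.ae key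
  filter_upwards [h2] with θ hθ hall
  have h3 := hθ (fun i => hall _) (hall _)
  dsimp only at h3
  rwa [hsnoc] at h3

end Pool.Agent.Helper91K1.WS
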