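import Pool.Agent.Helper91K1.WS.Stm

set_option autoImplicit false

namespace Pool.Agent.Helper91K1.WS

open Finset MeasureTheory Filter

lemma g_pow_sub (a b : ℝ) (hb : 0 ≤ b) (hab : b ≤ a) (k : ℕ) :
    a ^ (k + 1) - b ^ (k + 1) ≤ (k + 1 : ℕ) * a ^ k * (a - b) := by
  induction k with
  | zero => simp
  | succ k ih =>
    have ha : 0 ≤ a := hb.trans hab
    have h1 : b * (a ^ (k + 1) - b ^ (k + 1)) ≤ a * ((k + 1 : ℕ) * a ^ k * (a - b)) := by
      have h0 : 0 ≤ a ^ (k + 1) - b ^ (k + 1) := by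
        have := pow_le_pow_left₀ hb hab (k + 1)
        linarith
      exact mul_le_mul hab ih h0 ha
    have h2 : a ^ (k + 1 + 1) - b ^ (k + 1 + 1) =
        a ^ (k + 1) * (a - b) + b * (a ^ (k + 1) - b ^ (k + 1)) := by ring
    rw [h2]
    push_cast at h1 ⊢
    have h3 : a * ((k + 1) * a ^ k * (a - b)) = (k + 1) * a ^ (k + 1) * (a - b) := by ring
    rw [h3] at h1
    linarith

/-- the first value of `f` which is at least `v` -/
lemma g_step (f : ℕ → ℝ) (a b : ℕ) (hab : a ≤ b) (v D : ℝ) (hD : 0 < D) (ha : f a ≤ v)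
    (hb : v ≤ f b) (hf : ∀ x, a ≤ x → x < b → f (x + 1) - f x ≤ D) :
    ∃ x, a ≤ x ∧ x ≤ b ∧ v ≤ f x ∧ f x < v + D := by
  classical
  have hex : ∃ x, a ≤ x ∧ v ≤ f x := ⟨b, hab, hb⟩
  set x := Nat.find hex with hx
  obtain ⟨h1, h2⟩ := Nat.find_spec hex
  have hxb : x ≤ b := Nat.find_min' hex ⟨hab, hb⟩
  refine ⟨x, h1, hxb, h2, ?_⟩
  rcases Nat.eq_or_lt_of_le h1 with h | h
  · rw [← hx] at h
    rw [← h]; linarith
  · rw [← hx] at h
    obtain ⟨y, hy⟩ : ∃ y, x = y + 1 := ⟨x - 1, by omega⟩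
    have h3 : ¬ (a ≤ y ∧ v ≤ f y) := Nat.find_min hex (by omega)
    have h4 : f y < v := by
      by_contra hc
      exact h3 ⟨by omega, not_lt.1 hc⟩
    have h5 := hf y (by omega) (by omega)
    rw [hy]
    linarith

theorem taskG : TaskG := by
  intro k P Q K J θ₀ θ₁ u h hk hQ hQP hK hθ₀ hθ₁ hu1 hu2 hJ hh
  classical
  obtain ⟨h00, h01⟩ := hθ₀
  obtain ⟨h10, h11⟩ := hθ₁
  obtain ⟨k', rfl⟩ : ∃ k', k = k' + 1 := ⟨k - 1, by omega⟩
  simp only [Nat.add_sub_cancel] at hJ hh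
  have hQ1 : (1:ℝ) ≤ Q := by exact_mod_cast hQ
  have hP1 : (1:ℝ) ≤ P := by exact_mod_cast hQ.trans hQP
  have hK2 : (2:ℝ) ≤ K := by exact_mod_cast hK
  have hKP : (2:ℝ) * P ≤ (K:ℝ) * P := by nlinarith
  have hKPn : P + 1 ≤ K * P := by nlinarith [hQ.trans hQP]
  set D : ℝ := ((k' + 1 : ℕ) : ℝ) * ((K:ℝ) * P) ^ k' with hD
  have hD0 : 0 < D := by positivity
  set f0 : ℕ → ℝ := fun x => ((x:ℝ) + θ₀) ^ (k' + 1) with hf0
  set f1 : ℕ → ℝ := fun x => ((x:ℝ) + θ₁) ^ (k' + 1) with hf1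
  -- the two step bounds
  have hs0 : ∀ x, P ≤ x → x < K * P - 1 → f0 (x + 1) - f0 x ≤ D := by
    intro x _ hx
    have hxr : (x:ℝ) + 1 + θ₀ ≤ (K:ℝ) * P := by
      have : (x:ℝ) + 1 + 1 ≤ ((K * P : ℕ) : ℝ) := by
        exact_mod_cast (by omega : x + 1 + 1 ≤ K * P)
      push_cast at this
      linarith
    have h1 := g_pow_sub ((x:ℝ) + 1 + θ₀) ((x:ℝ) + θ₀) (by positivity) (by linarith) k'
    have h2 : ((x:ℝ) + 1 + θ₀) ^ k' ≤ ((K:ℝ) * P) ^ k' :=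
      pow_le_pow_left₀ (by positivity) hxr k'
    simp only [hf0, hD]
    push_cast at h1 ⊢
    have h3 : (k' + 1 : ℝ) * ((x:ℝ) + 1 + θ₀) ^ k' ≤ (k' + 1) * ((K:ℝ) * P) ^ k' :=
      mul_le_mul_of_nonneg_left h2 (by positivity)
    have h4 : (x:ℝ) + 1 + θ₀ - (x + θ₀) = 1 := by ring
    rw [h4, mul_one] at h1
    linarith
  have hs1 : ∀ x, Q ≤ x → x < 2 * Q - 1 → f1 (x + 1) - f1 x ≤ h := by
    intro x _ hx
    have hxr : (x:ℝ) + 1 + θ₁ ≤ 2 * (Q:ℝ) := by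
      have : (x:ℝ) + 1 + 1 ≤ ((2 * Q : ℕ) : ℝ) := by
        exact_mod_cast (by omega : x + 1 + 1 ≤ 2 * Q)
      push_cast at this
      linarith
    have h1 := g_pow_sub ((x:ℝ) + 1 + θ₁) ((x:ℝ) + θ₁) (by positivity) (by linarith) k'
    have h2 : ((x:ℝ) + 1 + θ₁) ^ k' ≤ (2 * (Q:ℝ)) ^ k' :=
      pow_le_pow_left₀ (by positivity) hxr k'
    refine le_trans ?_ hh
    simp only [hf1]
    push_cast at h1 ⊢
    have h3 : (k' + 1 : ℝ) * ((x:ℝ) + 1 + θ₁) ^ k' ≤ (k' + 1) * (2 * (Q:ℝ)) ^ k' :=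
      mul_le_mul_of_nonneg_left h2 (by positivity)
    have h4 : (x:ℝ) + 1 + θ₁ - (x + θ₁) = 1 := by ring
    rw [h4, mul_one] at h1
    linarith
  have hh0 : 0 < h := lt_of_lt_of_le (by positivity) hh
  -- the end values
  have hc2 : ((2 * Q - 1 : ℕ) : ℝ) = 2 * (Q:ℝ) - 1 := by
    rw [Nat.cast_sub (by omega)]; push_cast; ring
  have hcK : ((K * P - 1 : ℕ) : ℝ) = (K:ℝ) * P - 1 := by
    rw [Nat.cast_sub (by omega)]; push_cast; ring
  have e1 : f1 (2 * Q - 1) ≤ (2 * (Q:ℝ)) ^ (k' + 1) := by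
    simp only [hf1, hc2]
    exact pow_le_pow_left₀ (by linarith) (by linarith) _
  have e2 : (2 * (Q:ℝ) - 1) ^ (k' + 1) ≤ f1 (2 * Q - 1) := by
    simp only [hf1, hc2]
    exact pow_le_pow_left₀ (by linarith) (by linarith) _
  have e3 : f1 Q ≤ ((Q:ℝ) + 1) ^ (k' + 1) := by
    simp only [hf1]
    exact pow_le_pow_left₀ (by linarith) (by linarith) _
  have e3' : 0 ≤ f1 Q := by simp only [hf1]; positivity
  have e4 : f0 P ≤ ((P:ℝ) + 1) ^ (k' + 1) := by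
    simp only [hf0]
    exact pow_le_pow_left₀ (by linarith) (by linarith) _
  have e5 : ((K:ℝ) * P - 1) ^ (k' + 1) ≤ f0 (K * P - 1) := by
    simp only [hf0, hcK]
    exact pow_le_pow_left₀ (by linarith) (by linarith) _
  -- the pairs
  have key : ∀ j : ℕ, j < J → ∃ x : ℕ × ℕ, x ∈ (Ico P (K * P) ×ˢ Ico Q (2 * Q)).filter
      (fun x : ℕ × ℕ => ((x.1:ℝ) + θ₀) ^ (k' + 1) + ((x.2:ℝ) + θ₁) ^ (k' + 1) ∈
        Set.Ico u (u + h)) ∧
      u - f1 (2 * Q - 1) + j * D ≤ f0 x.1 ∧ f0 x.1 < u - f1 (2 * Q - 1) + j * D + D := by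
    intro j hj
    have hjJ : ((j:ℝ) + 1) * D ≤ J * D := by
      have : ((j:ℝ) + 1) ≤ J := by exact_mod_cast hj
      exact mul_le_mul_of_nonneg_right this hD0.le
    have hj0 : 0 ≤ (j:ℝ) * D := by positivity
    obtain ⟨x0, ha0, hb0, hc0, hd0⟩ := g_step f0 P (K * P - 1) (by omega)
      (u - f1 (2 * Q - 1) + j * D) D hD0 (by linarith) (by linarith) hs0
    obtain ⟨x1, ha1, hb1, hc1, hd1⟩ := g_step f1 Q (2 * Q - 1) (by omega)
      (u - f0 x0) h hh0 (by linarith) (by linarith) hs1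
    refine ⟨(x0, x1), ?_, hc0, hd0⟩
    rw [mem_filter, mem_product, mem_Ico, mem_Ico]
    refine ⟨⟨⟨ha0, ?_⟩, ⟨ha1, ?_⟩⟩, ?_, ?_⟩
    · show x0 < K * P
      omega
    · show x1 < 2 * Q
      omega
    · show u ≤ f0 x0 + f1 x1
      linarith
    · show f0 x0 + f1 x1 < u + h
      linarith
  choose! x hx1 hx2 hx3 using key
  have hinj : Set.InjOn x (Finset.range J : Set ℕ) := by
    intro i hi j hj hij
    have hi' : i < J := by simpa using hi
    have hj' : j < J := by simpa using hj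
    by_contra hne
    rcases Nat.lt_or_gt_of_ne hne with hlt | hlt
    · have h1 := hx3 i hi'
      have h2 := hx2 j hj'
      rw [hij] at h1
      have h3 : ((i:ℝ) + 1) * D ≤ j * D :=
        mul_le_mul_of_nonneg_right (by exact_mod_cast hlt) hD0.le
      linarith
    · have h1 := hx3 j hj'
      have h2 := hx2 i hi'
      rw [hij] at h2
      have h3 : ((j:ℝ) + 1) * D ≤ i * D :=
        mul_le_mul_of_nonneg_right (by exact_mod_cast hlt) hD0.le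
      linarith
  have hcard := Finset.card_le_card_of_injOn x (s := Finset.range J)
    (fun j hj => hx1 j (by simpa using hj)) hinj
  rw [card_range] at hcard
  exact_mod_cast hcard

end Pool.Agent.Helper91K1.WS
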