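import Mathlib

/-!
# Waring's problem with shifts for almost all shifts: statements of the pieces

`f_θ(x) = (x + θ)^k`. The shifts `θ` are random, uniform on `[0,1)`, one new shift in each step.
-/

set_option autoImplicit false

namespace Pool.Agent.Helper91K1.WS

open Finset MeasureTheory Filter

/-- number of ordered pairs of the family `a i`, `i ∈ s`, at distance less than `δ` -/
noncomputable def En {α : Type} (s : Finset α) (a : α → ℝ) (δ : ℝ) : ℝ :=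
  (((s ×ˢ s).filter (fun p : α × α => |a p.1 - a p.2| < δ)).card : ℝ)

/-- the tent function, `T a v = |[0,a) ∩ ([0,a) + v)|` -/
noncomputable def T (a v : ℝ) : ℝ := max 0 (a - |v|)

/-- the kernel `W`; its integral is zero -/
noncomputable def W (δ : ℝ) (N : ℕ) (v : ℝ) : ℝ := T δ v - T (N * δ) v / (N : ℝ) ^ 2

/-- (M) the total measure of the shifts for which a difference is near a given number -/
def TaskM : Prop := ∀ (k M H : ℕ) (v δ : ℝ), 2 ≤ k → 1 ≤ M → 1 ≤ H → 0 < δ →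
  ∑ x ∈ Ico M (M + H), ∑ y ∈ (Ico M (M + H)).erase x,
    (volume {θ : ℝ | θ ∈ Set.Ico (0:ℝ) 1 ∧ |((x:ℝ) + θ) ^ k - ((y:ℝ) + θ) ^ k - v| < δ}).toReal ≤
      2 * δ * (1 + Real.log H) / (M:ℝ) ^ (k - 2)

/-- (E) mean value of the energy after one more random step -/
def TaskE : Prop := ∀ (α : Type) (s : Finset α) (a : α → ℝ) (k M H : ℕ) (δ : ℝ),
  2 ≤ k → 1 ≤ M → 1 ≤ H → 0 < δ →
  ∫ θ in Set.Ico (0:ℝ) 1, En (s ×ˢ Ico M (M + H)) (fun p => a p.1 + ((p.2:ℝ) + θ) ^ k) δ ≤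
    H * En s a δ + 2 * δ * (1 + Real.log H) / (M:ℝ) ^ (k - 2) * (s.card : ℝ) ^ 2

/-- (R) mean number of exceptional integers after one more random step -/
def TaskR : Prop := ∀ (B V : Finset ℤ) (k M H : ℕ) (δ : ℝ), 2 ≤ k → 1 ≤ M → 1 ≤ H → 0 < δ →
  (H:ℝ) ^ 2 * ∫ θ in Set.Ico (0:ℝ) 1,
    ((V.filter (fun m => ∀ x ∈ Ico M (M + H), m - ⌊((x:ℝ) + θ) ^ k / δ⌋ ∈ B)).card : ℝ) ≤
    H * (B.card : ℝ) + 2 * δ * (1 + Real.log H) / (M:ℝ) ^ (k - 2) * (B.card : ℝ) ^ 2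

/-- (S) the number of pairs with difference in an interval of length `2 N δ` -/
def TaskS : Prop := ∀ (α : Type) (s : Finset α) (a : α → ℝ) (N : ℕ) (δ c : ℝ), 0 < δ →
  (((s ×ˢ s).filter (fun p : α × α => |a p.1 - a p.2 - c| < N * δ)).card : ℝ) ≤
    (2 * N + 2) * En s a δ

/-- (W) mean value of the sum of the kernel over the pairs after one more random step -/
def TaskW : Prop := ∀ (α : Type) (s : Finset α) (a : α → ℝ) (k M H N : ℕ) (δ : ℝ),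
  2 ≤ k → 1 ≤ M → 1 ≤ H → 1 ≤ N → 0 < δ →
  ∫ θ in Set.Ico (0:ℝ) 1, ∑ p ∈ s ×ˢ Ico M (M + H), ∑ q ∈ s ×ˢ Ico M (M + H),
      W δ N ((a p.1 + ((p.2:ℝ) + θ) ^ k) - (a q.1 + ((q.2:ℝ) + θ) ^ k)) ≤
    δ * En s a δ * (H + 4 * δ * (N + 1) * (1 + Real.log H) / (M:ℝ) ^ (k - 2))

/-- (T) the measure of the `t` with `[t, t + δ)` empty, if all `[t, t + N δ)` have many elements -/
def TaskT : Prop := ∀ (ι : Type) (J : Finset ι) (b : ι → ℝ) (δ A B G : ℝ) (N : ℕ),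
  0 < δ → 1 ≤ N → 0 < G → A ≤ B →
  (∀ t ∈ Set.Icc (A - N * δ) B,
    G * N ≤ ((J.filter (fun j => b j ∈ Set.Ico t (t + N * δ))).card : ℝ)) →
  G ^ 2 * (volume {t : ℝ | t ∈ Set.Icc A B ∧ ∀ j ∈ J, b j ∉ Set.Ico t (t + δ)}).toReal ≤
    ∑ i ∈ J, ∑ j ∈ J, W δ N (b i - b j)

/-- (V) mean number of exceptional integers after the decisive random step -/
def TaskV : Prop := ∀ (α : Type) (s : Finset α) (a : α → ℝ) (k M H N : ℕ) (δ A B G : ℝ)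
  (V : Finset ℤ),
  2 ≤ k → 1 ≤ M → 1 ≤ H → 1 ≤ N → 0 < δ → 0 < G → A ≤ B →
  (∀ m ∈ V, A ≤ m * δ ∧ (m + 1) * δ ≤ B) →
  (∀ θ ∈ Set.Ico (0:ℝ) 1, ∀ t ∈ Set.Icc (A - N * δ) B,
    G * N ≤ (((s ×ˢ Ico M (M + H)).filter
      (fun p : α × ℕ => a p.1 + ((p.2:ℝ) + θ) ^ k ∈ Set.Ico t (t + N * δ))).card : ℝ)) →
  G ^ 2 * ∫ θ in Set.Ico (0:ℝ) 1,
    ((V.filter (fun m : ℤ => ∀ p ∈ s ×ˢ Ico M (M + H),
      2 * δ ≤ |a p.1 + ((p.2:ℝ) + θ) ^ k - m * δ|)).card : ℝ) ≤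
    En s a δ * (H + 4 * δ * (N + 1) * (1 + Real.log H) / (M:ℝ) ^ (k - 2))

/-- (G) two variables: the greedy lower bound -/
def TaskG : Prop := ∀ (k P Q K J : ℕ) (θ₀ θ₁ u h : ℝ), 2 ≤ k → 1 ≤ Q → Q ≤ P → 2 ≤ K →
  θ₀ ∈ Set.Icc (0:ℝ) 1 → θ₁ ∈ Set.Icc (0:ℝ) 1 →
  ((P:ℝ) + 1) ^ k + (2 * (Q:ℝ)) ^ k ≤ u → u ≤ ((K:ℝ) * P - 1) ^ k →
  (J:ℝ) * (k * ((K:ℝ) * P) ^ (k - 1)) ≤ (2 * (Q:ℝ) - 1) ^ k - ((Q:ℝ) + 1) ^ k →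
  k * (2 * (Q:ℝ)) ^ (k - 1) ≤ h →
  (J:ℝ) ≤ (((Ico P (K * P) ×ˢ Ico Q (2 * Q)).filter (fun x : ℕ × ℕ =>
    ((x.1:ℝ) + θ₀) ^ k + ((x.2:ℝ) + θ₁) ^ k ∈ Set.Ico u (u + h))).card : ℝ)

/-- (B) Borel-Cantelli -/
def TaskB : Prop := ∀ (Y : ℕ → ℝ → ℝ) (R : ℕ → ℝ), (∀ n, Measurable (Y n)) →
  (∀ n θ, 0 ≤ Y n θ) → (∀ n, IntegrableOn (Y n) (Set.Ico 0 1)) →
  (∀ᶠ n in atTop, 0 < R n ∧ ∫ θ in Set.Ico (0:ℝ) 1, Y n θ ≤ R n) →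
  ∀ᵐ θ ∂(volume.restrict (Set.Ico (0:ℝ) 1)), ∀ᶠ n in atTop, Y n θ ≤ 2 ^ n * R n

/-- (F) Fubini: one more coordinate -/
def TaskF : Prop := ∀ (s : ℕ) (p : (Fin s → ℝ) → Prop) (q : (Fin (s + 1) → ℝ) → Prop),
  MeasurableSet {θ | p θ} → MeasurableSet {θ | q θ} →
  (∀ᵐ θ : Fin s → ℝ, (∀ i, θ i ∈ Set.Ico (0:ℝ) 1) → p θ) →
  (∀ θ : Fin s → ℝ, (∀ i, θ i ∈ Set.Ico (0:ℝ) 1) → p θ →
    ∀ᵐ t ∂(volume.restrict (Set.Ico (0:ℝ) 1)), q (Fin.snoc (α := fun _ => ℝ) θ t)) →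
  ∀ᵐ θ : Fin (s + 1) → ℝ, (∀ i, θ i ∈ Set.Ico (0:ℝ) 1) → q θ

/-- (Z) periodicity: from the unit cube to all of `ℝ^s` -/
def TaskZ : Prop := ∀ (s : ℕ) (p : (Fin s → ℝ) → Prop),
  (∀ᵐ θ : Fin s → ℝ, (∀ i, θ i ∈ Set.Ico (0:ℝ) 1) → p θ) →
  ∀ᵐ θ : Fin s → ℝ, p (fun i => Int.fract (θ i))

end Pool.Agent.Helper91K1.WS
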