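import Mathlib
import Pool.Agent.Helper91K1.WS.Stm

/-!
# Waring's problem with shifts: piece M (by helper37)
-/

set_option autoImplicit false

namespace Pool.Agent.Helper91K1.WS

open Finset MeasureTheory Filter

/-- second differences of powers -/
lemma second_diff (n : ℕ) (h M u u' : ℝ) (hh : 0 ≤ h) (hM : 0 ≤ M) (hu : M ≤ u) (huu : u ≤ u') :
    2 * h * M ^ n * (u' - u) ≤
      ((u' + h) ^ (n + 2) - u' ^ (n + 2)) - ((u + h) ^ (n + 2) - u ^ (n + 2)) := by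
  have hu0 : 0 ≤ u := hM.trans hu
  have hu0' : 0 ≤ u' := hu0.trans huu
  induction n with
  | zero =>
    apply le_of_eq
    ring
  | succ n ih =>
    have h1 : 0 ≤ (u' + h) ^ (n + 2) - u' ^ (n + 2) :=
      sub_nonneg.mpr (pow_le_pow_left₀ hu0' (by linarith) _)
    have h2 : 0 ≤ (u' + h) ^ (n + 2) - (u + h) ^ (n + 2) :=
      sub_nonneg.mpr (pow_le_pow_left₀ (by linarith) (by linarith) _)
    have h3 : ((u' + h) ^ (n + 1 + 2) - u' ^ (n + 1 + 2)) - ((u + h) ^ (n + 1 + 2) - u ^ (n + 1 + 2))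
        = u * (((u' + h) ^ (n + 2) - u' ^ (n + 2)) - ((u + h) ^ (n + 2) - u ^ (n + 2)))
          + (u' - u) * ((u' + h) ^ (n + 2) - u' ^ (n + 2))
          + h * ((u' + h) ^ (n + 2) - (u + h) ^ (n + 2)) := by ring
    rw [h3]
    have h4 : 0 ≤ (u' - u) * ((u' + h) ^ (n + 2) - u' ^ (n + 2)) :=
      mul_nonneg (by linarith) h1
    have h5 : 0 ≤ h * ((u' + h) ^ (n + 2) - (u + h) ^ (n + 2)) := mul_nonneg hh h2
    have h6 : 0 ≤ 2 * h * M ^ n * (u' - u) := by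
      have : 0 ≤ u' - u := by linarith
      positivity
    have h7 : M * (2 * h * M ^ n * (u' - u)) ≤
        u * (((u' + h) ^ (n + 2) - u' ^ (n + 2)) - ((u + h) ^ (n + 2) - u ^ (n + 2))) :=
      mul_le_mul hu ih h6 hu0
    have h8 : 2 * h * M ^ (n + 1) * (u' - u) = M * (2 * h * M ^ n * (u' - u)) := by ring
    rw [h8]
    linarith

/-- the set of `u ≥ M` with `(u+h)^k - u^k` near `w` is short -/
lemma vol_short (n : ℕ) (h M w δ : ℝ) (hh : 0 < h) (hM : 0 < M) (hδ : 0 < δ) :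
    volume {u : ℝ | M ≤ u ∧ |(u + h) ^ (n + 2) - u ^ (n + 2) - w| < δ} ≤
      ENNReal.ofReal (δ / (h * M ^ n)) := by
  refine (Real.volume_le_diam _).trans ?_
  apply Metric.ediam_le
  intro u hu u' hu'
  rw [edist_dist]
  apply ENNReal.ofReal_le_ofReal
  rw [Real.dist_eq]
  have key : ∀ a b : ℝ, a ≤ b → M ≤ a → |(a + h) ^ (n + 2) - a ^ (n + 2) - w| < δ →
      |(b + h) ^ (n + 2) - b ^ (n + 2) - w| < δ → b - a ≤ δ / (h * M ^ n) := by
    intro a b hab ha h1 h2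
    have h3 := second_diff n h M a b hh.le hM.le ha hab
    rw [abs_lt] at h1 h2
    rw [le_div_iff₀ (by positivity)]
    nlinarith
  rcases le_total u u' with h1 | h1
  · rw [abs_sub_comm, abs_of_nonneg (by linarith)]
    exact key u u' h1 hu.1 hu.2 hu'.2
  · rw [abs_of_nonneg (by linarith)]
    exact key u' u h1 hu'.1 hu'.2 hu.2

/-- sum over the starting points -/
lemma sum_short (n : ℕ) (X : Finset ℕ) (h M w δ : ℝ) (hh : 0 < h) (hM : 0 < M) (hδ : 0 < δ)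
    (hX : ∀ x ∈ X, M ≤ (x : ℝ)) :
    ∑ x ∈ X, (volume {θ : ℝ | θ ∈ Set.Ico (0:ℝ) 1 ∧
      |((x:ℝ) + θ + h) ^ (n + 2) - ((x:ℝ) + θ) ^ (n + 2) - w| < δ}).toReal ≤ δ / (h * M ^ n) := by
  let S : ℕ → Set ℝ := fun x => {u : ℝ | u ∈ Set.Ico (x:ℝ) (x + 1) ∧
    |(u + h) ^ (n + 2) - u ^ (n + 2) - w| < δ}
  have h1 : ∀ x : ℕ, volume {θ : ℝ | θ ∈ Set.Ico (0:ℝ) 1 ∧
      |((x:ℝ) + θ + h) ^ (n + 2) - ((x:ℝ) + θ) ^ (n + 2) - w| < δ} = volume (S x) := by
    intro x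
    rw [← measure_preimage_add volume (x:ℝ) (S x)]
    congr 1
    ext θ
    simp only [S, Set.mem_ofPred_eq, Set.mem_preimage, Set.mem_Ico]
    constructor
    · rintro ⟨⟨h2, h3⟩, h4⟩
      exact ⟨⟨by linarith, by linarith⟩, h4⟩
    · rintro ⟨⟨h2, h3⟩, h4⟩
      exact ⟨⟨by linarith, by linarith⟩, h4⟩
  have hmeas : ∀ x, MeasurableSet (S x) := by
    intro x
    refine measurableSet_Ico.inter ?_
    have hf : Measurable (fun u : ℝ => |(u + h) ^ (n + 2) - u ^ (n + 2) - w|) := by fun_prop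
    exact measurableSet_lt hf measurable_const
  have hdisj : (X : Set ℕ).PairwiseDisjoint S := by
    intro x _ y _ hxy
    rw [Function.onFun, Set.disjoint_left]
    rintro u ⟨⟨h2, h3⟩, _⟩ ⟨⟨h4, h5⟩, _⟩
    apply hxy
    have h6 : (x:ℝ) < y + 1 := h2.trans_lt h5
    have h7 : (y:ℝ) < x + 1 := h4.trans_lt h3
    have h6' : x < y + 1 := by exact_mod_cast h6
    have h7' : y < x + 1 := by exact_mod_cast h7
    omega
  have h2 : ∑ x ∈ X, volume (S x) ≤ ENNReal.ofReal (δ / (h * M ^ n)) := by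
    rw [← measure_biUnion_finset hdisj (fun x _ => hmeas x)]
    refine (measure_mono ?_).trans (vol_short n h M w δ hh hM hδ)
    intro u hu
    simp only [Set.mem_iUnion] at hu
    obtain ⟨x, hx, ⟨h3, _⟩, h4⟩ := hu
    exact ⟨(hX x hx).trans h3, h4⟩
  have hfin : ∀ x ∈ X, volume (S x) ≠ ⊤ := by
    intro x hx
    refine ne_top_of_le_ne_top ENNReal.ofReal_ne_top ((Finset.single_le_sum (fun _ _ => zero_le)
      hx).trans h2)
  rw [Finset.sum_congr rfl (fun x _ => by rw [h1 x]), ← ENNReal.toReal_sum hfin]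
  refine (ENNReal.toReal_mono ENNReal.ofReal_ne_top h2).trans ?_
  rw [ENNReal.toReal_ofReal (by positivity)]

/-- harmonic sums -/
lemma harmM (H : ℕ) (hH : 1 ≤ H) : ∑ h ∈ Ico 1 H, ((h : ℝ))⁻¹ ≤ 1 + Real.log H := by
  have h1 : ∑ h ∈ Ico 1 H, ((h : ℝ))⁻¹ ≤ ((harmonic H : ℚ) : ℝ) := by
    rw [harmonic, Rat.cast_sum, Finset.sum_Ico_eq_sum_range]
    push_cast
    have h2 : ∑ x ∈ range (H - 1), ((1:ℝ) + x)⁻¹ = ∑ x ∈ range (H - 1), ((x:ℝ) + 1)⁻¹ :=
      Finset.sum_congr rfl fun x _ => by rw [add_comm]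
    rw [h2]
    refine Finset.sum_le_sum_of_subset_of_nonneg (Finset.range_mono (Nat.sub_le _ _)) ?_
    intro i _ _
    positivity
  exact h1.trans (harmonic_le_one_add_log H)

/-- the sum over the pairs `x < y` -/
lemma pair_sum (n M H : ℕ) (w δ : ℝ) (hM : 1 ≤ M) (hH : 1 ≤ H) (hδ : 0 < δ)
    (g : ℕ → ℕ → ℝ) (hg0 : ∀ x y, 0 ≤ g x y)
    (hg : ∀ x h : ℕ, g x (x + h) = (volume {θ : ℝ | θ ∈ Set.Ico (0:ℝ) 1 ∧
      |((x:ℝ) + θ + h) ^ (n + 2) - ((x:ℝ) + θ) ^ (n + 2) - w| < δ}).toReal) :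
    ∑ x ∈ Ico M (M + H), ∑ y ∈ (Ico M (M + H)).filter (fun y => x < y), g x y ≤
      δ * (1 + Real.log H) / (M:ℝ) ^ n := by
  have hM0 : (0:ℝ) < M := by exact_mod_cast hM
  have h1 : ∀ x ∈ Ico M (M + H), ∑ y ∈ (Ico M (M + H)).filter (fun y => x < y), g x y ≤
      ∑ h ∈ Ico 1 H, g x (x + h) := by
    intro x hx
    rw [Finset.mem_Ico] at hx
    have h2 : ∑ h ∈ Ico 1 H, g x (x + h) = ∑ y ∈ (Ico 1 H).image (fun h => x + h), g x y := by
      rw [Finset.sum_image]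
      intro a _ b _ hab
      simpa using hab
    rw [h2]
    refine Finset.sum_le_sum_of_subset_of_nonneg ?_ (fun _ _ _ => hg0 _ _)
    intro y hy
    rw [Finset.mem_filter, Finset.mem_Ico] at hy
    rw [Finset.mem_image]
    exact ⟨y - x, by rw [Finset.mem_Ico]; omega, by omega⟩
  refine (Finset.sum_le_sum h1).trans ?_
  rw [Finset.sum_comm]
  have h2 : ∀ h ∈ Ico 1 H, ∑ x ∈ Ico M (M + H), g x (x + h) ≤ δ / (M:ℝ) ^ n * (h:ℝ)⁻¹ := by
    intro h hh
    rw [Finset.mem_Ico] at hh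
    have hh0 : (0:ℝ) < h := by exact_mod_cast hh.1
    rw [Finset.sum_congr rfl (fun x _ => hg x h)]
    refine (sum_short n _ h M w δ hh0 hM0 hδ ?_).trans ?_
    · intro x hx
      rw [Finset.mem_Ico] at hx
      exact_mod_cast hx.1
    · apply le_of_eq
      field_simp
  refine (Finset.sum_le_sum h2).trans ?_
  rw [← Finset.mul_sum]
  calc δ / (M:ℝ) ^ n * ∑ h ∈ Ico 1 H, (h:ℝ)⁻¹ ≤ δ / (M:ℝ) ^ n * (1 + Real.log H) := by
        apply mul_le_mul_of_nonneg_left (harmM H hH)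
        positivity
    _ = δ * (1 + Real.log H) / (M:ℝ) ^ n := by ring

theorem taskM : TaskM := by
  intro k M H v δ hk hM hH hδ
  obtain ⟨n, rfl⟩ := Nat.exists_eq_add_of_le' hk
  set f : ℕ → ℕ → ℝ := fun x y => (volume {θ : ℝ | θ ∈ Set.Ico (0:ℝ) 1 ∧
    |((x:ℝ) + θ) ^ (n + 2) - ((y:ℝ) + θ) ^ (n + 2) - v| < δ}).toReal with hf
  have hf0 : ∀ x y, 0 ≤ f x y := fun x y => ENNReal.toReal_nonneg
  have h1 : ∀ x ∈ Ico M (M + H), ∑ y ∈ (Ico M (M + H)).erase x, f x y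
      = ∑ y ∈ (Ico M (M + H)).filter (fun y => x < y), f x y
        + ∑ y ∈ (Ico M (M + H)).filter (fun y => y < x), f x y := by
    intro x hx
    rw [← Finset.sum_union]
    · congr 1
      ext y
      simp only [Finset.mem_erase, Finset.mem_union, Finset.mem_filter]
      constructor
      · rintro ⟨h2, h3⟩
        rcases lt_or_gt_of_ne h2 with h4 | h4
        · exact Or.inr ⟨h3, h4⟩
        · exact Or.inl ⟨h3, h4⟩
      · rintro (⟨h2, h3⟩ | ⟨h2, h3⟩)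
        · exact ⟨h3.ne', h2⟩
        · exact ⟨h3.ne, h2⟩
    · rw [Finset.disjoint_left]
      intro y hy hy'
      rw [Finset.mem_filter] at hy hy'
      omega
  rw [Finset.sum_congr rfl h1, Finset.sum_add_distrib]
  have h2 : ∑ x ∈ Ico M (M + H), ∑ y ∈ (Ico M (M + H)).filter (fun y => y < x), f x y
      = ∑ y ∈ Ico M (M + H), ∑ x ∈ (Ico M (M + H)).filter (fun x => y < x), f x y := by
    simp only [Finset.sum_filter]
    rw [Finset.sum_comm]
  rw [h2]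
  have h3 := pair_sum n M H (-v) δ hM hH hδ f hf0 (by
    intro x h
    simp only [hf]
    congr 2
    ext θ
    simp only [Set.mem_ofPred_eq]
    have : ((x:ℝ) + θ) ^ (n + 2) - (((x + h : ℕ) : ℝ) + θ) ^ (n + 2) - v
        = -(((x:ℝ) + θ + h) ^ (n + 2) - ((x:ℝ) + θ) ^ (n + 2) - (-v)) := by
      push_cast
      ring
    rw [this, abs_neg])
  have h4 := pair_sum n M H v δ hM hH hδ (fun y x => f x y) (fun y x => hf0 x y) (by
    intro x h
    simp only [hf]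
    congr 2
    ext θ
    simp only [Set.mem_ofPred_eq]
    have : (((x + h : ℕ) : ℝ) + θ) ^ (n + 2) - ((x:ℝ) + θ) ^ (n + 2) - v
        = (((x:ℝ) + θ + h) ^ (n + 2) - ((x:ℝ) + θ) ^ (n + 2) - v) := by
      push_cast
      ring
    rw [this])
  have h5 : n + 2 - 2 = n := by omega
  rw [h5]
  have h6 : 2 * δ * (1 + Real.log H) / (M:ℝ) ^ n
      = δ * (1 + Real.log H) / (M:ℝ) ^ n + δ * (1 + Real.log H) / (M:ℝ) ^ n := by ring
  rw [h6]
  exact add_le_add h3 h4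

end Pool.Agent.Helper91K1.WS
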