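import Pool.Agent.Helper91K1.WS.Stm

/-!
# (S) the number of pairs with difference in an interval
-/

set_option autoImplicit false

namespace Pool.Agent.Helper91K1.WS

open Finset

lemma cnt_eq {α : Type} (s : Finset α) (f : α → ℤ) (q : ℤ) :
    (((s ×ˢ s).filter (fun p : α × α => f p.1 - f p.2 = q)).card : ℝ) =
      ∑ c ∈ s.image f, ((s.filter (fun i => f i = c + q)).card : ℝ) *
        ((s.filter (fun i => f i = c)).card : ℝ) := by
  classical
  have h := Finset.card_eq_sum_card_fiberwise (f := fun p : α × α => f p.2)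
    (s := (s ×ˢ s).filter (fun p : α × α => f p.1 - f p.2 = q)) (t := s.image f) (by
      intro p hp
      have hp' := Finset.mem_filter.1 (Finset.mem_coe.1 hp)
      exact Finset.mem_coe.2 (Finset.mem_image.2 ⟨p.2, (Finset.mem_product.1 hp'.1).2, rfl⟩))
  rw [h]
  push_cast
  refine Finset.sum_congr rfl fun c _ => ?_
  rw [← Nat.cast_mul, ← Finset.card_product]
  congr 2
  ext p
  simp only [Finset.mem_filter, Finset.mem_product]
  constructor
  · rintro ⟨⟨⟨h1, h2⟩, h3⟩, h4⟩
    exact ⟨⟨h1, by omega⟩, h2, h4⟩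
  · rintro ⟨⟨h1, h2⟩, h3, h4⟩
    exact ⟨⟨⟨h1, h3⟩, by omega⟩, h4⟩

lemma cnt_le {α : Type} (s : Finset α) (f : α → ℤ) (q : ℤ) :
    (((s ×ˢ s).filter (fun p : α × α => f p.1 - f p.2 = q)).card : ℝ) ≤
      (((s ×ˢ s).filter (fun p : α × α => f p.1 - f p.2 = 0)).card : ℝ) := by
  classical
  rw [cnt_eq, cnt_eq]
  simp only [add_zero]
  set n : ℤ → ℝ := fun c => ((s.filter (fun i => f i = c)).card : ℝ) with hn
  have h1 : ∀ c, ((s.filter (fun i => f i = c + q)).card : ℝ) = n (c + q) := fun c => rfl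
  have h2 : ∀ c, ((s.filter (fun i => f i = c)).card : ℝ) = n c := fun c => rfl
  simp only [h1, h2]
  have h3 : ∑ c ∈ s.image f, n (c + q) ^ 2 ≤ ∑ c ∈ s.image f, n c ^ 2 := by
    have e1 : ∑ c ∈ s.image f, n (c + q) ^ 2 =
        ∑ c ∈ (s.image f).image (· + q), n c ^ 2 :=
      (Finset.sum_image (f := fun c => n c ^ 2) (g := (· + q))
        (fun x _ y _ hxy => add_right_cancel hxy)).symm
    rw [e1]
    have e2 : ∑ c ∈ (s.image f).image (· + q), n c ^ 2 =
        ∑ c ∈ ((s.image f).image (· + q)).filter (fun c => c ∈ s.image f), n c ^ 2 := by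
      rw [Finset.sum_filter_of_ne]
      intro c _ hc
      by_contra hcs
      apply hc
      have : s.filter (fun i => f i = c) = ∅ := by
        rw [Finset.filter_eq_empty_iff]
        intro i hi hic
        exact hcs (Finset.mem_image.2 ⟨i, hi, hic⟩)
      simp only [hn, this, Finset.card_empty, Nat.cast_zero]
      norm_num
    rw [e2]
    refine Finset.sum_le_sum_of_subset_of_nonneg ?_ fun c _ _ => sq_nonneg _
    intro c hc
    exact (Finset.mem_filter.1 hc).2
  calc ∑ c ∈ s.image f, n (c + q) * n c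
      ≤ ∑ c ∈ s.image f, (n (c + q) ^ 2 + n c ^ 2) / 2 := by
        refine Finset.sum_le_sum fun c _ => ?_
        nlinarith [sq_nonneg (n (c + q) - n c)]
    _ = (∑ c ∈ s.image f, n (c + q) ^ 2 + ∑ c ∈ s.image f, n c ^ 2) / 2 := by
        rw [← Finset.sum_add_distrib, Finset.sum_div]
    _ ≤ ∑ c ∈ s.image f, n c ^ 2 := by linarith
    _ = ∑ c ∈ s.image f, n c * n c := by
        refine Finset.sum_congr rfl fun c _ => ?_
        ring

theorem taskS : TaskS := by
  classical
  intro α s a N δ c hδ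
  set f : α → ℤ := fun i => ⌊a i / δ⌋ with hf
  set L : ℤ := ⌊c / δ⌋ with hL
  -- floors of the elements of a cell
  have h0 : (((s ×ˢ s).filter (fun p : α × α => f p.1 - f p.2 = 0)).card : ℝ) ≤ En s a δ := by
    unfold En
    norm_cast
    refine Finset.card_le_card ?_
    intro p hp
    rw [Finset.mem_filter] at hp ⊢
    refine ⟨hp.1, ?_⟩
    have h1 : f p.1 = f p.2 := by omega
    have h2 := Int.floor_le (a p.1 / δ)
    have h3 := Int.lt_floor_add_one (a p.1 / δ)
    have h4 := Int.floor_le (a p.2 / δ)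
    have h5 := Int.lt_floor_add_one (a p.2 / δ)
    have h6 : ⌊a p.1 / δ⌋ = ⌊a p.2 / δ⌋ := h1
    rw [h6] at h2 h3
    have h7 : |a p.1 / δ - a p.2 / δ| < 1 := by
      rw [abs_lt]; constructor <;> linarith
    rw [← sub_div, abs_div, abs_of_pos hδ, div_lt_one hδ] at h7
    exact h7
  have h1 : ((s ×ˢ s).filter (fun p : α × α => |a p.1 - a p.2 - c| < N * δ)) ⊆
      (Finset.Icc (L - N) (L + N + 1)).biUnion
        (fun q => (s ×ˢ s).filter (fun p : α × α => f p.1 - f p.2 = q)) := by
    intro p hp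
    rw [Finset.mem_filter] at hp
    rw [Finset.mem_biUnion]
    refine ⟨f p.1 - f p.2, ?_, Finset.mem_filter.2 ⟨hp.1, rfl⟩⟩
    have h2 : (f p.1 : ℝ) ≤ a p.1 / δ := Int.floor_le _
    have h3 : a p.1 / δ < f p.1 + 1 := Int.lt_floor_add_one _
    have h4 : (f p.2 : ℝ) ≤ a p.2 / δ := Int.floor_le _
    have h5 : a p.2 / δ < f p.2 + 1 := Int.lt_floor_add_one _
    have h6 : (L : ℝ) ≤ c / δ := Int.floor_le _
    have h7 : c / δ < L + 1 := Int.lt_floor_add_one _
    have h8 : |a p.1 / δ - a p.2 / δ - c / δ| < N := by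
      rw [← sub_div, ← sub_div, abs_div, abs_of_pos hδ, div_lt_iff₀ hδ]
      exact hp.2
    rw [abs_lt] at h8
    rw [Finset.mem_Icc]
    constructor
    · have h9 : ((L - N - 1 : ℤ) : ℝ) < ((f p.1 - f p.2 : ℤ) : ℝ) := by
        push_cast
        linarith
      have h10 : L - N - 1 < f p.1 - f p.2 := by exact_mod_cast h9
      omega
    · have h9 : ((f p.1 - f p.2 : ℤ) : ℝ) < ((L + N + 2 : ℤ) : ℝ) := by
        push_cast
        linarith
      have h10 : f p.1 - f p.2 < L + N + 2 := by exact_mod_cast h9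
      omega
  calc (((s ×ˢ s).filter (fun p : α × α => |a p.1 - a p.2 - c| < N * δ)).card : ℝ)
      ≤ ((∑ q ∈ Finset.Icc (L - N) (L + N + 1),
          ((s ×ˢ s).filter (fun p : α × α => f p.1 - f p.2 = q)).card : ℕ) : ℝ) := by
        exact_mod_cast (Finset.card_le_card h1).trans Finset.card_biUnion_le
    _ ≤ ∑ q ∈ Finset.Icc (L - N) (L + N + 1), En s a δ := by
        push_cast
        exact Finset.sum_le_sum fun q _ => (cnt_le s f q).trans h0
    _ = (2 * N + 2) * En s a δ := by
        rw [Finset.sum_const, nsmul_eq_mul, Int.card_Icc]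
        congr 1
        have : (L + N + 1 + 1 - (L - N)).toNat = 2 * N + 2 := by omega
        rw [this]
        push_cast
        ring

end Pool.Agent.Helper91K1.WS
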