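import Pool.Agent.Helper91K1.WS.Stm

/-!
# The measure of the empty windows (TaskT), by helper59

`F(t)` is the number of the `b j` in `[t, t + δ)`, `H(t)` the number in `[t, t + N δ)`, so
`H(t) = ∑_{c < N} F(t + c δ)`. The sum over the pairs of the kernel `W` is
`∫ F^2 - N^{-2} ∫ H^2 = N^{-1} ∫ ∑_{c < N} (F(t + c δ) - H(t) / N)^2 dt`.
-/

set_option autoImplicit false

namespace Pool.Agent.Helper91K1.WS.TT

open Finset MeasureTheory Filter
open Pool.Agent.Helper91K1.WS

/-- the indicator of `{t : x ∈ [t, t + a)}` -/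
noncomputable def ind (a x : ℝ) : ℝ → ℝ := Set.indicator (Set.Ioc (x - a) x) (fun _ => (1 : ℝ))

lemma ind_eq (a x t : ℝ) : ind a x t = if x ∈ Set.Ico t (t + a) then 1 else 0 := by
  unfold ind
  rw [Set.indicator_apply]
  have : t ∈ Set.Ioc (x - a) x ↔ x ∈ Set.Ico t (t + a) := by
    simp only [Set.mem_Ioc, Set.mem_Ico]
    constructor
    · rintro ⟨h1, h2⟩; exact ⟨h2, by linarith⟩
    · rintro ⟨h1, h2⟩; exact ⟨by linarith, h1⟩
  simp only [this]

lemma ind_int (a x : ℝ) : Integrable (ind a x) := by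
  unfold ind
  rw [integrable_indicator_iff measurableSet_Ioc]
  exact integrableOn_const (by simp) (by simp)

lemma ind_meas (a x : ℝ) : Measurable (ind a x) :=
  measurable_const.indicator measurableSet_Ioc

lemma ind_nonneg (a x t : ℝ) : 0 ≤ ind a x t := by
  rw [ind_eq]; split_ifs <;> norm_num

lemma ind_le (a x t : ℝ) : ind a x t ≤ 1 := by
  rw [ind_eq]; split_ifs <;> norm_num

lemma ind_mul (a x y : ℝ) : ∫ t, ind a x t * ind a y t = T a (x - y) := by
  have h1 : (fun t => ind a x t * ind a y t) =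
      Set.indicator (Set.Ioc (max (x - a) (y - a)) (min x y)) (fun _ => (1 : ℝ)) := by
    funext t
    unfold ind
    rw [← Set.Ioc_inter_Ioc]
    simp only [Set.indicator_apply, Set.mem_inter_iff]
    by_cases h : t ∈ Set.Ioc (x - a) x <;> by_cases h' : t ∈ Set.Ioc (y - a) y <;> simp [h, h']
  rw [h1, integral_indicator measurableSet_Ioc, setIntegral_const, smul_eq_mul, mul_one,
    measureReal_def, Real.volume_Ioc]
  unfold T
  have h2 : min x y - max (x - a) (y - a) = a - |x - y| := by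
    rcases le_total x y with h | h
    · rw [min_eq_left h, max_eq_right (by linarith), abs_of_nonpos (by linarith)]; ring
    · rw [min_eq_right h, max_eq_left (by linarith), abs_of_nonneg (by linarith)]; ring
  rw [h2, ENNReal.toReal_ofReal', max_comm]

lemma ind_mul_int (a x y : ℝ) : Integrable (fun t => ind a x t * ind a y t) := by
  refine (ind_int a x).mono' ((ind_meas a x).mul (ind_meas a y)).aestronglyMeasurable ?_
  filter_upwards with t
  rw [Real.norm_of_nonneg (mul_nonneg (ind_nonneg _ _ _) (ind_nonneg _ _ _))]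
  calc ind a x t * ind a y t ≤ ind a x t * 1 :=
        mul_le_mul_of_nonneg_left (ind_le _ _ _) (ind_nonneg _ _ _)
    _ = ind a x t := mul_one _

lemma ind_step (δ x t : ℝ) (hδ : 0 < δ) (N : ℕ) :
    ind ((N : ℝ) * δ) x t = ∑ c ∈ range N, ind δ x (t + c * δ) := by
  induction N with
  | zero => simp [ind]
  | succ N ih =>
    rw [sum_range_succ, ← ih, ind_eq, ind_eq, ind_eq]
    have hN : (0 : ℝ) ≤ N * δ := by positivity
    simp only [Set.mem_Ico]
    push_cast
    split_ifs with h1 h2 h3 h4 h5 h6 h7 <;> try norm_num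
    · exfalso; linarith [h2.2, h3.1]
    · exfalso
      apply h2
      refine ⟨h1.1, ?_⟩
      by_contra h
      apply h4
      push Not at h
      exact ⟨h, by linarith [h1.2]⟩
    · exfalso
      apply h1
      exact ⟨h5.1, by linarith [h5.2]⟩
    · exfalso
      apply h1
      exact ⟨h5.1, by linarith [h5.2]⟩
    · exfalso
      apply h1
      exact ⟨by linarith [h7.1], by linarith [h7.2]⟩

/-- the number of the `b j` in `[t, t + a)` -/
noncomputable def nn {ι : Type} (J : Finset ι) (b : ι → ℝ) (a t : ℝ) : ℝ :=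
  ∑ j ∈ J, ind a (b j) t

variable {ι : Type} (J : Finset ι) (b : ι → ℝ)

lemma nn_card (a t : ℝ) :
    nn J b a t = ((J.filter (fun j => b j ∈ Set.Ico t (t + a))).card : ℝ) := by
  classical
  unfold nn
  simp only [ind_eq]
  rw [Finset.sum_boole]

lemma nn_nonneg (a t : ℝ) : 0 ≤ nn J b a t := by
  unfold nn
  exact sum_nonneg fun j _ => ind_nonneg _ _ _

lemma nn_meas (a : ℝ) : Measurable (nn J b a) := by
  have : nn J b a = fun t => ∑ j ∈ J, ind a (b j) t := rfl
  rw [this]
  exact Finset.measurable_fun_sum _ fun j _ => ind_meas _ _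

lemma nn_sq (a : ℝ) :
    (fun t => nn J b a t ^ 2) = fun t => ∑ i ∈ J, ∑ j ∈ J, ind a (b i) t * ind a (b j) t := by
  funext t
  unfold nn
  rw [sq, Finset.sum_mul_sum]

lemma nn_sq_int (a : ℝ) : Integrable (fun t => nn J b a t ^ 2) := by
  rw [nn_sq]
  exact integrable_finsetSum _ fun i _ => integrable_finsetSum _ fun j _ => ind_mul_int _ _ _

lemma nn_sq_val (a : ℝ) :
    ∫ t, nn J b a t ^ 2 = ∑ i ∈ J, ∑ j ∈ J, T a (b i - b j) := by
  rw [nn_sq, integral_finsetSum _ fun i _ => integrable_finsetSum _ fun j _ => ind_mul_int _ _ _]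
  refine sum_congr rfl fun i _ => ?_
  rw [integral_finsetSum _ fun j _ => ind_mul_int _ _ _]
  exact sum_congr rfl fun j _ => ind_mul _ _ _

lemma nn_step (δ t : ℝ) (hδ : 0 < δ) (N : ℕ) :
    nn J b ((N : ℝ) * δ) t = ∑ c ∈ range N, nn J b δ (t + c * δ) := by
  unfold nn
  rw [sum_comm]
  exact sum_congr rfl fun j _ => ind_step _ _ _ hδ _

lemma nn_zero_iff (a t : ℝ) : nn J b a t = 0 ↔ ∀ j ∈ J, b j ∉ Set.Ico t (t + a) := by
  unfold nn
  rw [sum_eq_zero_iff_of_nonneg fun j _ => ind_nonneg _ _ _]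
  refine forall₂_congr fun j _ => ?_
  rw [ind_eq]
  split_ifs with h <;> simp [h]

end Pool.Agent.Helper91K1.WS.TT

namespace Pool.Agent.Helper91K1.WS

open Finset MeasureTheory Filter TT

theorem taskT : TaskT := by
  intro ι J b δ A B G N hδ hN hG hAB hlow
  have hN0 : (0 : ℝ) < N := by exact_mod_cast hN
  have hN1 : (1 : ℝ) ≤ N := by exact_mod_cast hN
  set Z : Set ℝ := {t : ℝ | t ∈ Set.Icc A B ∧ ∀ j ∈ J, b j ∉ Set.Ico t (t + δ)} with hZ
  have hZm : MeasurableSet Z := by
    have : Z = Set.Icc A B ∩ (nn J b δ) ⁻¹' {0} := by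
      ext t
      simp only [hZ, Set.mem_ofPred_eq, Set.mem_inter_iff, Set.mem_preimage, Set.mem_singleton_iff]
      rw [nn_zero_iff]
    rw [this]
    exact measurableSet_Icc.inter (nn_meas J b δ (measurableSet_singleton 0))
  have hZf : volume Z ≠ ⊤ := by
    refine ne_top_of_le_ne_top ?_ (measure_mono (fun t ht => ht.1 : Z ⊆ Set.Icc A B))
    simp
  -- the indicator of `Z`
  set g : ℝ → ℝ := Set.indicator Z (fun _ => (1 : ℝ)) with hg
  have hgi : Integrable g := by
    rw [hg, integrable_indicator_iff hZm]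
    exact integrableOn_const hZf (by simp)
  have hgv : ∫ t, g t = (volume Z).toReal := by
    rw [hg, integral_indicator hZm, setIntegral_const, smul_eq_mul, mul_one, measureReal_def]
  -- pointwise inequality
  have hpt : ∀ t, ∑ c ∈ range N, G ^ 2 * g (t + c * δ) ≤
      (∑ c ∈ range N, nn J b δ (t + c * δ) ^ 2) - nn J b (N * δ) t ^ 2 / N := by
    intro t
    have e1 : (∑ c ∈ range N, nn J b δ (t + c * δ) ^ 2) - nn J b (N * δ) t ^ 2 / N =
        ∑ c ∈ range N, (nn J b δ (t + c * δ) - nn J b (N * δ) t / N) ^ 2 := by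
      have : ∀ c ∈ range N, (nn J b δ (t + c * δ) - nn J b (N * δ) t / N) ^ 2 =
          nn J b δ (t + c * δ) ^ 2 - 2 * (nn J b (N * δ) t / N) * nn J b δ (t + c * δ) +
            (nn J b (N * δ) t / N) ^ 2 := fun c _ => by ring
      rw [sum_congr rfl this, sum_add_distrib, sum_sub_distrib, ← mul_sum, ← nn_step J b δ t hδ N,
        sum_const, card_range, nsmul_eq_mul]
      generalize (∑ c ∈ range N, nn J b δ (t + c * δ) ^ 2) = S
      generalize nn J b (N * δ) t = H
      field_simp
      ring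
    rw [e1]
    refine sum_le_sum fun c hc => ?_
    by_cases hz : t + c * δ ∈ Z
    · rw [hg, Set.indicator_of_mem hz, mul_one]
      have h0 : nn J b δ (t + c * δ) = 0 := (nn_zero_iff J b δ _).2 hz.2
      have hcN : (c : ℝ) ≤ N := by exact_mod_cast (mem_range.1 hc).le
      have hcδ : (c : ℝ) * δ ≤ N * δ := mul_le_mul_of_nonneg_right hcN hδ.le
      have hc0 : (0 : ℝ) ≤ c * δ := by positivity
      have ht : t ∈ Set.Icc (A - N * δ) B := ⟨by linarith [hz.1.1], by linarith [hz.1.2]⟩
      have h1 := hlow t ht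
      have h2 : G * N ≤ nn J b (N * δ) t := by
        rw [nn_card]
        convert h1
      have h3 : G ≤ nn J b (N * δ) t / N := by rw [le_div_iff₀ hN0]; exact h2
      rw [h0]
      nlinarith
    · rw [hg, Set.indicator_of_notMem hz, mul_zero]
      positivity
  -- integrate
  have hL : ∫ t, ∑ c ∈ range N, G ^ 2 * g (t + c * δ) = N * (G ^ 2 * (volume Z).toReal) := by
    rw [integral_finsetSum _ fun c _ => (hgi.comp_add_right _).const_mul _]
    have : ∀ c ∈ range N, ∫ t, G ^ 2 * g (t + c * δ) = G ^ 2 * (volume Z).toReal := by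
      intro c _
      rw [integral_const_mul, integral_add_right_eq_self g, hgv]
    rw [sum_congr rfl this, sum_const, card_range, nsmul_eq_mul]
  have hRi : Integrable (fun t => ∑ c ∈ range N, nn J b δ (t + c * δ) ^ 2) :=
    integrable_finsetSum _ fun c _ => (nn_sq_int J b δ).comp_add_right ((c : ℝ) * δ)
  have hR : ∫ t, ((∑ c ∈ range N, nn J b δ (t + c * δ) ^ 2) - nn J b (N * δ) t ^ 2 / N) =
      N * ∑ i ∈ J, ∑ j ∈ J, W δ N (b i - b j) := by
    rw [integral_sub hRi ((nn_sq_int J b _).div_const _),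
      integral_finsetSum (f := fun (c : ℕ) (t : ℝ) => nn J b δ (t + c * δ) ^ 2) _
        fun c _ => (nn_sq_int J b δ).comp_add_right ((c : ℝ) * δ),
      integral_div, nn_sq_val]
    have : ∀ c ∈ range N, ∫ t, nn J b δ (t + c * δ) ^ 2 =
        ∑ i ∈ J, ∑ j ∈ J, T δ (b i - b j) := by
      intro c _
      rw [integral_add_right_eq_self (fun t => nn J b δ t ^ 2), nn_sq_val]
    rw [sum_congr rfl this, sum_const, card_range, nsmul_eq_mul]
    unfold W
    simp only [sum_sub_distrib, ← sum_div]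
    field_simp
  have hLi : Integrable (fun t => ∑ c ∈ range N, G ^ 2 * g (t + c * δ)) :=
    integrable_finsetSum (f := fun (c : ℕ) (t : ℝ) => G ^ 2 * g (t + c * δ)) _ fun c _ =>
      (hgi.comp_add_right ((c : ℝ) * δ)).const_mul (G ^ 2)
  have hfin := integral_mono (f := fun t => ∑ c ∈ range N, G ^ 2 * g (t + c * δ))
    (g := fun t => (∑ c ∈ range N, nn J b δ (t + c * δ) ^ 2) - nn J b (N * δ) t ^ 2 / N)
    hLi (hRi.sub ((nn_sq_int J b _).div_const (N : ℝ))) hpt
  have hfin' : (N : ℝ) * (G ^ 2 * (volume Z).toReal) ≤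
      N * ∑ i ∈ J, ∑ j ∈ J, W δ N (b i - b j) := by
    rw [← hL, ← hR]
    exact hfin
  exact le_of_mul_le_mul_left hfin' hN0

end Pool.Agent.Helper91K1.WS
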