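import Mathlib
import Pool.Agent.Helper91K1.WS.Stm

set_option autoImplicit false

namespace Pool.Agent.Helper91K1.WS

open Finset MeasureTheory Filter

lemma W_cont (δ : ℝ) (N : ℕ) : Continuous (W δ N) := by
  unfold W T
  fun_prop

theorem taskV (hW : TaskW) (hT : TaskT) : TaskV := by
  classical
  intro α s a k M H N δ A B G V hk hM hH hN hδ hG hAB hV hcnt
  let J := s ×ˢ Ico M (M + H)
  let b : ℝ → α × ℕ → ℝ := fun θ p => a p.1 + ((p.2:ℝ) + θ) ^ k
  let E : ℝ → Finset ℤ := fun θ => V.filter (fun m : ℤ => ∀ p ∈ J, 2 * δ ≤ |b θ p - m * δ|)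
  let Sw : ℝ → ℝ := fun θ => ∑ p ∈ J, ∑ q ∈ J, W δ N (b θ p - b θ q)
  have hb : ∀ p, Continuous (fun θ => b θ p) := fun p => by
    simp only [b]; fun_prop
  have key : ∀ θ ∈ Set.Ico (0:ℝ) 1, δ * (G ^ 2 * ((E θ).card : ℝ)) ≤ Sw θ := by
    intro θ hθ
    have h1 := hT (α × ℕ) J (b θ) δ A B G N hδ hN hG hAB (hcnt θ hθ)
    set S := {t : ℝ | t ∈ Set.Icc A B ∧ ∀ j ∈ J, b θ j ∉ Set.Ico t (t + δ)} with hS
    have hfin : volume S ≠ ⊤ := by
      refine ne_of_lt (lt_of_le_of_lt (measure_mono (t := Set.Icc A B) fun t ht => ht.1) ?_)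
      rw [Real.volume_Icc]
      exact ENNReal.ofReal_lt_top
    have hsub : (⋃ m ∈ E θ, Set.Ico ((m:ℝ) * δ) (((m:ℝ) + 1) * δ)) ⊆ S := by
      intro t ht
      simp only [Set.mem_iUnion, exists_prop] at ht
      obtain ⟨m, hm, ht1, ht2⟩ := ht
      simp only [E, Finset.mem_filter] at hm
      obtain ⟨hmV, hm2⟩ := hm
      obtain ⟨hA, hB⟩ := hV m hmV
      refine ⟨⟨hA.trans ht1, ht2.le.trans hB⟩, ?_⟩
      intro j hj hjt
      have h2 := hm2 j hj
      obtain ⟨h3, h4⟩ := hjt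
      have h5 : ((m:ℝ) + 1) * δ = m * δ + δ := by ring
      rw [abs_of_nonneg (by linarith)] at h2
      linarith
    have hdisj : (E θ : Set ℤ).PairwiseDisjoint
        (fun m : ℤ => Set.Ico ((m:ℝ) * δ) (((m:ℝ) + 1) * δ)) := by
      intro m _ m' _ hmm
      rw [Function.onFun, Set.disjoint_left]
      rintro t ⟨h1, h2⟩ ⟨h3, h4⟩
      apply hmm
      have h5 : (m:ℝ) < m' + 1 := by
        have := lt_of_le_of_lt h1 h4
        exact lt_of_mul_lt_mul_right this hδ.le
      have h6 : (m':ℝ) < m + 1 := by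
        have := lt_of_le_of_lt h3 h2
        exact lt_of_mul_lt_mul_right this hδ.le
      have h7 : m < m' + 1 := by exact_mod_cast h5
      have h8 : m' < m + 1 := by exact_mod_cast h6
      omega
    have hvol : ENNReal.ofReal (δ * (E θ).card) ≤ volume S := by
      refine le_trans (le_of_eq ?_) (measure_mono hsub)
      rw [measure_biUnion_finset hdisj (fun m _ => measurableSet_Ico)]
      have h2 : ∀ m ∈ E θ, volume (Set.Ico ((m:ℝ) * δ) (((m:ℝ) + 1) * δ)) = ENNReal.ofReal δ := by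
        intro m _
        rw [Real.volume_Ico]
        congr 1
        ring
      rw [Finset.sum_congr rfl h2, Finset.sum_const, mul_comm, ENNReal.ofReal_mul (by positivity),
        ENNReal.ofReal_natCast, nsmul_eq_mul]
    have h2 : δ * ((E θ).card : ℝ) ≤ (volume S).toReal := by
      rw [← ENNReal.toReal_ofReal (show 0 ≤ δ * ((E θ).card : ℝ) by positivity)]
      exact ENNReal.toReal_mono hfin hvol
    calc δ * (G ^ 2 * ((E θ).card : ℝ)) = G ^ 2 * (δ * ((E θ).card : ℝ)) := by ring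
      _ ≤ G ^ 2 * (volume S).toReal := by gcongr
      _ ≤ Sw θ := h1
  have hmeas : ∀ m : ℤ, MeasurableSet {θ : ℝ | ∀ p ∈ J, 2 * δ ≤ |b θ p - m * δ|} := by
    intro m
    have : {θ : ℝ | ∀ p ∈ J, 2 * δ ≤ |b θ p - m * δ|}
        = ⋂ p ∈ J, {θ : ℝ | 2 * δ ≤ |b θ p - m * δ|} := by
      ext θ; simp
    rw [this]
    refine Finset.measurableSet_biInter _ fun p _ => IsClosed.measurableSet ?_
    exact isClosed_le continuous_const ((hb p).sub continuous_const).abs
  have hcard : ∀ θ, ((E θ).card : ℝ)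
      = ∑ m ∈ V, Set.indicator {θ : ℝ | ∀ p ∈ J, 2 * δ ≤ |b θ p - m * δ|} (fun _ => (1:ℝ)) θ := by
    intro θ
    simp only [E, Finset.card_filter, Nat.cast_sum, Nat.cast_ite, Nat.cast_one, Nat.cast_zero]
    refine Finset.sum_congr rfl fun m _ => ?_
    simp only [Set.indicator_apply, Set.mem_setOf_eq]
  have hint1 : IntegrableOn (fun θ => ((E θ).card : ℝ)) (Set.Ico (0:ℝ) 1) := by
    have h1 : (fun θ => ((E θ).card : ℝ)) = fun θ => ∑ m ∈ V,
        Set.indicator {θ : ℝ | ∀ p ∈ J, 2 * δ ≤ |b θ p - m * δ|} (fun _ => (1:ℝ)) θ :=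
      funext hcard
    rw [h1]
    refine integrable_finset_sum _ fun m _ => ?_
    refine Integrable.indicator ?_ (hmeas m)
    exact integrable_const _
  have hcont : Continuous Sw := by
    simp only [Sw]
    refine continuous_finset_sum _ fun p _ => continuous_finset_sum _ fun q _ => ?_
    exact (W_cont δ N).comp ((hb p).sub (hb q))
  have hint2 : IntegrableOn Sw (Set.Ico (0:ℝ) 1) :=
    (hcont.integrableOn_Icc).mono_set Set.Ico_subset_Icc_self
  have h3 : ∫ θ in Set.Ico (0:ℝ) 1, δ * (G ^ 2 * ((E θ).card : ℝ))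
      ≤ ∫ θ in Set.Ico (0:ℝ) 1, Sw θ :=
    setIntegral_mono_on ((hint1.const_mul _).const_mul _) hint2 measurableSet_Ico key
  rw [integral_const_mul, integral_const_mul] at h3
  have h4 := hW α s a k M H N δ hk hM hH hN hδ
  have h5 : δ * (G ^ 2 * ∫ θ in Set.Ico (0:ℝ) 1, ((E θ).card : ℝ))
      ≤ δ * (En s a δ * (H + 4 * δ * (N + 1) * (1 + Real.log H) / (M:ℝ) ^ (k - 2))) := by
    refine h3.trans (h4.trans (le_of_eq ?_))
    ring
  exact le_of_mul_le_mul_left h5 hδ

end Pool.Agent.Helper91K1.WS
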