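import Pool.Agent.Helper91K1.WS.Stm

/-!
# Piece W: mean value of the kernel sum
-/

set_option autoImplicit false

namespace Pool.Agent.Helper91K1.WS

open Finset MeasureTheory Filter

/-! ### The primitive of the kernel -/

theorem hasDerivAt_pos_sq (x : ℝ) : HasDerivAt (fun y : ℝ => (max 0 y) ^ 2) (2 * max 0 x) x := by
  rcases lt_trichotomy x 0 with h | h | h
  · have h1 : (fun y : ℝ => (max 0 y) ^ 2) =ᶠ[nhds x] fun _ => 0 := by
      filter_upwards [Iio_mem_nhds h] with y hy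
      rw [max_eq_left (le_of_lt hy)]
      norm_num
    rw [max_eq_left h.le, mul_zero]
    exact (hasDerivAt_const x 0).congr_of_eventuallyEq h1
  · subst h
    rw [max_self, mul_zero, hasDerivAt_iff_isLittleO]
    simp only [max_self, sub_zero, smul_zero, ne_eq, OfNat.ofNat_ne_zero, not_false_eq_true,
      zero_pow]
    have h1 : (fun y : ℝ => (max 0 y) ^ 2) =O[nhds 0] fun y : ℝ => y ^ 2 := by
      refine Asymptotics.IsBigO.of_bound 1 (Eventually.of_forall fun y => ?_)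
      rw [one_mul, Real.norm_eq_abs, Real.norm_eq_abs, abs_of_nonneg (sq_nonneg _),
        abs_of_nonneg (sq_nonneg _)]
      rcases le_total 0 y with h | h
      · rw [max_eq_right h]
      · rw [max_eq_left h]
        nlinarith [sq_nonneg y]
    refine h1.trans_isLittleO ?_
    have h2 := Asymptotics.isLittleO_pow_id (𝕜 := ℝ) (n := 2) (by norm_num)
    exact h2
  · have h1 : (fun y : ℝ => (max 0 y) ^ 2) =ᶠ[nhds x] fun y => y ^ 2 := by
      filter_upwards [Ioi_mem_nhds h] with y hy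
      rw [max_eq_right (le_of_lt hy)]
    rw [max_eq_right h.le]
    have h2 := (hasDerivAt_pow 2 x).congr_of_eventuallyEq h1
    simpa using h2

/-- the primitive of `T a` -/
noncomputable def Th (a v : ℝ) : ℝ :=
  ((max 0 (v + a)) ^ 2 - 2 * (max 0 v) ^ 2 + (max 0 (v - a)) ^ 2) / 2

theorem T_eq {a : ℝ} (ha : 0 ≤ a) (v : ℝ) :
    T a v = max 0 (v + a) - 2 * max 0 v + max 0 (v - a) := by
  unfold T
  rcases le_total 0 v with h | h
  · rw [abs_of_nonneg h, max_eq_right h, max_eq_right (show 0 ≤ v + a by linarith)]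
    rcases le_total v a with h1 | h1
    · rw [max_eq_right (by linarith), max_eq_left (by linarith)]
      ring
    · rw [max_eq_left (by linarith), max_eq_right (by linarith)]
      ring
  · rw [abs_of_nonpos h, max_eq_left h, max_eq_left (show v - a ≤ 0 by linarith)]
    rcases le_total (-a) v with h1 | h1
    · rw [max_eq_right (by linarith), max_eq_right (by linarith)]
      ring
    · rw [max_eq_left (by linarith), max_eq_left (by linarith)]
      ring

theorem hasDerivAt_Th {a : ℝ} (ha : 0 ≤ a) (v : ℝ) : HasDerivAt (Th a) (T a v) v := by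
  have h1 : HasDerivAt (fun y : ℝ => (max 0 (y + a)) ^ 2) (2 * max 0 (v + a)) v := by
    have := (hasDerivAt_pos_sq (v + a)).comp v ((hasDerivAt_id v).add_const a)
    simpa [Function.comp_def] using this
  have h2 : HasDerivAt (fun y : ℝ => (max 0 (y - a)) ^ 2) (2 * max 0 (v - a)) v := by
    have := (hasDerivAt_pos_sq (v - a)).comp v ((hasDerivAt_id v).sub_const a)
    simpa [Function.comp_def] using this
  have h3 := ((h1.sub ((hasDerivAt_pos_sq v).const_mul 2)).add h2).div_const 2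
  have e : (2 * max 0 (v + a) - 2 * (2 * max 0 v) + 2 * max 0 (v - a)) / 2 = T a v := by
    rw [T_eq ha]
    ring
  rw [e] at h3
  exact h3

theorem Th_of_le {a v : ℝ} (ha : 0 ≤ a) (h : v ≤ -a) : Th a v = 0 := by
  unfold Th
  rw [max_eq_left (by linarith), max_eq_left (by linarith), max_eq_left (by linarith)]
  norm_num

theorem Th_of_ge {a v : ℝ} (ha : 0 ≤ a) (h : a ≤ v) : Th a v = a ^ 2 := by
  unfold Th
  rw [max_eq_right (by linarith), max_eq_right (by linarith), max_eq_right (by linarith)]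
  ring

theorem Th_nonneg {a : ℝ} (ha : 0 ≤ a) (v : ℝ) : 0 ≤ Th a v ∧ Th a v ≤ a ^ 2 := by
  rcases le_total v (-a) with h | h
  · rw [Th_of_le ha h]
    exact ⟨le_rfl, sq_nonneg a⟩
  · rcases le_total a v with h1 | h1
    · rw [Th_of_ge ha h1]
      exact ⟨sq_nonneg a, le_rfl⟩
    · unfold Th
      rw [max_eq_right (show 0 ≤ v + a by linarith), max_eq_left (show v - a ≤ 0 by linarith)]
      rcases le_total 0 v with h2 | h2
      · rw [max_eq_right h2]
        constructor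
        · nlinarith
        · nlinarith [sq_nonneg (a - v)]
      · rw [max_eq_left h2]
        constructor
        · nlinarith [sq_nonneg (v + a)]
        · nlinarith

/-- the primitive of the kernel -/
noncomputable def Psi (δ : ℝ) (N : ℕ) (v : ℝ) : ℝ := Th δ v - Th (N * δ) v / (N : ℝ) ^ 2

theorem hasDerivAt_Psi {δ : ℝ} (hδ : 0 < δ) (N : ℕ) (v : ℝ) :
    HasDerivAt (Psi δ N) (W δ N v) v :=
  (hasDerivAt_Th hδ.le v).sub ((hasDerivAt_Th (by positivity) v).div_const _)

theorem Psi_bound {δ : ℝ} (hδ : 0 < δ) {N : ℕ} (hN : 1 ≤ N) (v : ℝ) :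
    |Psi δ N v| ≤ if |v| < N * δ then δ ^ 2 else 0 := by
  have hN0 : (0 : ℝ) < N := by exact_mod_cast hN
  have hN1 : (1 : ℝ) ≤ N := by exact_mod_cast hN
  have h1 := Th_nonneg hδ.le v
  have h2 := Th_nonneg (show 0 ≤ (N : ℝ) * δ by positivity) v
  have h3 : 0 ≤ Th (N * δ) v / (N : ℝ) ^ 2 := div_nonneg h2.1 (by positivity)
  have h4 : Th (N * δ) v / (N : ℝ) ^ 2 ≤ δ ^ 2 := by
    rw [div_le_iff₀ (by positivity)]
    refine h2.2.trans (le_of_eq ?_)
    ring
  have hδN : δ ≤ N * δ := by nlinarith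
  split_ifs with h
  · rw [abs_le]
    unfold Psi
    constructor
    · linarith [h1.1]
    · linarith [h1.2]
  · rw [not_lt] at h
    have h0 : Psi δ N v = 0 := by
      unfold Psi
      rcases le_abs.1 h with h5 | h5
      · rw [Th_of_ge hδ.le (by linarith), Th_of_ge (by positivity) h5]
        field_simp
        ring
      · rw [Th_of_le hδ.le (by linarith), Th_of_le (by positivity) (by linarith)]
        simp
    rw [h0, abs_zero]

theorem W_even (δ : ℝ) (N : ℕ) (v : ℝ) : W δ N (-v) = W δ N v := by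
  unfold W T
  rw [abs_neg]

theorem continuous_T (a : ℝ) : Continuous (T a) := by
  unfold T
  fun_prop

theorem continuous_W (δ : ℝ) (N : ℕ) : Continuous (W δ N) := by
  unfold W
  exact (continuous_T δ).sub ((continuous_T _).div_const _)

theorem W_le {δ : ℝ} (hδ : 0 < δ) (N : ℕ) (v : ℝ) : W δ N v ≤ if |v| < δ then δ else 0 := by
  have h1 : 0 ≤ T (N * δ) v / (N : ℝ) ^ 2 := div_nonneg (le_max_left _ _) (by positivity)
  have h2 : W δ N v ≤ T δ v := by
    unfold W
    linarith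
  refine h2.trans ?_
  unfold T
  split_ifs with h
  · refine max_le hδ.le ?_
    have := abs_nonneg v
    linarith
  · rw [not_lt] at h
    exact max_le le_rfl (by linarith)

/-! ### Integration by parts -/

/-- If `Φ' = φ`, `|Φ| ≤ S`, `f > 0` and `f' ≥ 0` then `|∫ φ / f| ≤ 2 S / f(A)`. -/
theorem parts {A B S : ℝ} (hAB : A ≤ B) {Φ φ f f' : ℝ → ℝ}
    (hΦ : ∀ u ∈ Set.Icc A B, HasDerivAt Φ (φ u) u) (hφ : ContinuousOn φ (Set.Icc A B))
    (hf : ∀ u ∈ Set.Icc A B, HasDerivAt f (f' u) u) (hf' : ContinuousOn f' (Set.Icc A B))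
    (hf0 : ∀ u ∈ Set.Icc A B, 0 < f u) (hf'0 : ∀ u ∈ Set.Icc A B, 0 ≤ f' u)
    (hΦS : ∀ u ∈ Set.Icc A B, |Φ u| ≤ S) :
    -(∫ u in A..B, φ u / f u) ≤ 2 * S / f A := by
  have hfc : ContinuousOn f (Set.Icc A B) := fun u hu => (hf u hu).continuousAt.continuousWithinAt
  have hΦc : ContinuousOn Φ (Set.Icc A B) := fun u hu => (hΦ u hu).continuousAt.continuousWithinAt
  have hu : Set.uIcc A B = Set.Icc A B := Set.uIcc_of_le hAB
  have hgd : ∀ u ∈ Set.uIcc A B, HasDerivAt (fun u => (f u)⁻¹) (-(f' u) / (f u) ^ 2) u := by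
    intro u hu'
    rw [hu] at hu'
    exact (hf u hu').inv (hf0 u hu').ne'
  have hg'c : ContinuousOn (fun u => -(f' u) / (f u) ^ 2) (Set.uIcc A B) := by
    rw [hu]
    exact hf'.neg.div (hfc.pow 2) fun u hu' => pow_ne_zero _ (hf0 u hu').ne'
  have hg'i : IntervalIntegrable (fun u => -(f' u) / (f u) ^ 2) volume A B :=
    hg'c.intervalIntegrable
  have hφi : IntervalIntegrable φ volume A B := by
    rw [← hu] at hφ
    exact hφ.intervalIntegrable
  have h1 := intervalIntegral.integral_mul_deriv_eq_deriv_mul (u := fun u => (f u)⁻¹) (v := Φ)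
    (u' := fun u => -(f' u) / (f u) ^ 2) (v' := φ) hgd (fun u hu' => hΦ u (by rwa [← hu]))
    hg'i hφi
  have h2 : ∫ u in A..B, φ u / f u = ∫ u in A..B, (f u)⁻¹ * φ u := by
    congr 1
    funext u
    rw [div_eq_mul_inv, mul_comm]
  have h3 := intervalIntegral.integral_eq_sub_of_hasDerivAt hgd hg'i
  have hi1 : IntervalIntegrable (fun u => -(f' u) / (f u) ^ 2 * Φ u) volume A B := by
    refine ContinuousOn.intervalIntegrable (hg'c.mul ?_)
    rw [hu]
    exact hΦc
  have h4 : ∫ u in A..B, -(f' u) / (f u) ^ 2 * Φ u ≤ ∫ u in A..B, (-(f' u) / (f u) ^ 2) * (-S) := by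
    refine intervalIntegral.integral_mono_on hAB hi1 (hg'i.mul_const _) fun u hu' => ?_
    have h5 : -(f' u) / (f u) ^ 2 ≤ 0 :=
      div_nonpos_of_nonpos_of_nonneg (by linarith [hf'0 u hu']) (by positivity)
    have h6 := (abs_le.1 (hΦS u hu')).1
    exact mul_le_mul_of_nonpos_left h6 h5
  rw [intervalIntegral.integral_mul_const, h3] at h4
  rw [h2, h1]
  have hA : A ∈ Set.Icc A B := ⟨le_rfl, hAB⟩
  have hB : B ∈ Set.Icc A B := ⟨hAB, le_rfl⟩
  have e1 : (f B)⁻¹ * Φ B ≥ -((f B)⁻¹ * S) := by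
    have := mul_le_mul_of_nonneg_left (abs_le.1 (hΦS B hB)).1 (inv_nonneg.2 (hf0 B hB).le)
    linarith
  have e2 : (f A)⁻¹ * Φ A ≤ (f A)⁻¹ * S :=
    mul_le_mul_of_nonneg_left (abs_le.1 (hΦS A hA)).2 (inv_nonneg.2 (hf0 A hA).le)
  have e3 : 2 * S / f A = 2 * ((f A)⁻¹ * S) := by
    rw [div_eq_mul_inv]
    ring
  rw [e3]
  linarith

/-! ### The function `(u + h)^k - u^k` -/

/-- derivative of `(u + h)^(n+1) - u^(n+1)` -/
theorem hasDerivAt_F (n : ℕ) (h u : ℝ) : HasDerivAt (fun u : ℝ => (u + h) ^ (n + 1) - u ^ (n + 1))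
    ((n + 1) * ((u + h) ^ n - u ^ n)) u := by
  have h1 : HasDerivAt (fun u : ℝ => (u + h) ^ (n + 1)) (((n + 1 : ℕ) : ℝ) * (u + h) ^ n * 1) u := by
    have := ((hasDerivAt_id u).add_const h).fun_pow (n + 1)
    simpa using this
  have h2 := hasDerivAt_pow (n + 1) u
  have h3 := h1.sub h2
  refine h3.congr_deriv ?_
  rw [Nat.add_sub_cancel]
  push_cast
  ring

theorem pow_gap (n : ℕ) {x h : ℝ} (hx : 0 ≤ x) (hh : 0 ≤ h) :
    x ^ (n + 1) + (n + 1) * x ^ n * h ≤ (x + h) ^ (n + 1) := by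
  induction n with
  | zero => simp
  | succ n ih =>
    have h1 : (x + h) * (x ^ (n + 1) + (n + 1) * x ^ n * h) ≤ (x + h) * (x + h) ^ (n + 1) :=
      mul_le_mul_of_nonneg_left ih (by linarith)
    have h2 : 0 ≤ (n + 1) * x ^ n * h * h := by positivity
    have h3 : (x + h) ^ (n + 1 + 1) = (x + h) * (x + h) ^ (n + 1) := by ring
    rw [h3]
    refine le_trans ?_ h1
    push_cast
    have h4 : (x + h) * (x ^ (n + 1) + (n + 1) * x ^ n * h) =
        x ^ (n + 1 + 1) + (n + 1 + 1) * x ^ (n + 1) * h + (n + 1) * x ^ n * h * h := by ring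
    rw [h4]
    linarith

/-- For `f = F_h'`, `k = n + 2`: `f(M) ≥ 2 h M^n`. -/
theorem f_lower (n : ℕ) {M h : ℝ} (hM : 0 ≤ M) (hh : 0 ≤ h) :
    2 * h * M ^ n ≤ ((n + 1 : ℕ) + 1) * ((M + h) ^ (n + 1) - M ^ (n + 1)) := by
  have h1 := pow_gap n hM hh
  have h2 : (n + 1) * M ^ n * h ≤ (M + h) ^ (n + 1) - M ^ (n + 1) := by linarith
  have h3 : 0 ≤ M ^ n * h := by positivity
  have hn : (0 : ℝ) ≤ n := Nat.cast_nonneg n
  push_cast
  calc 2 * h * M ^ n ≤ ((n : ℝ) + 1 + 1) * ((n + 1) * M ^ n * h) := by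
        nlinarith [mul_nonneg hn h3, mul_nonneg (mul_nonneg hn hn) h3]
    _ ≤ _ := mul_le_mul_of_nonneg_left h2 (by positivity)

/-! ### One difference `h` -/

section one

variable {α : Type} (s : Finset α) (a : α → ℝ) (N n : ℕ) (δ : ℝ)

/-- the sum of the kernel -/
noncomputable def GG (w : ℝ) : ℝ := ∑ i ∈ s, ∑ j ∈ s, W δ N (a i - a j - w)

/-- the sum of the primitives -/
noncomputable def KK (w : ℝ) : ℝ := ∑ i ∈ s, ∑ j ∈ s, Psi δ N (a i - a j - w)

theorem hasDerivAt_KK (hδ : 0 < δ) (w : ℝ) : HasDerivAt (KK s a N δ) (-(GG s a N δ w)) w := by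
  unfold KK GG
  rw [← Finset.sum_neg_distrib]
  refine HasDerivAt.fun_sum fun i _ => ?_
  rw [← Finset.sum_neg_distrib]
  refine HasDerivAt.fun_sum fun j _ => ?_
  have h1 := (hasDerivAt_Psi hδ N (a i - a j - w)).comp w
    ((hasDerivAt_const w (a i - a j)).sub (hasDerivAt_id w))
  simpa [Function.comp_def] using h1

theorem continuous_GG : Continuous (GG s a N δ) := by
  unfold GG
  refine continuous_finsetSum _ fun i _ => continuous_finsetSum _ fun j _ => ?_
  exact (continuous_W δ N).comp (continuous_const.sub continuous_id)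

theorem KK_bound (hS : TaskS) (hδ : 0 < δ) (hN : 1 ≤ N) (w : ℝ) :
    |KK s a N δ w| ≤ δ ^ 2 * ((2 * N + 2) * En s a δ) := by
  have h1 := hS α s a N δ w hδ
  have h2 : |KK s a N δ w| ≤ ∑ p ∈ s ×ˢ s,
      if |a p.1 - a p.2 - w| < N * δ then δ ^ 2 else 0 := by
    unfold KK
    rw [← Finset.sum_product']
    refine (Finset.abs_sum_le_sum_abs _ _).trans (Finset.sum_le_sum fun p _ => ?_)
    exact Psi_bound hδ hN _
  refine h2.trans ?_
  rw [← Finset.sum_filter, Finset.sum_const, nsmul_eq_mul, mul_comm]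
  exact mul_le_mul_of_nonneg_left h1 (sq_nonneg δ)

/-- The integral over a long interval. -/
theorem one_h (hS : TaskS) (hδ : 0 < δ) (hN : 1 ≤ N) {M B h : ℝ} (hM : 1 ≤ M) (hMB : M ≤ B)
    (hh : 0 < h) :
    ∫ u in M..B, GG s a N δ ((u + h) ^ (n + 2) - u ^ (n + 2)) ≤
      δ ^ 2 * ((2 * N + 2) * En s a δ) / (h * M ^ n) := by
  have hM0 : 0 < M := by linarith
  obtain ⟨S, hSd⟩ : ∃ S, S = δ ^ 2 * ((2 * N + 2) * En s a δ) := ⟨_, rfl⟩
  have hS0 : 0 ≤ S := by
    rw [hSd]
    unfold En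
    positivity
  obtain ⟨F, hF⟩ : ∃ F : ℝ → ℝ, F = fun u => (u + h) ^ (n + 2) - u ^ (n + 2) := ⟨_, rfl⟩
  obtain ⟨f, hf⟩ : ∃ f : ℝ → ℝ, f = fun u => ((n + 1 : ℕ) + 1) * ((u + h) ^ (n + 1) - u ^ (n + 1)) :=
    ⟨_, rfl⟩
  have hFd : ∀ u, HasDerivAt F (f u) u := fun u => by
    rw [hF, hf]
    exact hasDerivAt_F (n + 1) h u
  have hfd : ∀ u, HasDerivAt f (((n + 1 : ℕ) + 1) * ((n + 1) * ((u + h) ^ n - u ^ n))) u := fun u => by
    rw [hf]
    exact (hasDerivAt_F n h u).const_mul _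
  have hflow : ∀ u, M ≤ u → 2 * h * u ^ n ≤ f u := fun u hu => by
    rw [hf]
    exact f_lower n (by linarith) hh.le
  have hf0 : ∀ u, M ≤ u → 0 < f u := fun u hu => by
    refine lt_of_lt_of_le ?_ (hflow u hu)
    have : 0 < u := by linarith
    positivity
  have hfc : Continuous f := by
    rw [hf]
    fun_prop
  have hFc : Continuous F := by
    rw [hF]
    fun_prop
  have hp := parts (A := M) (B := B) (S := S) hMB (Φ := fun u => KK s a N δ (F u))
    (φ := fun u => -(GG s a N δ (F u)) * f u) (f := f)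
    (f' := fun u => ((n + 1 : ℕ) + 1) * ((n + 1) * ((u + h) ^ n - u ^ n)))
    (fun u _ => (hasDerivAt_KK s a N δ hδ (F u)).comp u (hFd u))
    (by
      refine Continuous.continuousOn ?_
      exact (((continuous_GG s a N δ).comp hFc).neg).mul hfc)
    (fun u _ => hfd u)
    (by
      refine Continuous.continuousOn ?_
      fun_prop)
    (fun u hu => hf0 u hu.1)
    (fun u hu => by
      have h1 : u ^ n ≤ (u + h) ^ n := pow_le_pow_left₀ (by linarith [hu.1]) (by linarith) n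
      have h2 : 0 ≤ (u + h) ^ n - u ^ n := by linarith
      positivity)
    (fun u _ => by
      rw [hSd]
      exact KK_bound s a N δ hS hδ hN _)
  have h1 : -(∫ u in M..B, -(GG s a N δ (F u)) * f u / f u) = ∫ u in M..B, GG s a N δ (F u) := by
    rw [← intervalIntegral.integral_neg]
    refine intervalIntegral.integral_congr fun u hu => ?_
    rw [Set.uIcc_of_le hMB] at hu
    have := (hf0 u hu.1).ne'
    field_simp
  rw [h1] at hp
  have h2 : ∫ u in M..B, GG s a N δ ((u + h) ^ (n + 2) - u ^ (n + 2)) =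
      ∫ u in M..B, GG s a N δ (F u) := by rw [hF]
  rw [h2, ← hSd]
  refine hp.trans ?_
  have h3 := hflow M le_rfl
  have h4 : 0 < h * M ^ n := by positivity
  rw [div_le_div_iff₀ (hf0 M le_rfl) h4]
  nlinarith

end one

/-! ### The double sum -/

theorem double_sum (f : ℕ → ℕ → ℝ) (hf : ∀ x y, f x y = f y x) (H : ℕ) :
    ∑ x ∈ range H, ∑ y ∈ range H, f x y = ∑ x ∈ range H, f x x +
      2 * ∑ h ∈ range H, ∑ x ∈ range (H - 1 - h), f x (x + (h + 1)) := by
  induction H with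
  | zero => simp
  | succ H ih =>
    have h1 : ∑ x ∈ range (H + 1), ∑ y ∈ range (H + 1), f x y =
        ∑ x ∈ range H, ∑ y ∈ range H, f x y + 2 * ∑ x ∈ range H, f x H + f H H := by
      rw [Finset.sum_range_succ]
      simp_rw [Finset.sum_range_succ (fun y => f _ y) H]
      rw [Finset.sum_add_distrib]
      have h2 : ∑ y ∈ range H, f H y = ∑ x ∈ range H, f x H :=
        Finset.sum_congr rfl fun y _ => hf H y
      rw [h2]
      ring
    have h3 : ∑ h ∈ range (H + 1), ∑ x ∈ range (H + 1 - 1 - h), f x (x + (h + 1)) =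
        ∑ h ∈ range H, ∑ x ∈ range (H - 1 - h), f x (x + (h + 1)) + ∑ x ∈ range H, f x H := by
      rw [Finset.sum_range_succ]
      have h4 : H + 1 - 1 - H = 0 := by omega
      rw [h4, Finset.sum_range_zero, add_zero, ← Finset.sum_range_reflect (fun x => f x H) H,
        ← Finset.sum_add_distrib]
      refine Finset.sum_congr rfl fun h hh => ?_
      have hh' := Finset.mem_range.1 hh
      have h5 : H + 1 - 1 - h = (H - 1 - h) + 1 := by omega
      rw [h5, Finset.sum_range_succ]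
      have h6 : H - 1 - h + (h + 1) = H := by omega
      rw [h6]
    rw [h1, h3, Finset.sum_range_succ, ih]
    ring

section fin

variable {α : Type} (s : Finset α) (a : α → ℝ) (N n : ℕ) (δ : ℝ)

/-- the sum for two given values of the new variable -/
noncomputable def RR (M x y : ℕ) (θ : ℝ) : ℝ :=
  ∑ i ∈ s, ∑ j ∈ s, W δ N ((a i + (((M + x : ℕ) : ℝ) + θ) ^ (n + 2)) -
    (a j + (((M + y : ℕ) : ℝ) + θ) ^ (n + 2)))

theorem continuous_RR (M x y : ℕ) : Continuous (RR s a N n δ M x y) := by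
  unfold RR
  refine continuous_finsetSum _ fun i _ => continuous_finsetSum _ fun j _ => ?_
  refine (continuous_W δ N).comp ?_
  fun_prop

theorem RR_symm (M x y : ℕ) (θ : ℝ) : RR s a N n δ M x y θ = RR s a N n δ M y x θ := by
  unfold RR
  rw [Finset.sum_comm]
  refine Finset.sum_congr rfl fun i _ => Finset.sum_congr rfl fun j _ => ?_
  rw [← W_even]
  congr 1
  ring

theorem RR_diag (hδ : 0 < δ) (M x : ℕ) (θ : ℝ) : RR s a N n δ M x x θ ≤ δ * En s a δ := by
  unfold RR En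
  rw [← Finset.sum_product']
  have h1 : ∀ p ∈ s ×ˢ s, W δ N ((a p.1 + (((M + x : ℕ) : ℝ) + θ) ^ (n + 2)) -
      (a p.2 + (((M + x : ℕ) : ℝ) + θ) ^ (n + 2))) ≤ if |a p.1 - a p.2| < δ then δ else 0 := by
    intro p _
    have h2 := W_le hδ N (a p.1 - a p.2)
    have h3 : (a p.1 + (((M + x : ℕ) : ℝ) + θ) ^ (n + 2)) -
      (a p.2 + (((M + x : ℕ) : ℝ) + θ) ^ (n + 2)) = a p.1 - a p.2 := by ring
    rw [h3]
    exact h2
  refine (Finset.sum_le_sum h1).trans (le_of_eq ?_)
  rw [← Finset.sum_filter, Finset.sum_const, nsmul_eq_mul, mul_comm]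

theorem RR_shift (M x h : ℕ) (θ : ℝ) : RR s a N n δ M x (x + (h + 1)) θ =
    GG s a N δ ((((M + x : ℕ) : ℝ) + θ + (h + 1)) ^ (n + 2) - (((M + x : ℕ) : ℝ) + θ) ^ (n + 2)) := by
  unfold RR GG
  refine Finset.sum_congr rfl fun i _ => Finset.sum_congr rfl fun j _ => ?_
  congr 1
  push_cast
  ring

/-- the sum over all pairs with a given difference -/
theorem sum_shift (hS : TaskS) (hδ : 0 < δ) (hN : 1 ≤ N) (M h R : ℕ) (hM : 1 ≤ M) :
    ∑ x ∈ range R, ∫ θ in (0:ℝ)..1, RR s a N n δ M x (x + (h + 1)) θ ≤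
      δ ^ 2 * ((2 * N + 2) * En s a δ) / (((h + 1 : ℕ) : ℝ) * (M : ℝ) ^ n) := by
  obtain ⟨g, hg⟩ : ∃ g : ℝ → ℝ, g = fun u => GG s a N δ ((u + ((h + 1 : ℕ) : ℝ)) ^ (n + 2) -
    u ^ (n + 2)) := ⟨_, rfl⟩
  have hgc : Continuous g := by
    rw [hg]
    refine (continuous_GG s a N δ).comp ?_
    fun_prop
  have h1 : ∀ x : ℕ, ∫ θ in (0:ℝ)..1, RR s a N n δ M x (x + (h + 1)) θ =
      ∫ u in ((M + x : ℕ) : ℝ)..((M + (x + 1) : ℕ) : ℝ), g u := by
    intro x
    have h2 : ∀ θ : ℝ, RR s a N n δ M x (x + (h + 1)) θ = g (((M + x : ℕ) : ℝ) + θ) := by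
      intro θ
      rw [RR_shift, hg]
      congr 3
      push_cast
      ring
    simp_rw [h2]
    rw [intervalIntegral.integral_comp_add_left (fun u => g u)]
    congr 1
    · ring
    · push_cast
      ring
  rw [Finset.sum_congr rfl fun x _ => h1 x,
    intervalIntegral.sum_integral_adjacent_intervals (a := fun x : ℕ => ((M + x : ℕ) : ℝ))
      (fun k _ => hgc.intervalIntegrable _ _), hg]
  have h3 : (M : ℝ) = ((M + 0 : ℕ) : ℝ) := by simp
  have h4 := one_h s a N n δ hS hδ hN (M := (M : ℝ)) (B := ((M + R : ℕ) : ℝ))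
    (h := ((h + 1 : ℕ) : ℝ)) (by exact_mod_cast hM) (by push_cast; linarith [Nat.cast_nonneg (α := ℝ) R])
    (by positivity)
  simpa using h4

theorem harm (H : ℕ) : ∑ h ∈ range H, (1 : ℝ) / ((h + 1 : ℕ) : ℝ) ≤ 1 + Real.log H := by
  have h1 := harmonic_le_one_add_log H
  refine le_trans (le_of_eq ?_) h1
  unfold harmonic
  push_cast
  simp [one_div]

/-- PIECE W. -/
theorem taskW (hS : TaskS) : TaskW := by
  intro α s a k M H N δ hk hM hH hN hδ
  obtain ⟨n, rfl⟩ : ∃ n, k = n + 2 := ⟨k - 2, by omega⟩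
  have hM0 : (0 : ℝ) < M := by exact_mod_cast hM
  have e1 : ∀ θ : ℝ, ∑ p ∈ s ×ˢ Ico M (M + H), ∑ q ∈ s ×ˢ Ico M (M + H),
      W δ N ((a p.1 + ((p.2:ℝ) + θ) ^ (n + 2)) - (a q.1 + ((q.2:ℝ) + θ) ^ (n + 2))) =
      ∑ x ∈ range H, ∑ y ∈ range H, RR s a N n δ M x y θ := by
    intro θ
    unfold RR
    rw [Finset.sum_product_right]
    have h2 : ∀ (x : ℕ) (i : α), ∑ q ∈ s ×ˢ Ico M (M + H),
        W δ N ((a i + ((x:ℝ) + θ) ^ (n + 2)) - (a q.1 + ((q.2:ℝ) + θ) ^ (n + 2))) =
        ∑ y ∈ range H, ∑ j ∈ s, W δ N ((a i + ((x:ℝ) + θ) ^ (n + 2)) -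
          (a j + (((M + y : ℕ):ℝ) + θ) ^ (n + 2))) := by
      intro x i
      rw [Finset.sum_product_right, Finset.sum_Ico_eq_sum_range]
      have h3 : M + H - M = H := by omega
      rw [h3]
    simp only [h2]
    rw [Finset.sum_Ico_eq_sum_range]
    have h3 : M + H - M = H := by omega
    rw [h3]
    refine Finset.sum_congr rfl fun x _ => ?_
    rw [Finset.sum_comm]
  have hint : ∀ x y, IntervalIntegrable (RR s a N n δ M x y) volume 0 1 := fun x y =>
    (continuous_RR s a N n δ M x y).intervalIntegrable _ _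
  have e2 : ∫ θ in Set.Ico (0:ℝ) 1, ∑ p ∈ s ×ˢ Ico M (M + H), ∑ q ∈ s ×ˢ Ico M (M + H),
      W δ N ((a p.1 + ((p.2:ℝ) + θ) ^ (n + 2)) - (a q.1 + ((q.2:ℝ) + θ) ^ (n + 2))) =
      ∑ x ∈ range H, ∑ y ∈ range H, ∫ θ in (0:ℝ)..1, RR s a N n δ M x y θ := by
    rw [integral_Ico_eq_integral_Ioo, ← integral_Ioc_eq_integral_Ioo,
      ← intervalIntegral.integral_of_le (by norm_num : (0:ℝ) ≤ 1)]
    simp only [e1]
    rw [intervalIntegral.integral_finsetSum]
    · refine Finset.sum_congr rfl fun x _ => ?_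
      rw [intervalIntegral.integral_finsetSum]
      exact fun y _ => hint x y
    · intro x _
      exact (continuous_finsetSum _ fun y _ => continuous_RR s a N n δ M x y).intervalIntegrable _ _
  rw [e2, double_sum (fun x y => ∫ θ in (0:ℝ)..1, RR s a N n δ M x y θ) (fun x y => by
    refine intervalIntegral.integral_congr fun θ _ => ?_
    exact RR_symm s a N n δ M x y θ)]
  have hEn : 0 ≤ En s a δ := by unfold En; positivity
  have h1 : ∑ x ∈ range H, ∫ θ in (0:ℝ)..1, RR s a N n δ M x x θ ≤ H * (δ * En s a δ) := by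
    have h2 : ∀ x ∈ range H, ∫ θ in (0:ℝ)..1, RR s a N n δ M x x θ ≤ δ * En s a δ := by
      intro x _
      have h3 := intervalIntegral.integral_mono_on (by norm_num : (0:ℝ) ≤ 1) (hint x x)
        (continuous_const.intervalIntegrable _ _ : IntervalIntegrable (fun _ => δ * En s a δ)
          volume 0 1) (fun θ _ => RR_diag s a N n δ hδ M x θ)
      simpa using h3
    refine (Finset.sum_le_sum h2).trans (le_of_eq ?_)
    rw [Finset.sum_const, Finset.card_range, nsmul_eq_mul]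
  have h2 : ∑ h ∈ range H, ∑ x ∈ range (H - 1 - h),
      ∫ θ in (0:ℝ)..1, RR s a N n δ M x (x + (h + 1)) θ ≤
      (δ ^ 2 * ((2 * N + 2) * En s a δ) / (M : ℝ) ^ n) * (1 + Real.log H) := by
    refine (Finset.sum_le_sum fun h _ =>
      sum_shift s a N n δ hS hδ hN M h (H - 1 - h) hM).trans ?_
    have h3 : ∀ h ∈ range H, δ ^ 2 * ((2 * N + 2) * En s a δ) / (((h + 1 : ℕ) : ℝ) * (M : ℝ) ^ n) =
        (δ ^ 2 * ((2 * N + 2) * En s a δ) / (M : ℝ) ^ n) * (1 / ((h + 1 : ℕ) : ℝ)) := by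
      intro h _
      have : ((h + 1 : ℕ) : ℝ) ≠ 0 := by positivity
      field_simp
    rw [Finset.sum_congr rfl h3, ← Finset.mul_sum]
    exact mul_le_mul_of_nonneg_left (harm H) (by positivity)
  have h4 : n + 2 - 2 = n := by omega
  rw [h4]
  have h5 : δ * En s a δ * (H + 4 * δ * (N + 1) * (1 + Real.log H) / (M:ℝ) ^ n) =
      H * (δ * En s a δ) + 2 * ((δ ^ 2 * ((2 * N + 2) * En s a δ) / (M : ℝ) ^ n) *
        (1 + Real.log H)) := by
    field_simp
    ring
  rw [h5]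
  linarith

end fin

end Pool.Agent.Helper91K1.WS
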