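import Pool.Agent.Helper91K1.WS.Exc
import Pool.Agent.Helper91K1.WS.AE2
import Pool.Agent.Helper91K1.WS.AV2
import Pool.Agent.Helper91K1.WS.AR2
import Pool.Agent.Helper91K1.WS.AG
import Pool.Agent.Helper91K1.WS.M
import Pool.Agent.Helper91K1.WS.S
import Pool.Agent.Helper91K1.WS.W
import Pool.Agent.Helper91K1.WS.T
import Pool.Agent.Helper91K1.WS.V
import Pool.Agent.Helper91K1.WS.G
import Pool.Agent.Helper91K1.WS.BZ
import Pool.Agent.Helper91K1.WS.F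
import Pool.Agent.Helper95.WS.ER

set_option autoImplicit false

namespace Pool.Agent.Helper91K1.WS

open Finset MeasureTheory Filter

theorem tE : TaskE := Pool.Agent.Helper95.WS.taskE taskM

theorem tR : TaskR := Pool.Agent.Helper95.WS.taskR taskM

theorem tV : TaskV := taskV (taskW taskS) taskT

theorem tAE : TaskAE2 := taskAE2 tE taskB taskF

theorem tAV : TaskAV2 := taskAV2 tV taskB taskF (taskAG taskG)

theorem tAR : TaskAR2 := taskAR2 tR taskB taskF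

/-- `2 k` random shifts and one arbitrary shift -/
theorem shifted (k : ℕ) (hk : 2 ≤ k) : ∃ c : ℝ, 0 < c ∧ ∀ᵐ θ : Fin (k + k) → ℝ, ∀ ψ : ℝ, ∀ C : ℕ,
    ∃ T : ℝ, ∀ τ : ℝ, T ≤ τ → ∃ x : Fin (k + k) → ℕ, ∃ y : ℕ, (∀ i, C ≤ x i) ∧ C ≤ y ∧
      |∑ i, ((x i : ℝ) + θ i) ^ k + ((y:ℝ) + ψ) ^ k - τ| < τ ^ (-c) :=
  main2_of tAE tAV tAR taskZ k hk

/-- `k + j` random shifts, exceptional sets -/
theorem exceptional (k j : ℕ) (hk : 2 ≤ k) (hj : 1 ≤ j) (hjk : j ≤ k) (ε : ℝ) (hε : 0 < ε) :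
    ∃ c : ℝ, 0 < c ∧ ∀ᵐ θ : Fin (k + j) → ℝ, ∀ᶠ T : ℝ in atTop,
      volume {τ : ℝ | 0 < τ ∧ τ ≤ T ∧ ∀ x : Fin (k + j) → ℕ,
        τ ^ (-c) ≤ |∑ i, ((x i : ℝ) + θ i) ^ k - τ|} ≤
      ENNReal.ofReal (T ^ (1 - (j:ℝ) / k + ε)) :=
  exc_of tAE tAV tAR taskZ k j hk hj hjk ε hε

end Pool.Agent.Helper91K1.WS
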