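import Mathlib

set_option autoImplicit false

namespace Pool.Agent.Helper91K1.WS

open Finset MeasureTheory Filter

lemma term_ge (k : ℕ) (t : ℝ) (x : ℕ) : -|t| ^ k ≤ ((x:ℝ) + t) ^ k := by
  have hx : (0:ℝ) ≤ x := by positivity
  rcases le_or_gt 0 ((x:ℝ) + t) with h | h
  · have h1 : 0 ≤ ((x:ℝ) + t) ^ k := pow_nonneg h k
    have h2 : 0 ≤ |t| ^ k := by positivity
    linarith
  · have h1 : |(x:ℝ) + t| ≤ |t| := by
      rw [abs_of_neg h, abs_of_neg (by linarith)]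
      linarith
    have h2 : |(x:ℝ) + t| ^ k ≤ |t| ^ k := pow_le_pow_left₀ (abs_nonneg _) h1 k
    have h3 : -|((x:ℝ) + t) ^ k| ≤ ((x:ℝ) + t) ^ k := neg_abs_le _
    rw [abs_pow] at h3
    linarith

/-- `k` terms do not suffice for almost all reals -/
theorem taskK (k : ℕ) (hk : 2 ≤ k) (θ : Fin k → ℝ) : ∀ᶠ T : ℝ in atTop,
    ENNReal.ofReal (T / 3) ≤ volume {τ : ℝ | 0 < τ ∧ τ ≤ T ∧
      ∀ x : Fin k → ℕ, 1 / 4 ≤ |∑ i, ((x i : ℝ) + θ i) ^ k - τ|} := by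
  set Θ : ℝ := ∑ i, |θ i| with hΘ
  set D : ℝ := ∑ i, |θ i| ^ k + 1 with hD
  have hΘ0 : 0 ≤ Θ := Finset.sum_nonneg fun _ _ => abs_nonneg _
  have hD1 : 1 ≤ D := by
    have : 0 ≤ ∑ i, |θ i| ^ k := Finset.sum_nonneg fun _ _ => by positivity
    rw [hD]; linarith
  have hk0 : (0:ℝ) < k := by positivity
  have hkne : k ≠ 0 := by omega
  set ε : ℝ := 1 / (11 * k) with hε
  have hε0 : 0 < ε := by positivity
  have hεk : (k:ℝ) * ε = 1 / 11 := by rw [hε]; field_simp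
  have hε1 : ε ≤ 1 / 11 := by
    have h1 : (1:ℝ) ≤ k := by exact_mod_cast (show 1 ≤ k by omega)
    nlinarith
  have hX : Tendsto (fun T : ℝ => (T + D) ^ (1 / (k:ℝ))) atTop atTop :=
    (tendsto_rpow_atTop (by positivity)).comp (tendsto_atTop_add_const_right _ D tendsto_id)
  filter_upwards [eventually_ge_atTop (10 * D), hX.eventually_ge_atTop ((Θ + 1) / ε)] with T hT hXT
  set X : ℝ := (T + D) ^ (1 / (k:ℝ)) with hXdef
  have hTD : 0 ≤ T + D := by linarith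
  have hX0 : 0 ≤ X := Real.rpow_nonneg hTD _
  have hXk : X ^ k = T + D := by
    rw [hXdef, one_div, Real.rpow_inv_natCast_pow hTD hkne]
  rw [div_le_iff₀ hε0] at hXT
  let S : Finset (Fin k → ℕ) := Fintype.piFinset fun _ => range (⌊X + Θ⌋₊ + 1)
  have hcard : (S.card : ℝ) ≤ 1.3 * T := by
    have h1 : (S.card : ℝ) = ((⌊X + Θ⌋₊ : ℝ) + 1) ^ k := by
      simp only [S, Fintype.card_piFinset, card_range, prod_const, card_univ, Fintype.card_fin]
      push_cast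
      rfl
    rw [h1]
    have h2 : (⌊X + Θ⌋₊ : ℝ) + 1 ≤ X + (Θ + 1) := by
      have := Nat.floor_le (show 0 ≤ X + Θ by positivity)
      linarith
    have h3 : X + (Θ + 1) ≤ X / (1 - ε) := by
      rw [le_div_iff₀ (by linarith)]
      nlinarith
    have h4 : ((⌊X + Θ⌋₊ : ℝ) + 1) ^ k ≤ (X / (1 - ε)) ^ k :=
      pow_le_pow_left₀ (by positivity) (h2.trans h3) k
    have h5 : 1 + (k:ℝ) * (-ε) ≤ (1 + (-ε)) ^ k := one_add_mul_le_pow (by linarith) k
    have h6 : (10 / 11 : ℝ) ≤ (1 - ε) ^ k := by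
      have : 1 + (k:ℝ) * (-ε) = 10 / 11 := by linarith
      rw [this] at h5
      simpa [sub_eq_add_neg] using h5
    have h7 : (X / (1 - ε)) ^ k ≤ 1.1 * (T + D) := by
      rw [div_pow, hXk, div_le_iff₀ (by linarith)]
      nlinarith
    linarith
  have hmem : ∀ τ : ℝ, τ ≤ T → ∀ x : Fin k → ℕ, |∑ i, ((x i : ℝ) + θ i) ^ k - τ| < 1 / 4 →
      x ∈ S := by
    intro τ hτ x hx
    simp only [S, Fintype.mem_piFinset, mem_range]
    intro i
    rw [abs_lt] at hx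
    have h1 : ∑ j, ((x j : ℝ) + θ j) ^ k = ((x i : ℝ) + θ i) ^ k +
        ∑ j ∈ univ.erase i, ((x j : ℝ) + θ j) ^ k := (add_sum_erase _ _ (mem_univ i)).symm
    have h2 : -∑ j ∈ univ.erase i, |θ j| ^ k ≤ ∑ j ∈ univ.erase i, ((x j : ℝ) + θ j) ^ k := by
      rw [← sum_neg_distrib]
      exact sum_le_sum fun j _ => term_ge k (θ j) (x j)
    have h3 : ∑ j ∈ univ.erase i, |θ j| ^ k ≤ ∑ j, |θ j| ^ k :=
      sum_le_sum_of_subset_of_nonneg (erase_subset _ _) fun _ _ _ => by positivity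
    have h4 : ((x i : ℝ) + θ i) ^ k ≤ T + D := by
      rw [hD]; linarith [hx.2]
    have h5 : (x i : ℝ) + θ i ≤ X := by
      by_contra hcon
      push Not at hcon
      have := pow_lt_pow_left₀ hcon hX0 hkne
      rw [hXk] at this
      linarith
    have h6 : |θ i| ≤ Θ := single_le_sum (f := fun i => |θ i|) (fun _ _ => abs_nonneg _) (mem_univ i)
    have h7 := neg_abs_le (θ i)
    have h8 : (x i : ℝ) ≤ X + Θ := by linarith
    exact Nat.lt_succ_of_le (Nat.le_floor h8)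
  have hcov : Set.Ioc 0 T ⊆ {τ : ℝ | 0 < τ ∧ τ ≤ T ∧
      ∀ x : Fin k → ℕ, 1 / 4 ≤ |∑ i, ((x i : ℝ) + θ i) ^ k - τ|} ∪
      ⋃ x ∈ S, Set.Ioo (∑ i, ((x i : ℝ) + θ i) ^ k - 1 / 4) (∑ i, ((x i : ℝ) + θ i) ^ k + 1 / 4) := by
    intro τ hτ
    by_cases h : ∀ x : Fin k → ℕ, 1 / 4 ≤ |∑ i, ((x i : ℝ) + θ i) ^ k - τ|
    · exact Or.inl ⟨hτ.1, hτ.2, h⟩
    · right
      push Not at h
      obtain ⟨x, hx⟩ := h
      simp only [Set.mem_iUnion]
      refine ⟨x, hmem τ hτ.2 x hx, ?_⟩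
      rw [abs_lt] at hx
      constructor <;> linarith [hx.1, hx.2]
  have hvol : ENNReal.ofReal T ≤ volume {τ : ℝ | 0 < τ ∧ τ ≤ T ∧
      ∀ x : Fin k → ℕ, 1 / 4 ≤ |∑ i, ((x i : ℝ) + θ i) ^ k - τ|} +
      ENNReal.ofReal (S.card * (1 / 2)) := by
    have h1 : volume (Set.Ioc 0 T) = ENNReal.ofReal T := by rw [Real.volume_Ioc, sub_zero]
    rw [← h1]
    refine (measure_mono hcov).trans ((measure_union_le _ _).trans ?_)
    refine add_le_add le_rfl ((measure_biUnion_finset_le _ _).trans ?_)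
    have h2 : ∀ x ∈ S, volume (Set.Ioo (∑ i, ((x i : ℝ) + θ i) ^ k - 1 / 4)
        (∑ i, ((x i : ℝ) + θ i) ^ k + 1 / 4)) ≤ ENNReal.ofReal (1 / 2) := by
      intro x _
      rw [Real.volume_Ioo]
      apply ENNReal.ofReal_le_ofReal
      linarith
    refine (sum_le_sum h2).trans ?_
    rw [sum_const, nsmul_eq_mul, ENNReal.ofReal_mul (by positivity), ENNReal.ofReal_natCast]
  have h9 : ENNReal.ofReal (T / 3) + ENNReal.ofReal (S.card * (1 / 2)) ≤
      volume {τ : ℝ | 0 < τ ∧ τ ≤ T ∧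
        ∀ x : Fin k → ℕ, 1 / 4 ≤ |∑ i, ((x i : ℝ) + θ i) ^ k - τ|} +
        ENNReal.ofReal (S.card * (1 / 2)) := by
    refine le_trans ?_ hvol
    rw [← ENNReal.ofReal_add (by linarith) (by positivity)]
    apply ENNReal.ofReal_le_ofReal
    linarith
  exact (ENNReal.add_le_add_iff_right ENNReal.ofReal_ne_top).mp h9

end Pool.Agent.Helper91K1.WS
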