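import Pool.Agent.Helper91K1.WS.AF

set_option autoImplicit false

namespace Pool.Agent.Helper91K1.WS

open Finset MeasureTheory Filter

theorem main_of (hAE : TaskAE) (hAV : TaskAV) (hAR : TaskAR) (hZ : TaskZ) (k : ℕ) (hk : 2 ≤ k) :
    ∀ᵐ θ : Fin (k + k) → ℝ, ∀ ψ η : ℝ, 0 < η → ∀ C : ℕ, ∃ T : ℝ, ∀ τ : ℝ, T ≤ τ →
      ∃ x : Fin (k + k) → ℕ, ∃ y : ℕ, (∀ i, C ≤ x i) ∧ C ≤ y ∧
        |∑ i, ((x i : ℝ) + θ i) ^ k + ((y:ℝ) + ψ) ^ k - τ| < η := by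
  set r : ℕ := bb k k + k + 2 with hr
  set B : ℕ := ((2 * k + 1) * 2 ^ k + 3 ^ k + 1) * 2 ^ (r * k) + 1 with hB
  have hkB : (k + 2) * 2 ^ k ≤ B := by
    have h1 : (k + 2) * 2 ^ k ≤ (2 * k + 1) * 2 ^ k := Nat.mul_le_mul_right _ (by omega)
    have h2 : (2 * k + 1) * 2 ^ k ≤ (2 * k + 1) * 2 ^ k + 3 ^ k + 1 := by
      rw [add_assoc]; exact Nat.le_add_right _ _
    have h3 : (2 * k + 1) * 2 ^ k + 3 ^ k + 1 ≤
        ((2 * k + 1) * 2 ^ k + 3 ^ k + 1) * 2 ^ (r * k) :=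
      Nat.le_mul_of_pos_right _ (by positivity)
    omega
  have key : ∀ q : ℕ, ∀ᵐ θ : Fin (k + k) → ℝ, (∀ i, θ i ∈ Set.Ico (0:ℝ) 1) →
      pB k r B (B + 1) (1 / ((q:ℝ) + 1)) k θ := by
    intro q
    have hδ : 0 < 1 / ((q:ℝ) + 1) := by positivity
    have hδ1 : 1 / ((q:ℝ) + 1) ≤ 1 := by
      rw [div_le_one (by positivity)]
      have : (0:ℝ) ≤ q := by positivity
      linarith
    have h0 := hAE k r (B + 1) _ hk (by omega) (by omega) hδ hδ1 k (by omega) le_rfl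
    have h1 := hAV k r B _ hk (by omega) hkB hδ hδ1 h0
    have h2 : ∀ c : ℕ, 1 ≤ c → c ≤ k → ∀ᵐ θ : Fin (k + c) → ℝ, (∀ i, θ i ∈ Set.Ico (0:ℝ) 1) →
        pB k r B (B + 1) (1 / ((q:ℝ) + 1)) c θ := by
      intro c hc
      induction c, hc using Nat.le_induction with
      | base => intro _; exact h1
      | succ c hc ih =>
        intro hck
        exact hAR k r B (B + 1) _ c hk (by omega) hδ hδ1 hc hck (ih (by omega))
    exact h2 k (by omega) le_rfl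
  have hall : ∀ᵐ θ : Fin (k + k) → ℝ, (∀ i, θ i ∈ Set.Ico (0:ℝ) 1) →
      ∀ q : ℕ, pB k r B (B + 1) (1 / ((q:ℝ) + 1)) k θ := by
    have := ae_all_iff.mpr key
    filter_upwards [this] with θ h hθ q
    exact h q hθ
  have hz := hZ (k + k) (fun θ => ∀ q : ℕ, pB k r B (B + 1) (1 / ((q:ℝ) + 1)) k θ) hall
  filter_upwards [hz] with θ h ψ η hη C
  obtain ⟨q, hq⟩ := exists_nat_ge (((k:ℝ) + 3) / η)
  have hδ : 0 < 1 / ((q:ℝ) + 1) := by positivity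
  have hδ1 : 1 / ((q:ℝ) + 1) ≤ 1 := by
    rw [div_le_one (by positivity)]
    have : (0:ℝ) ≤ q := by positivity
    linarith
  have hη' : ((k:ℝ) + 3) * (1 / ((q:ℝ) + 1)) ≤ η := by
    rw [div_le_iff₀ hη] at hq
    rw [mul_one_div, div_le_iff₀ (by positivity)]
    nlinarith
  obtain ⟨T, hT⟩ := final_det k r B (B + 1) _ hk (by omega) (by omega) le_rfl hδ hδ1 _ (h q) ψ
    (C + ∑ i, (⌊θ i⌋).natAbs)
  refine ⟨T, fun τ hτ => ?_⟩
  obtain ⟨x, y, hx, hy, hxy⟩ := hT τ hτ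
  have hx' : ∀ i, C + (⌊θ i⌋).natAbs ≤ x i := by
    intro i
    have h1 : (⌊θ i⌋).natAbs ≤ ∑ i, (⌊θ i⌋).natAbs :=
      single_le_sum (f := fun i => (⌊θ i⌋).natAbs) (fun _ _ => Nat.zero_le _) (mem_univ i)
    have h2 := hx i
    omega
  have hx2 : ∀ i, (C:ℤ) ≤ (x i : ℤ) - ⌊θ i⌋ := by
    intro i
    have := hx' i
    omega
  refine ⟨fun i => ((x i : ℤ) - ⌊θ i⌋).toNat, y, fun i => ?_, ?_, ?_⟩
  · have := hx2 i
    show C ≤ ((x i : ℤ) - ⌊θ i⌋).toNat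
    omega
  · omega
  · have e : ∑ i, (((((x i : ℤ) - ⌊θ i⌋).toNat : ℕ) : ℝ) + θ i) ^ k =
        Sg k (fun i => Int.fract (θ i)) x := by
      unfold Sg
      refine sum_congr rfl fun i _ => ?_
      have h1 : ((((x i : ℤ) - ⌊θ i⌋).toNat : ℕ) : ℤ) = (x i : ℤ) - ⌊θ i⌋ :=
        Int.toNat_of_nonneg (le_trans (by positivity) (hx2 i))
      have h2 : ((((x i : ℤ) - ⌊θ i⌋).toNat : ℕ) : ℝ) = (x i : ℝ) - ⌊θ i⌋ := by
        exact_mod_cast congrArg (fun z : ℤ => (z : ℝ)) h1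
      rw [h2]
      congr 1
      unfold Int.fract
      ring
    rw [e]
    exact lt_of_lt_of_le hxy hη'

end Pool.Agent.Helper91K1.WS
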