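import Pool.Agent.Helper91K1.WS.AF2

set_option autoImplicit false

namespace Pool.Agent.Helper91K1.WS

open Finset MeasureTheory Filter

/-- the bound `B` -/
def Bf (k r : ℕ) : ℕ := Af k * 2 ^ (r * k) + 1

lemma le_Bf (k r : ℕ) (hk : 2 ≤ k) : (k + 2) * 2 ^ k ≤ Bf k r := by
  have h1 : (k + 2) * 2 ^ k ≤ (2 * k + 1) * 2 ^ k := Nat.mul_le_mul_right _ (by omega)
  have h2 : (2 * k + 1) * 2 ^ k ≤ Af k := by
    unfold Af; rw [add_assoc]; exact Nat.le_add_right _ _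
  have h3 : Af k ≤ Af k * 2 ^ (r * k) := Nat.le_mul_of_pos_right _ (by positivity)
  unfold Bf
  omega

/-- few exceptional integers after each stage -/
lemma bads (hAE : TaskAE2) (hAV : TaskAV2) (hAR : TaskAR2) (k r : ℕ) (δ : ℕ → ℝ) (hδ : Adm δ)
    (hk : 2 ≤ k) (hr : k + 1 ≤ r) (c : ℕ) (hc : 1 ≤ c) (hck : c ≤ k) :
    ∀ᵐ θ : Fin (k + c) → ℝ, (∀ i, θ i ∈ Set.Ico (0:ℝ) 1) →
      pB2 k r (Bf k r) (Bf k r + 1) δ c θ := by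
  have h0 := hAE k r (Bf k r + 1) δ hk (by omega) (by omega) hδ k (by omega) le_rfl
  have h1 := hAV k r (Bf k r) δ hk hr (le_Bf k r hk) hδ h0
  induction c, hc using Nat.le_induction with
  | base => exact h1
  | succ c hc ih =>
    exact hAR k r (Bf k r) (Bf k r + 1) δ c hk (by omega) hδ hc hck (ih (by omega))

theorem main2_of (hAE : TaskAE2) (hAV : TaskAV2) (hAR : TaskAR2) (hZ : TaskZ) (k : ℕ)
    (hk : 2 ≤ k) : ∃ c : ℝ, 0 < c ∧ ∀ᵐ θ : Fin (k + k) → ℝ, ∀ ψ : ℝ, ∀ C : ℕ, ∃ T : ℝ,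
      ∀ τ : ℝ, T ≤ τ → ∃ x : Fin (k + k) → ℕ, ∃ y : ℕ, (∀ i, C ≤ x i) ∧ C ≤ y ∧
        |∑ i, ((x i : ℝ) + θ i) ^ k + ((y:ℝ) + ψ) ^ k - τ| < τ ^ (-c) := by
  set r : ℕ := b2 k k + k + 2 with hr
  refine ⟨1 / (((r * k : ℕ) : ℝ) + 1), by positivity, ?_⟩
  have hall := bads hAE hAV hAR k r (fun n => 1 / 2 ^ n) adm_two hk (by omega) k (by omega) le_rfl
  have hz := hZ (k + k) (fun θ => pB2 k r (Bf k r) (Bf k r + 1) (fun n => 1 / 2 ^ n) k θ) hall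
  filter_upwards [hz] with θ h ψ C
  set C' : ℕ := C + ∑ i, (⌊θ i⌋).natAbs with hC'
  obtain ⟨n0, hn0⟩ : ∃ n0 : ℕ, ∀ n, n0 ≤ n →
      ((Bad k r (Bf k r) (Bf k r + 1) n (1 / 2 ^ n) k (fun i => Int.fract (θ i))).card : ℝ) ≤
      ((2:ℝ) ^ n) ^ (b2 k k) ∧ |ψ| ≤ 2 ^ n ∧ (C':ℝ) ≤ 2 ^ n ∧ (2:ℝ) ≤ 2 ^ n ∧
      (∀ τ : ℝ, 0 < τ → τ ≤ ((Af k : ℝ) * 2 ^ (r * k)) * ((2:ℝ) ^ n) ^ (r * k) →
        ((k:ℝ) + 3) * (1 / 2 ^ n) ≤ τ ^ (-(1 / (((r * k : ℕ) : ℝ) + 1)))) := by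
    have h1 := h
    unfold pB2 at h1
    rw [← eventually_atTop]
    filter_upwards [h1, growth' |ψ|, growth' C', growth' 2,
      tol ((Af k : ℝ) * 2 ^ (r * k)) ((k:ℝ) + 3) (r * k) (by positivity) (by positivity)]
      with n e1 e2 e3 e4 e5
    refine ⟨?_, e2, e3, e4, e5⟩
    rw [Nat.sub_self, pow_zero, one_mul] at e1
    exact e1
  refine ⟨(Af k : ℝ) * (PP r n0 : ℝ) ^ k, fun τ hτ => ?_⟩
  obtain ⟨n, hn, hτ1, hτ2⟩ := exists_scale k r n0 (by omega) (by omega) τ hτ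
  obtain ⟨hb, hψ, hC, h2n, htol⟩ := hn0 n hn
  obtain ⟨x, y, hx, hy, hxy⟩ := final_scale k r (Bf k r) (Bf k r + 1) n (b2 k k) (1 / 2 ^ n) hk
    (by omega) (by omega) le_rfl (by positivity) (adm_two.1 n).2 _ hb ψ C' hψ hC h2n τ hτ1 hτ2
  have hx' : ∀ i, C + (⌊θ i⌋).natAbs ≤ x i := by
    intro i
    have h1 : (⌊θ i⌋).natAbs ≤ ∑ i, (⌊θ i⌋).natAbs :=
      single_le_sum (f := fun i => (⌊θ i⌋).natAbs) (fun _ _ => Nat.zero_le _) (mem_univ i)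
    have h2 := hx i
    omega
  have hx2 : ∀ i, (C:ℤ) ≤ (x i : ℤ) - ⌊θ i⌋ := by
    intro i
    have := hx' i
    omega
  refine ⟨fun i => ((x i : ℤ) - ⌊θ i⌋).toNat, y, fun i => ?_, ?_, ?_⟩
  · have := hx2 i
    show C ≤ ((x i : ℤ) - ⌊θ i⌋).toNat
    omega
  · omega
  · have e : ∑ i, (((((x i : ℤ) - ⌊θ i⌋).toNat : ℕ) : ℝ) + θ i) ^ k =
        Sg k (fun i => Int.fract (θ i)) x := by
      unfold Sg
      refine sum_congr rfl fun i _ => ?_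
      have h1 : ((((x i : ℤ) - ⌊θ i⌋).toNat : ℕ) : ℤ) = (x i : ℤ) - ⌊θ i⌋ :=
        Int.toNat_of_nonneg (le_trans (by positivity) (hx2 i))
      have h2 : ((((x i : ℤ) - ⌊θ i⌋).toNat : ℕ) : ℝ) = (x i : ℝ) - ⌊θ i⌋ := by
        exact_mod_cast congrArg (fun z : ℤ => (z : ℝ)) h1
      rw [h2]
      congr 1
      unfold Int.fract
      ring
    rw [e]
    refine lt_of_lt_of_le hxy (htol τ ?_ ?_)
    · have h1 := one_le_Af k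
      have h2 : (1:ℝ) ≤ (PP r n : ℝ) ^ k := by
        apply one_le_pow₀
        exact_mod_cast PP_pos r n
      nlinarith
    · rw [PP_succ, mul_pow, ← pow_mul, PP_real, ← pow_mul ((2:ℝ) ^ n)] at hτ2
      linarith

end Pool.Agent.Helper91K1.WS
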