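import Pool.Agent.Helper91K1.WS.Asm1

/-!
# Waring's problem with shifts for almost all shifts: statements of the stages

`L = 2^n`, `P = PP r n = L^r`, `Q = QQ r n = L^(r-1)`. `II r K n s` is the set of the tuples of the
first `s` variables and `Sg k θ x = ∑ (x_i + θ_i)^k`.
-/

set_option autoImplicit false

namespace Pool.Agent.Helper91K1.WS

open Finset MeasureTheory Filter

/-- the exponents: `bb k 1 = 2k + 9`, `bb k (c + 1) = 2 bb k c + 3` -/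
def bb (k : ℕ) : ℕ → ℕ
  | 0 => 0
  | 1 => 2 * k + 9
  | c + 2 => 2 * bb k (c + 1) + 3

/-- integers `m` with `(k + c + 1) 2^k P^k ≤ m δ` and `(m + 1) δ ≤ B P^k` -/
noncomputable def VV (k r B n : ℕ) (δ : ℝ) (c : ℕ) : Finset ℤ :=
  Icc ⌈((k:ℝ) + c + 1) * 2 ^ k * (PP r n : ℝ) ^ k / δ⌉ (⌊(B:ℝ) * (PP r n : ℝ) ^ k / δ⌋ - 1)

lemma mem_VV (k r B n : ℕ) (δ : ℝ) (c : ℕ) (hδ : 0 < δ) (m : ℤ) :
    m ∈ VV k r B n δ c ↔ ((k:ℝ) + c + 1) * 2 ^ k * (PP r n : ℝ) ^ k ≤ m * δ ∧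
      (m + 1) * δ ≤ (B:ℝ) * (PP r n : ℝ) ^ k := by
  unfold VV
  rw [mem_Icc, Int.ceil_le, div_le_iff₀ hδ, Int.le_sub_one_iff, ← Int.add_one_le_iff,
    Int.le_floor, le_div_iff₀ hδ]
  push_cast
  rfl

/-- the exceptional integers after `s = k + c` variables -/
noncomputable def Bad (k r B K n : ℕ) (δ : ℝ) (c : ℕ) (θ : Fin (k + c) → ℝ) : Finset ℤ :=
  (VV k r B n δ c).filter (fun m => ∀ x ∈ II r K n (k + c), (c + 1) * δ ≤ |Sg k θ x - m * δ|)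

/-- small energy at all large scales -/
def pE (k r K : ℕ) (δ : ℝ) (s : ℕ) (θ : Fin s → ℝ) : Prop :=
  ∀ᶠ n in atTop, En (II r K n s) (Sg k θ) δ ≤ (PP r n : ℝ) ^ s * ((2:ℝ) ^ n) ^ (2 * s)

/-- few exceptional integers at all large scales -/
def pB (k r B K : ℕ) (δ : ℝ) (c : ℕ) (θ : Fin (k + c) → ℝ) : Prop :=
  ∀ᶠ n in atTop, ((Bad k r B K n δ c θ).card : ℝ) ≤
    (PP r n : ℝ) ^ (k - c) * ((2:ℝ) ^ n) ^ (bb k c)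

/-- (AE) the energy, `1 ≤ s ≤ k` -/
def TaskAE : Prop := ∀ (k r K : ℕ) (δ : ℝ), 2 ≤ k → 1 ≤ r → 1 ≤ K → 0 < δ → δ ≤ 1 →
  ∀ s : ℕ, 1 ≤ s → s ≤ k →
    ∀ᵐ θ : Fin s → ℝ, (∀ i, θ i ∈ Set.Ico (0:ℝ) 1) → pE k r K δ s θ

/-- (AG) the greedy lower bound for the number of the tuples of `m + 2` variables -/
def TaskAG : Prop := ∀ (k r B n : ℕ), 2 ≤ k → k + 1 ≤ r → 1 ≤ B →
  3 * k * (B + 1) ^ (k - 1) ≤ 2 ^ n → 3 ≤ QQ r n →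
  ∀ (m : ℕ) (θ : Fin (m + 2) → ℝ), (∀ i, θ i ∈ Set.Ico (0:ℝ) 1) → ∀ u h : ℝ,
    ((m:ℝ) + 2) * 2 ^ k * (PP r n : ℝ) ^ k ≤ u → u ≤ (B:ℝ) * (PP r n : ℝ) ^ k →
    k * (2 * (QQ r n : ℝ)) ^ (k - 1) ≤ h →
    (PP r n : ℝ) ^ m * ((2:ℝ) ^ n) ^ (r - k - 1) ≤
      (((II r (B + 1) n (m + 2)).filter (fun x => Sg k θ x ∈ Set.Ico u (u + h))).card : ℝ)

/-- (AV) the decisive stage, from `k` to `k + 1` variables -/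
def TaskAV : Prop := ∀ (k r B : ℕ) (δ : ℝ), 2 ≤ k → k + 1 ≤ r → (k + 2) * 2 ^ k ≤ B →
  0 < δ → δ ≤ 1 →
  (∀ᵐ θ : Fin k → ℝ, (∀ i, θ i ∈ Set.Ico (0:ℝ) 1) → pE k r (B + 1) δ k θ) →
  ∀ᵐ θ : Fin (k + 1) → ℝ, (∀ i, θ i ∈ Set.Ico (0:ℝ) 1) → pB k r B (B + 1) δ 1 θ

/-- (AR) from `k + c` to `k + c + 1` variables -/
def TaskAR : Prop := ∀ (k r B K : ℕ) (δ : ℝ) (c : ℕ), 2 ≤ k → 1 ≤ r → 0 < δ → δ ≤ 1 →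
  1 ≤ c → c + 1 ≤ k →
  (∀ᵐ θ : Fin (k + c) → ℝ, (∀ i, θ i ∈ Set.Ico (0:ℝ) 1) → pB k r B K δ c θ) →
  ∀ᵐ θ : Fin (k + (c + 1)) → ℝ, (∀ i, θ i ∈ Set.Ico (0:ℝ) 1) → pB k r B K δ (c + 1) θ

end Pool.Agent.Helper91K1.WS
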